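import Pool.Agent.CycSyl.Count2

/-!
The number of normalised elements of prime norm `s` is `s + 1`.
-/

set_option autoImplicit false

namespace Pool.Agent.CycSyl

open Hz Finset

/-- kernel of a nonzero singular matrix over a finite field -/
theorem card_ker {F : Type*} [Field F] [Fintype F] [DecidableEq F] (p q r t : F)
    (hdet : p * t = q * r) (h0 : ¬ (p = 0 ∧ q = 0 ∧ r = 0 ∧ t = 0)) :
    ((Finset.univ : Finset (F × F)).filter
      (fun v => v.1 * p + v.2 * r = 0 ∧ v.1 * q + v.2 * t = 0)).card = Fintype.card F := by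
  by_cases h : p = 0 ∧ r = 0
  · obtain ⟨hp, hr⟩ := h
    have hqt : ¬ (q = 0 ∧ t = 0) := fun h => h0 ⟨hp, h.1, hr, h.2⟩
    rw [← Finset.card_univ]
    symm
    apply Finset.card_nbij (fun c : F => (c * t, -(c * q)))
    · intro c _
      simp only [Finset.coe_filter, Set.mem_ofPred_eq, Finset.mem_univ, true_and, hp, hr]
      constructor
      · ring
      · ring
    · intro c _ c' _ h
      simp only [Prod.mk.injEq, neg_inj] at h
      by_cases hq : q = 0
      · have ht : t ≠ 0 := fun ht => hqt ⟨hq, ht⟩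
        exact mul_right_cancel₀ ht h.1
      · exact mul_right_cancel₀ hq h.2
    · rintro ⟨x, y⟩ hxy
      simp only [Finset.coe_filter, Finset.mem_univ, true_and, Set.mem_ofPred_eq] at hxy
      obtain ⟨_, h2⟩ := hxy
      by_cases hq : q = 0
      · have ht : t ≠ 0 := fun ht => hqt ⟨hq, ht⟩
        refine ⟨x / t, by simp, ?_⟩
        have hy : y = 0 := by
          rw [hq, mul_zero, zero_add] at h2
          exact (mul_eq_zero.1 h2).resolve_right ht
        simp only [Prod.mk.injEq]
        rw [hq, hy]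
        constructor
        · field_simp
        · ring
      · refine ⟨-(y / q), by simp, ?_⟩
        simp only [Prod.mk.injEq]
        constructor
        · field_simp; linear_combination -h2
        · field_simp
  · rw [← Finset.card_univ]
    symm
    have hpr : ¬ (p = 0 ∧ r = 0) := h
    apply Finset.card_nbij (fun c : F => (c * r, -(c * p)))
    · intro c _
      simp only [Finset.coe_filter, Set.mem_ofPred_eq, Finset.mem_univ, true_and]
      constructor
      · ring
      · linear_combination -c * hdet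
    · intro c _ c' _ h
      simp only [Prod.mk.injEq, neg_inj] at h
      by_cases hq : p = 0
      · have ht : r ≠ 0 := fun ht => hpr ⟨hq, ht⟩
        exact mul_right_cancel₀ ht h.1
      · exact mul_right_cancel₀ hq h.2
    · rintro ⟨x, y⟩ hxy
      simp only [Finset.coe_filter, Finset.mem_univ, true_and, Set.mem_ofPred_eq] at hxy
      obtain ⟨h2, _⟩ := hxy
      by_cases hq : p = 0
      · have ht : r ≠ 0 := fun ht => hpr ⟨hq, ht⟩
        refine ⟨x / r, by simp, ?_⟩
        have hy : y = 0 := by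
          rw [hq, mul_zero, zero_add] at h2
          exact (mul_eq_zero.1 h2).resolve_right ht
        simp only [Prod.mk.injEq]
        rw [hq, hy]
        constructor
        · field_simp
        · ring
      · refine ⟨-(y / p), by simp, ?_⟩
        simp only [Prod.mk.injEq]
        constructor
        · field_simp; linear_combination -h2
        · field_simp

section field

variable {F : Type*} [Field F] (a b h : F)

/-- isotropic element -/
def eta (a b : F) : Hz F := ⟨1, a, b, 0⟩

/-- first coordinate of the right ideal representation -/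
def al (a b h : F) (x : Hz F) : F := x.a + h * x.d + (x.c + h * x.d) / b - a * (h * x.d) / b
/-- second coordinate of the right ideal representation -/
def be (a b h : F) (x : Hz F) : F :=
  x.b + h * x.d - a * (x.c + h * x.d) / b - (h * x.d) / b

theorem eta_mul (ha : a ^ 2 + b ^ 2 = -1) (hb : b ≠ 0) (hh : 2 * h = 1) (x : Hz F) :
    eta a b * x = eta a b * ⟨al a b h x, be a b h x, 0, 0⟩ := by
  ext
  · simp only [eta, al, be, mul_a]
    field_simp
    linear_combination -(x.c + h * x.d) * ha + (a * b * x.d) * hh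
  · simp only [eta, al, be, mul_b]
    field_simp
    linear_combination (h * x.d) * ha - (b ^ 2 * x.d) * hh
  · simp only [eta, al, be, mul_c]
    field_simp
    linear_combination (-(b * (b - a) * x.d)) * hh
  · simp only [eta, al, be, mul_d]
    field_simp
    linear_combination (-(b * (x.d + a * x.d - b * x.d))) * hh

theorem eta_inj (hb : b ≠ 0) (h2 : (2 : F) ≠ 0) {p q : F}
    (h0 : eta a b * ⟨p, q, 0, 0⟩ = 0) : p = 0 ∧ q = 0 := by
  have hc := congrArg Hz.c h0
  have hd := congrArg Hz.d h0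
  simp only [eta, mul_c, mul_d, zero_c, zero_d] at hc hd
  have hq : 2 * (b * q) = 0 := by linear_combination -hd
  have hq' : q = 0 := by
    rcases mul_eq_zero.1 hq with h | h
    · exact absurd h h2
    · exact (mul_eq_zero.1 h).resolve_left hb
  refine ⟨?_, hq'⟩
  rw [hq'] at hc
  have : b * p = 0 := by linear_combination hc
  exact (mul_eq_zero.1 this).resolve_left hb

/-- the matrix of right multiplication -/
theorem det_id (ha : a ^ 2 + b ^ 2 = -1) (hb : b ≠ 0) (hh : 2 * h = 1) (x : Hz F) :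
    al a b h x * be a b h (⟨0, 1, 0, 0⟩ * x) - be a b h x * al a b h (⟨0, 1, 0, 0⟩ * x) =
      nrm x := by
  have h2 : (2 : F) ≠ 0 := by rintro h2; rw [h2, zero_mul] at hh; exact zero_ne_one hh
  have hh' : h = 1 / 2 := by field_simp; linear_combination hh
  subst hh'
  simp only [al, be, nrm, mul_a, mul_b, mul_c, mul_d]
  field_simp
  linear_combination (-((2 * x.c + x.d) ^ 2 + x.d ^ 2)) * ha

theorem al_be_zero (ha : a ^ 2 + b ^ 2 = -1) (hb : b ≠ 0) (hh : 2 * h = 1) {x : Hz F}
    (h1 : al a b h x = 0) (h2 : be a b h x = 0)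
    (h3 : al a b h (⟨0, 1, 0, 0⟩ * x) = 0) (h4 : be a b h (⟨0, 1, 0, 0⟩ * x) = 0) : x = 0 := by
  have h2' : (2 : F) ≠ 0 := by rintro h2; rw [h2, zero_mul] at hh; exact zero_ne_one hh
  have hh' : h = 1 / 2 := by field_simp; linear_combination hh
  subst hh'
  simp only [al, be, mul_a, mul_b, mul_c, mul_d] at h1 h2 h3 h4
  field_simp at h1 h2 h3 h4
  have hP : b * (2 * x.a + x.d) = 0 := by
    have : 2 * (b * (2 * x.a + x.d)) = 0 := by linear_combination h1 + h4
    exact (mul_eq_zero.1 this).resolve_left h2'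
  have hQ : b * (2 * x.b + x.d) = 0 := by
    have : 2 * (b * (2 * x.b + x.d)) = 0 := by linear_combination h2 - h3
    exact (mul_eq_zero.1 this).resolve_left h2'
  have hU : (2 * x.c + x.d) - a * x.d = 0 := by
    have : 2 * ((2 * x.c + x.d) - a * x.d) = 0 := by linear_combination h1 - h4
    exact (mul_eq_zero.1 this).resolve_left h2'
  have hW : a * (2 * x.c + x.d) + x.d = 0 := by
    have : 2 * (a * (2 * x.c + x.d) + x.d) = 0 := by linear_combination -h2 - h3
    exact (mul_eq_zero.1 this).resolve_left h2'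
  have hd : x.d = 0 := by
    have : b ^ 2 * x.d = 0 := by linear_combination x.d * ha + a * hU - hW
    exact (mul_eq_zero.1 this).resolve_left (pow_ne_zero 2 hb)
  rw [hd] at hP hQ hU
  have hc : x.c = 0 := by
    have : 2 * x.c = 0 := by linear_combination hU
    exact (mul_eq_zero.1 this).resolve_left h2'
  have ha' : x.a = 0 := by
    have := (mul_eq_zero.1 hP).resolve_left hb
    rw [add_zero] at this
    exact (mul_eq_zero.1 this).resolve_left h2'
  have hb' : x.b = 0 := by
    have := (mul_eq_zero.1 hQ).resolve_left hb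
    rw [add_zero] at this
    exact (mul_eq_zero.1 this).resolve_left h2'
  ext <;> simp [*]

end field

theorem card_X_aux {F : Type*} [Field F] [Fintype F] [DecidableEq F] {s : ℕ} (hs : s.Prime)
    (hs22 : s.Coprime 22) (f : ℤ →+* F) (hsurj : Function.Surjective f)
    (hf0 : ∀ n, f n = 0 ↔ (s : ℤ) ∣ n) (hcard : Fintype.card F = s) (a b h : F)
    (ha : a ^ 2 + b ^ 2 = -1) (hb : b ≠ 0) (hh : 2 * h = 1) : (X s).card = s + 1 := by
  classical
  have h11 := ne11_of hs22
  have hs0 : (s : ℤ) ≠ 0 := by exact_mod_cast hs.ne_zero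
  have h2 : (2 : F) ≠ 0 := by rintro h2; rw [h2, zero_mul] at hh; exact zero_ne_one hh
  -- reduction facts
  have hred : ∀ x : Hz ℤ, Hz.map f x = 0 ↔ sc (s : ℤ) ∣ x := by
    intro x
    rw [sc_dvd_iff, Hz.ext_iff]
    simp only [map_a, map_b, map_c, map_d, zero_a, zero_b, zero_c, zero_d, hf0]
  have hlift : ∀ x : Hz F, ∃ u : Hz ℤ, Hz.map f u = x := by
    intro x
    obtain ⟨a', ha'⟩ := hsurj x.a
    obtain ⟨b', hb'⟩ := hsurj x.b
    obtain ⟨c', hc'⟩ := hsurj x.c
    obtain ⟨d', hd'⟩ := hsurj x.d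
    exact ⟨⟨a', b', c', d'⟩, by ext <;> simp [ha', hb', hc', hd']⟩
  -- one `y` for each nonzero `v`
  have hone : ∀ v : F × F, v ≠ 0 → ((X s).filter
      (fun y => eta a b * ⟨v.1, v.2, 0, 0⟩ * Hz.map f (conj y) = 0)).card = 1 := by
    intro v hv
    obtain ⟨u, hu⟩ := hlift (eta a b * ⟨v.1, v.2, 0, 0⟩)
    have hn : (s : ℤ) ∣ nrm u := by
      rw [← hf0, ← nrm_map, hu, nrm_mul]
      have : nrm (eta a b) = 0 := by
        simp only [eta, nrm]
        linear_combination ha
      rw [this, zero_mul]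
    have hnd : ¬ sc (s : ℤ) ∣ u := by
      rw [← hred, hu]
      intro h0
      apply hv
      have := eta_inj a b hb h2 h0
      ext
      · exact this.1
      · exact this.2
    obtain ⟨y, ⟨hy, hL⟩, huniq⟩ := existsUnique_right hs h11 hn hnd
    have hiff : ∀ y', nrm y' = (s : ℤ) →
        (eta a b * ⟨v.1, v.2, 0, 0⟩ * Hz.map f (conj y') = 0 ↔ LM u y') := by
      intro y' hy'
      rw [← hu, ← map_mul, hred]
      constructor
      · rintro ⟨w, hw⟩
        refine ⟨w, ?_⟩
        apply sc_inj_mul hs0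
        rw [← mul_assoc, ← hw, mul_assoc, conj_mul_self, hy', sc_comm]
      · rintro ⟨w, rfl⟩
        rw [mul_assoc, mul_conj, hy', ← sc_comm]
        exact ⟨w, rfl⟩
    rw [Finset.card_eq_one]
    refine ⟨y, ?_⟩
    ext y'
    simp only [Finset.mem_filter, mem_X, Finset.mem_singleton]
    constructor
    · rintro ⟨h1, h3⟩
      exact huniq y' ⟨h1, (hiff y' h1.2).1 h3⟩
    · rintro rfl
      exact ⟨hy, (hiff _ hy.2).2 hL⟩
  -- `s` vectors for each `y`
  have hker : ∀ y ∈ X s, ((Finset.univ : Finset (F × F)).filter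
      (fun v => eta a b * ⟨v.1, v.2, 0, 0⟩ * Hz.map f (conj y) = 0)).card = s := by
    intro y hy
    have hy' := mem_X.1 hy
    obtain ⟨z, hz⟩ : ∃ z : Hz F, z = Hz.map f (conj y) := ⟨_, rfl⟩
    have hzn : nrm z = 0 := by
      rw [hz, nrm_map, nrm_conj, hy'.2, hf0]
    have hz0 : z ≠ 0 := by
      intro h0
      rw [hz, hred, sc_dvd_conj_iff] at h0
      have := sc_dvd_nrm h0
      rw [hy'.2] at this
      have h3 : s ^ 2 ∣ s := by exact_mod_cast this
      have h4 := Nat.le_of_dvd hs.pos h3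
      have h5 := hs.one_lt
      nlinarith
    have hdet := det_id a b h ha hb hh z
    rw [hzn] at hdet
    have hne : ¬ (al a b h z = 0 ∧ be a b h z = 0 ∧ al a b h (⟨0, 1, 0, 0⟩ * z) = 0 ∧
        be a b h (⟨0, 1, 0, 0⟩ * z) = 0) := by
      rintro ⟨q1, q2, q3, q4⟩
      exact hz0 (al_be_zero a b h ha hb hh q1 q2 q3 q4)
    have hdet' : al a b h z * be a b h (⟨0, 1, 0, 0⟩ * z) =
        be a b h z * al a b h (⟨0, 1, 0, 0⟩ * z) := by linear_combination hdet
    have hc0 := card_ker (al a b h z) (be a b h z) (al a b h (⟨0, 1, 0, 0⟩ * z))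
      (be a b h (⟨0, 1, 0, 0⟩ * z))
    have hc := hc0 hdet' hne
    rw [hcard] at hc
    rw [← hz]
    rw [← hc]
    congr 1
    ext v
    simp only [Finset.mem_filter, Finset.mem_univ, true_and]
    have e1 : eta a b * ⟨v.1, v.2, 0, 0⟩ * z =
        eta a b * ⟨v.1 * al a b h z + v.2 * al a b h (⟨0, 1, 0, 0⟩ * z),
          v.1 * be a b h z + v.2 * be a b h (⟨0, 1, 0, 0⟩ * z), 0, 0⟩ := by
      have e2 : (⟨v.1, v.2, 0, 0⟩ : Hz F) = sc v.1 + sc v.2 * ⟨0, 1, 0, 0⟩ := by
        ext <;> simp
      have e3 : eta a b * (⟨v.1, v.2, 0, 0⟩ : Hz F) * z =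
          sc v.1 * (eta a b * z) + sc v.2 * (eta a b * (⟨0, 1, 0, 0⟩ * z)) := by
        rw [e2, mul_add, add_mul, ← sc_comm, mul_assoc (sc v.1), ← mul_assoc (eta a b) (sc v.2),
          ← sc_comm, mul_assoc (sc v.2), mul_assoc (sc v.2), mul_assoc (eta a b)]
      rw [e3, eta_mul a b h ha hb hh z, eta_mul a b h ha hb hh (⟨0, 1, 0, 0⟩ * z),
        ← mul_assoc, ← mul_assoc, sc_comm, sc_comm, mul_assoc, mul_assoc, ← mul_add]
      congr 1
      ext <;> simp
    rw [e1]
    constructor
    · intro h0; exact eta_inj a b hb h2 h0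
    · rintro ⟨h3, h4⟩
      rw [h3, h4]
      have : (⟨0, 0, 0, 0⟩ : Hz F) = 0 := rfl
      rw [this, mul_zero]
  -- double count
  have hker' : ∀ y ∈ X s, (((Finset.univ : Finset (F × F)).erase 0).filter
      (fun v => eta a b * ⟨v.1, v.2, 0, 0⟩ * Hz.map f (conj y) = 0)).card = s - 1 := by
    intro y hy
    rw [Finset.filter_erase, Finset.card_erase_of_mem, hker y hy]
    simp only [Finset.mem_filter, Finset.mem_univ, true_and]
    have : (⟨(0 : F × F).1, (0 : F × F).2, 0, 0⟩ : Hz F) = 0 := rfl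
    rw [this, mul_zero, zero_mul]
  have hdc : ∑ y ∈ X s, (((Finset.univ : Finset (F × F)).erase 0).filter
      (fun v => eta a b * ⟨v.1, v.2, 0, 0⟩ * Hz.map f (conj y) = 0)).card =
      ∑ v ∈ (Finset.univ : Finset (F × F)).erase 0,
      ((X s).filter (fun y => eta a b * ⟨v.1, v.2, 0, 0⟩ * Hz.map f (conj y) = 0)).card := by
    simp only [Finset.card_filter]
    exact Finset.sum_comm
  rw [Finset.sum_congr rfl hker', Finset.sum_const, smul_eq_mul] at hdc
  have hone' : ∀ v ∈ (Finset.univ : Finset (F × F)).erase 0,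
      ((X s).filter (fun y => eta a b * ⟨v.1, v.2, 0, 0⟩ * Hz.map f (conj y) = 0)).card = 1 :=
    fun v hv => hone v (Finset.ne_of_mem_erase hv)
  rw [Finset.sum_congr rfl hone', Finset.sum_const,
      Finset.card_erase_of_mem (Finset.mem_univ _), Finset.card_univ, Fintype.card_prod,
      hcard, smul_eq_mul, mul_one] at hdc
  obtain ⟨k, hk⟩ : ∃ k, s = k + 1 := ⟨s - 1, by have := hs.pos; omega⟩
  have hk1 := hs.one_lt
  have hk2 : s - 1 = k := by omega
  rw [hk2] at hdc
  have h5 : s * s - 1 = (k + 2) * k := by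
    rw [hk]
    have : (k + 1) * (k + 1) = (k + 2) * k + 1 := by ring
    omega
  rw [h5] at hdc
  have hk0 : 0 < k := by omega
  have h6 := Nat.eq_of_mul_eq_mul_right hk0 hdc
  omega

/-- the number of normalised elements of prime norm -/
theorem card_X {s : ℕ} (hs : s.Prime) (hs22 : s.Coprime 22) : (X s).card = s + 1 := by
  classical
  have : Fact s.Prime := ⟨hs⟩
  have hs2 : s ≠ 2 := by rintro rfl; revert hs22; decide
  have h2 : (2 : ZMod s) ≠ 0 := by
    have : ((2 : ℕ) : ZMod s) ≠ 0 := by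
      rw [Ne, ZMod.natCast_eq_zero_iff]
      intro h
      exact hs2 ((Nat.prime_dvd_prime_iff_eq hs Nat.prime_two).1 h)
    exact_mod_cast this
  obtain ⟨a, b, ha, hb⟩ : ∃ a b : ZMod s, a ^ 2 + b ^ 2 = -1 ∧ b ≠ 0 := by
    obtain ⟨a, b, hab⟩ := ZMod.sq_add_sq s (-1)
    by_cases hb : b = 0
    · refine ⟨b, a, by rw [add_comm]; exact hab, ?_⟩
      rintro rfl
      rw [hb] at hab
      simp at hab
    · exact ⟨a, b, hab, hb⟩
  refine card_X_aux (F := ZMod s) hs hs22 (Int.castRingHom (ZMod s)) ?_ ?_ (ZMod.card s) a b 2⁻¹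
    ha hb (mul_inv_cancel₀ h2)
  · exact ZMod.intCast_surjective
  · intro n
    rw [Int.coe_castRingHom, ZMod.intCast_zmod_eq_zero_iff_dvd]

end Pool.Agent.CycSyl
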