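import Pool.Agent.CycSyl.Act

/-!
The class number divides the size of invariant sets.
-/

set_option autoImplicit false

namespace Pool.Agent.CycSyl

open Hz

theorem dvd_card_of_action {G C X : Type*} [Group G] [Finite G] [CommGroup C] (π : G →* C)
    (hπ : Function.Surjective π) [MulAction G X] [Finite X]
    (hst : ∀ (g : G) (x : X), g • x = x → π g = 1) : Nat.card C ∣ Nat.card X := by
  classical
  have horb : ∀ x : X, Nat.card C ∣ Nat.card (MulAction.orbit G x) := by
    intro x
    have h1 : Nat.card (MulAction.orbit G x) * Nat.card (MulAction.stabilizer G x) = Nat.card G := by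
      rw [← Nat.card_prod]
      exact Nat.card_congr (MulAction.orbitProdStabilizerEquivGroup G x)
    have h2 : Nat.card G = Nat.card C * Nat.card π.ker := by
      rw [Subgroup.card_eq_card_quotient_mul_card_subgroup π.ker]
      congr 1
      exact Nat.card_congr (QuotientGroup.quotientKerEquivOfSurjective π hπ).toEquiv
    have h3 : Nat.card (MulAction.stabilizer G x) ∣ Nat.card π.ker := by
      apply Subgroup.card_dvd_of_le
      intro g hg
      rw [MonoidHom.mem_ker]
      exact hst g x hg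
    obtain ⟨j, hj⟩ := h3
    rw [hj] at h2
    have h4 : Nat.card (MulAction.stabilizer G x) ≠ 0 := Nat.card_pos.ne'
    refine ⟨j, ?_⟩
    apply Nat.eq_of_mul_eq_mul_right (Nat.pos_of_ne_zero h4)
    rw [h1, h2]; ring
  have : Finite (MulAction.orbitRel.Quotient G X) := by
    unfold MulAction.orbitRel.Quotient
    infer_instance
  have := Fintype.ofFinite (MulAction.orbitRel.Quotient G X)
  rw [Nat.card_congr (MulAction.selfEquivSigmaOrbits G X), Nat.card_sigma]
  exact Finset.dvd_sum (fun ω _ => horb _)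

namespace QData

variable {O : Type*} [CommRing O] [IsDedekindDomain O] {t m : ℤ} (D : QData O t m)

theorem Cmon_le : D.Cmon ≤ nonZeroDivisors (Ideal O) := by
  intro I hI
  rw [mem_nonZeroDivisors_iff_ne_zero]
  rintro rfl
  obtain ⟨n, hn, hn'⟩ := D.exists_int hI
  have h0 : (n : O) = 0 := by simpa using hn
  have h1 : n = 0 := D.int_inj (by rw [h0]; simp)
  rw [h1] at hn'
  have := (D.cop22_of (D.coprime_of_dvd_sub_one hn')).isUnit_of_dvd' (dvd_zero (22 : ℤ)) dvd_rfl
  rw [Int.isUnit_iff] at this; omega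

/-- the class of an ideal prime to the modulus -/
noncomputable def cls : D.Cmon →* ClassGroup O :=
  (ClassGroup.mk0 (R := O)).comp (Submonoid.inclusion D.Cmon_le)

theorem cls_eq_one {I : D.Cmon} : D.cls I = 1 ↔ (I.1).IsPrincipal :=
  ClassGroup.mk0_eq_one_iff (D.Cmon_le I.2)

theorem cls_surjective : Function.Surjective D.cls := by
  intro C
  obtain ⟨⟨A, hA⟩, hAC⟩ := ClassGroup.mk0_surjective C⁻¹
  have hA0 : A ≠ 0 := mem_nonZeroDivisors_iff_ne_zero.1 hA
  have hF : (D.F : O) ≠ 0 := D.int_ne D.F_ne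
  have hF' : (Ideal.span {(D.F : O)} : Ideal O) ≠ 0 := by
    intro h; exact hF (Ideal.span_singleton_eq_bot.1 h)
  obtain ⟨a, ha⟩ := IsDedekindDomain.exists_sup_span_eq
    (I := A * Ideal.span {(D.F : O)}) (J := A) Ideal.mul_le_left (mul_ne_zero hA0 hF')
  have h1 : Ideal.span {a} ≤ A := by
    conv_rhs => rw [← ha]
    exact le_sup_right
  rw [← Ideal.dvd_iff_le] at h1
  obtain ⟨B, hB⟩ := h1
  have h2 : A * (Ideal.span {(D.F : O)} ⊔ B) = A * 1 := by
    rw [mul_one, ← Ideal.add_eq_sup, mul_add, ← hB, Ideal.add_eq_sup, ha]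
  have h3 : Ideal.span {(D.F : O)} ⊔ B = 1 := mul_left_cancel₀ hA0 h2
  have hBm : B ∈ D.Cmon := by
    rw [mem_Cmon, Ideal.isCoprime_iff_sup_eq, sup_comm, h3, Ideal.one_eq_top]
  refine ⟨⟨B, hBm⟩, ?_⟩
  have hB0 : B ∈ nonZeroDivisors (Ideal O) := D.Cmon_le hBm
  have h4 : ClassGroup.mk0 (R := O) ⟨A, hA⟩ * ClassGroup.mk0 ⟨B, hB0⟩ = 1 := by
    rw [← map_mul]
    have : (⟨A, hA⟩ * ⟨B, hB0⟩ : nonZeroDivisors (Ideal O)) =
        ⟨A * B, mul_mem hA hB0⟩ := rfl
    rw [this, ClassGroup.mk0_eq_one_iff]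
    rw [← hB]
    exact ⟨a, rfl⟩
  have h5 : ClassGroup.mk0 (R := O) ⟨B, hB0⟩ = C := by
    rw [hAC] at h4
    have := eq_inv_of_mul_eq_one_right h4
    rw [this, inv_inv]
  exact h5

section

variable {E : Finset (Hz ℤ)} (hE : ESet E t m)

theorem act_inj (I : D.Cmon) : Function.Injective (D.act hE I) := by
  obtain ⟨J, n, hn, hIJ⟩ := D.exists_inv I
  intro x y h
  have key : ∀ x, D.act hE J (D.act hE I x) = x := by
    intro x
    rw [← D.act_mul hE]
    have hmem : Ideal.span {(n : O)} ∈ D.Cmon := by rw [← hIJ]; exact (I * J).2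
    have h1 := D.act_int hE hn hmem x
    have h2 : (⟨Ideal.span {(n : O)}, hmem⟩ : D.Cmon) = I * J := Subtype.ext hIJ.symm
    rwa [h2] at h1
  rw [← key x, ← key y, h]

/-- the permutation of an ideal -/
noncomputable def perm : D.Cmon →* Equiv.Perm {x // x ∈ E} where
  toFun I := Equiv.ofBijective (D.act hE I) (Finite.injective_iff_bijective.1 (D.act_inj hE I))
  map_one' := by
    apply Equiv.ext
    intro x
    exact D.act_one hE x
  map_mul' I J := by
    apply Equiv.ext
    intro x
    show D.act hE (I * J) x = D.act hE I (D.act hE J x)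
    rw [mul_comm, D.act_mul hE]

/-- the image group -/
noncomputable def grp : Subgroup (Equiv.Perm {x // x ∈ E} × ClassGroup O) where
  carrier := Set.range ((D.perm hE).prod D.cls)
  one_mem' := ⟨1, map_one _⟩
  mul_mem' := by
    rintro _ _ ⟨I, rfl⟩ ⟨J, rfl⟩
    exact ⟨I * J, map_mul _ _ _⟩
  inv_mem' := by
    rintro _ ⟨I, rfl⟩
    obtain ⟨J, n, hn, hIJ⟩ := D.exists_inv I
    refine ⟨J, ?_⟩
    apply eq_inv_of_mul_eq_one_right
    rw [← map_mul]
    have hmem : Ideal.span {(n : O)} ∈ D.Cmon := by rw [← hIJ]; exact (I * J).2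
    have h2 : (⟨Ideal.span {(n : O)}, hmem⟩ : D.Cmon) = I * J := Subtype.ext hIJ.symm
    rw [← h2]
    apply Prod.ext
    · apply Equiv.ext
      intro x
      exact D.act_int hE hn hmem x
    · show D.cls _ = 1
      rw [D.cls_eq_one]
      exact ⟨(n : O), rfl⟩

include D hE in
/-- the class number divides the size of every admissible set -/
theorem card_dvd [Finite (ClassGroup O)] : Nat.card (ClassGroup O) ∣ E.card := by
  classical
  let G := D.grp hE
  let π : G →* ClassGroup O := (MonoidHom.snd _ _).comp G.subtype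
  let f1 : G →* Equiv.Perm {x // x ∈ E} := (MonoidHom.fst _ _).comp G.subtype
  letI : MulAction G {x // x ∈ E} := MulAction.compHom _ f1
  have h := dvd_card_of_action (X := {x // x ∈ E}) π ?_ ?_
  · simpa using h
  · intro C
    obtain ⟨I, hI⟩ := D.cls_surjective C
    exact ⟨⟨((D.perm hE).prod D.cls) I, ⟨I, rfl⟩⟩, hI⟩
  · rintro ⟨g, I, hI⟩ x hx
    have h1 : (D.perm hE I) x = x := by
      have h2 : g.1 x = x := hx
      rw [← hI] at h2
      exact h2
    obtain ⟨b, hb⟩ := D.stab_principal hE I x h1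
    show g.2 = 1
    rw [← hI]
    show D.cls I = 1
    rw [D.cls_eq_one, hb]
    exact ⟨b, rfl⟩

end

end QData

end Pool.Agent.CycSyl
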