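import Pool.Agent.CycSyl.Label

/-!
The group ring elements attached to the primes 3 and 17, and the nonvanishing of a coefficient.
-/

set_option autoImplicit false

namespace Pool.Agent.CycSyl

open Hz Finset

theorem X17_eq : X 17 = {⟨3, 5, 1, -6⟩,
    ⟨1, -3, 1, -2⟩,
    ⟨-2, 3, -2, 0⟩,
    ⟨0, 4, 1, 0⟩,
    ⟨2, 3, -2, 0⟩,
    ⟨-4, 1, -2, 1⟩,
    ⟨3, 1, -2, 1⟩,
    ⟨-5, -3, -2, 3⟩,
    ⟨-4, 0, -4, 3⟩,
    ⟨1, 0, -4, 3⟩,
    ⟨2, -3, -2, 3⟩,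
    ⟨-5, -2, -4, 4⟩,
    ⟨-4, -5, -2, 4⟩,
    ⟨-2, -4, 1, 4⟩,
    ⟨0, -5, -2, 4⟩,
    ⟨1, -2, -4, 4⟩,
    ⟨-5, -4, -4, 5⟩,
    ⟨0, -4, -4, 5⟩} := by
  symm
  apply Finset.eq_of_subset_of_card_le
  · intro x hx
    rw [mem_X]
    simp only [Finset.mem_insert, Finset.mem_singleton] at hx
    rcases hx with rfl | rfl | rfl | rfl | rfl | rfl | rfl | rfl | rfl | rfl | rfl | rfl | rfl | rfl | rfl | rfl | rfl | rfl <;> decide
  · rw [card_X (by norm_num) (by decide)]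
    decide

open AddMonoidAlgebra in
theorem T3_eq : T L5.toWt (fun _ => True) 3 =
    2 + single (1 : ZMod 5) (1 : ℤ) + single (4 : ZMod 5) (1 : ℤ) := by
  classical
  rw [T_def, Finset.filter_true, X3_eq]
  rw [Finset.sum_insert (by decide), Finset.sum_insert (by decide), Finset.sum_insert (by decide),
    Finset.sum_singleton]
  have e : ∀ x, L5.toWt.g x = single (κ5 x) 1 := fun _ => rfl
  simp only [e]
  have f1 : κ5 ⟨2, 1, 2, -2⟩ = 4 := by decide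
  have f2 : κ5 ⟨0, 2, 0, -1⟩ = 0 := by decide
  have f3 : κ5 ⟨-1, -2, 0, 1⟩ = 0 := by decide
  have f4 : κ5 ⟨0, -1, -2, 2⟩ = 1 := by decide
  rw [f1, f2, f3, f4, ← AddMonoidAlgebra.one_def]
  ring

open AddMonoidAlgebra in
theorem T17_eq : T L3.toWt (fun _ => True) 17 =
    10 + 4 * single (1 : ZMod 3) (1 : ℤ) + 4 * single (2 : ZMod 3) (1 : ℤ) := by
  classical
  rw [T_def, Finset.filter_true, X17_eq]
  rw [Finset.sum_insert (by decide), Finset.sum_insert (by decide), Finset.sum_insert (by decide), Finset.sum_insert (by decide), Finset.sum_insert (by decide), Finset.sum_insert (by decide), Finset.sum_insert (by decide), Finset.sum_insert (by decide), Finset.sum_insert (by decide), Finset.sum_insert (by decide), Finset.sum_insert (by decide), Finset.sum_insert (by decide), Finset.sum_insert (by decide), Finset.sum_insert (by decide), Finset.sum_insert (by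 decide), Finset.sum_insert (by decide), Finset.sum_insert (by decide),
    Finset.sum_singleton]
  have e : ∀ x, L3.toWt.g x = single (κ3 x) 1 := fun _ => rfl
  simp only [e]
  have f0 : κ3 ⟨3, 5, 1, -6⟩ = 0 := by decide
  have f1 : κ3 ⟨1, -3, 1, -2⟩ = 0 := by decide
  have f2 : κ3 ⟨-2, 3, -2, 0⟩ = 0 := by decide
  have f3 : κ3 ⟨0, 4, 1, 0⟩ = 0 := by decide
  have f4 : κ3 ⟨2, 3, -2, 0⟩ = 0 := by decide
  have f5 : κ3 ⟨-4, 1, -2, 1⟩ = 2 := by decide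
  have f6 : κ3 ⟨3, 1, -2, 1⟩ = 1 := by decide
  have f7 : κ3 ⟨-5, -3, -2, 3⟩ = 1 := by decide
  have f8 : κ3 ⟨-4, 0, -4, 3⟩ = 1 := by decide
  have f9 : κ3 ⟨1, 0, -4, 3⟩ = 2 := by decide
  have f10 : κ3 ⟨2, -3, -2, 3⟩ = 2 := by decide
  have f11 : κ3 ⟨-5, -2, -4, 4⟩ = 0 := by decide
  have f12 : κ3 ⟨-4, -5, -2, 4⟩ = 0 := by decide
  have f13 : κ3 ⟨-2, -4, 1, 4⟩ = 0 := by decide
  have f14 : κ3 ⟨0, -5, -2, 4⟩ = 0 := by decide
  have f15 : κ3 ⟨1, -2, -4, 4⟩ = 0 := by decide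
  have f16 : κ3 ⟨-5, -4, -4, 5⟩ = 2 := by decide
  have f17 : κ3 ⟨0, -4, -4, 5⟩ = 1 := by decide
  rw [f0, f1, f2, f3, f4, f5, f6, f7, f8, f9, f10, f11, f12, f13, f14, f15, f16, f17,
    ← AddMonoidAlgebra.one_def]
  ring

theorem poly5 {A : Type*} [CommRing A] (g : A) (hg : g ^ 5 = 1) :
    (2 + g + g ^ 4) ^ 5 - 15 * (2 + g + g ^ 4) ^ 3 + 45 * (2 + g + g ^ 4) =
      ((244 : ℤ) : A) + 5 * (8 * (g + g ^ 4 - 2) + 12 * (g ^ 2 + g ^ 3 - 2)) := by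
  push_cast
  linear_combination (42 * g ^ 0 + 95 * g ^ 1 + 70 * g ^ 2 + 35 * g ^ 3 + 85 * g ^ 4 + 61 * g ^ 5
    + 20 * g ^ 6 + 30 * g ^ 7 + 40 * g ^ 8 + 10 * g ^ 9 + 1 * g ^ 10 + 10 * g ^ 11 + 5 * g ^ 12
    + 1 * g ^ 15) * hg

theorem poly3 {A : Type*} [CommRing A] (g : A) (hg : g ^ 3 = 1) :
    (10 + 4 * g + 4 * g ^ 2) ^ 3 - 51 * (10 + 4 * g + 4 * g ^ 2) =
      ((4914 : ℤ) : A) + 3 * (556 * (g + g ^ 2 - 2)) := by
  push_cast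
  linear_combination (1088 * g ^ 0 + 672 * g ^ 1 + 192 * g ^ 2 + 64 * g ^ 3) * hg

/-- coefficient map -/
noncomputable def cf {p : ℕ} (c : ZMod p) : AddMonoidAlgebra ℤ (ZMod p) →+ ℤ where
  toFun x := x.coeff c
  map_zero' := by simp
  map_add' x y := by simp

theorem cf_int_mul {p : ℕ} (c : ZMod p) (n : ℤ) (x : AddMonoidAlgebra ℤ (ZMod p)) :
    cf c ((n : AddMonoidAlgebra ℤ (ZMod p)) * x) = n * cf c x := by
  rw [← zsmul_eq_mul, map_zsmul, smul_eq_mul]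

theorem cf_int {p : ℕ} (c : ZMod p) (hc : c ≠ 0) (n : ℤ) :
    cf c ((n : AddMonoidAlgebra ℤ (ZMod p))) = 0 := by
  have h := cf_int_mul c n 1
  rw [mul_one] at h
  rw [h, AddMonoidAlgebra.one_def]
  have : cf c (AddMonoidAlgebra.single (0 : ZMod p) (1 : ℤ)) = 0 := by
    show (AddMonoidAlgebra.single (0 : ZMod p) (1 : ℤ)).coeff c = 0
    rw [AddMonoidAlgebra.coeff_single]
    exact Finsupp.single_eq_of_ne hc
  rw [this, mul_zero]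

theorem coef_aux {p : ℕ} (c : ZMod p) (hc : c ≠ 0) (v : ℕ) (X Y : ℤ)
    (w0 e f Va Vb : AddMonoidAlgebra ℤ (ZMod p))
    (ha : Va = (X : AddMonoidAlgebra ℤ (ZMod p)) + (p : AddMonoidAlgebra ℤ (ZMod p)) ^ (v + 1) *
      (w0 + (p : AddMonoidAlgebra ℤ (ZMod p)) * e))
    (hb : Vb = (Y : AddMonoidAlgebra ℤ (ZMod p)) +
      (p : AddMonoidAlgebra ℤ (ZMod p)) ^ (v + 2) * f) :
    ∃ k : ℤ, cf c (Va * Vb) = (p : ℤ) ^ (v + 1) * (Y * cf c w0 + p * k) := by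
  have h : Va * Vb = ((X * Y : ℤ) : AddMonoidAlgebra ℤ (ZMod p)) +
      (((p : ℤ) ^ (v + 1) * Y : ℤ) : AddMonoidAlgebra ℤ (ZMod p)) * w0 +
      (((p : ℤ) ^ (v + 2) : ℤ) : AddMonoidAlgebra ℤ (ZMod p)) * (X * f + Y * e +
        (p : AddMonoidAlgebra ℤ (ZMod p)) ^ (v + 1) * (w0 + p * e) * f) := by
    rw [ha, hb]; push_cast; ring
  refine ⟨cf c (X * f + Y * e +
        (p : AddMonoidAlgebra ℤ (ZMod p)) ^ (v + 1) * (w0 + p * e) * f), ?_⟩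
  rw [h, map_add, map_add, cf_int c hc, cf_int_mul, cf_int_mul]
  ring

theorem coef_ndvd {p : ℕ} (hp : p.Prime) (v : ℕ) (Y w k : ℤ) (hYw : ¬ (p : ℤ) ∣ Y * w) :
    ¬ (p : ℤ) ^ (v + 2) ∣ (p : ℤ) ^ (v + 1) * (Y * w + p * k) := by
  intro h
  rw [pow_succ (p : ℤ) (v + 1)] at h
  have hp0 : (p : ℤ) ^ (v + 1) ≠ 0 := pow_ne_zero _ (by exact_mod_cast hp.ne_zero)
  have h1 := (mul_dvd_mul_iff_left hp0).1 h
  apply hYw
  have := dvd_sub h1 (dvd_mul_right (p : ℤ) k)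
  simpa using this

theorem pow_single {p : ℕ} (c : ZMod p) (n : ℕ) :
    (AddMonoidAlgebra.single c (1 : ℤ)) ^ n = AddMonoidAlgebra.single (n • c) (1 : ℤ) := by
  rw [AddMonoidAlgebra.single_pow, one_pow]

/-- `T(q)^p` modulo `p` -/
theorem T_pow {p : ℕ} (hp : p.Prime) (L : Lab p) (n : ℕ) :
    ∃ e, T L.toWt (fun _ => True) n ^ p = (((X n).card : ℤ) : AddMonoidAlgebra ℤ (ZMod p)) +
      (p : AddMonoidAlgebra ℤ (ZMod p)) * e := by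
  classical
  obtain ⟨e, he⟩ := sum_pow_prime hp (X n) (fun x => L.toWt.g x)
  refine ⟨e, ?_⟩
  rw [T_def, Finset.filter_true, he]
  congr 1
  have : ∀ x ∈ X n, L.toWt.g x ^ p = 1 := by
    intro x _
    show (AddMonoidAlgebra.single (L.κ x) (1 : ℤ)) ^ p = 1
    rw [pow_single, AddMonoidAlgebra.one_def]
    congr 1
    rw [nsmul_eq_mul, ZMod.natCast_self, zero_mul]
  rw [Finset.sum_congr rfl this, Finset.sum_const, nsmul_eq_mul, mul_one]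
  push_cast
  rfl

theorem cf_single {p : ℕ} (c c' : ZMod p) :
    cf c (AddMonoidAlgebra.single c' (1 : ℤ)) = if c' = c then 1 else 0 := by
  show (AddMonoidAlgebra.single c' (1 : ℤ)).coeff c = _
  rw [AddMonoidAlgebra.coeff_single, Finsupp.single_apply]

open AddMonoidAlgebra in
/-- p = 5: a coefficient which is not divisible by `5^(v+2)`. -/
theorem coef5 (v : ℕ) {q : ℕ} (hq : q.Prime) (hq22 : q.Coprime 22) (hq5 : q % 5 = 1) :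
    ¬ (5 : ℤ) ^ (v + 2) ∣ cf (1 : ZMod 5) (Vs (T L5.toWt (fun _ => True) 3)
      (3 : AddMonoidAlgebra ℤ (ZMod 5)) (5 ^ (v + 1)) *
      Vs (T L5.toWt (fun _ => True) q) ((q : ℤ) : AddMonoidAlgebra ℤ (ZMod 5)) (5 ^ (v + 2))) := by
  have hg5 : (single (1 : ZMod 5) (1 : ℤ)) ^ 5 = (1 : AddMonoidAlgebra ℤ (ZMod 5)) := by
    rw [pow_single, AddMonoidAlgebra.one_def]; congr 1
  have hg4 : (single (4 : ZMod 5) (1 : ℤ)) = (single (1 : ZMod 5) (1 : ℤ)) ^ 4 := by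
    rw [pow_single]; congr 1
  have hg2 : (single (1 : ZMod 5) (1 : ℤ)) ^ 2 = single (2 : ZMod 5) (1 : ℤ) := by
    rw [pow_single]; congr 1
  have hg3 : (single (1 : ZMod 5) (1 : ℤ)) ^ 3 = single (3 : ZMod 5) (1 : ℤ) := by
    rw [pow_single]; congr 1
  obtain ⟨X, e, hX, _⟩ := A5 (2 + single (1 : ZMod 5) (1 : ℤ) + (single (1 : ZMod 5) (1 : ℤ)) ^ 4)
    _ 244 (by decide) (poly5 _ hg5) v
  obtain ⟨e0, he0⟩ := T_pow (by norm_num) L5 q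
  obtain ⟨Y, f, hY, hf⟩ := B5 (T L5.toWt (fun _ => True) q) (q : ℤ) e0
    (((CycSyl.X q).card : ℕ) : ℤ) (by
      rw [card_X hq hq22]
      have : ((q + 1 : ℕ) : ℤ) % 5 = 2 := by omega
      exact this) (by rw [he0]; norm_num) (v + 1)
  obtain ⟨w0, hw0⟩ : ∃ w0 : AddMonoidAlgebra ℤ (ZMod 5), w0 =
      8 * (single (1 : ZMod 5) (1 : ℤ) + single (1 : ZMod 5) (1 : ℤ) ^ 4 - 2)
      + 12 * (single (1 : ZMod 5) (1 : ℤ) ^ 2 + single (1 : ZMod 5) (1 : ℤ) ^ 3 - 2) := ⟨_, rfl⟩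
  rw [← hw0] at hX
  rw [T3_eq, hg4]
  obtain ⟨k, hk⟩ := coef_aux (p := 5) (1 : ZMod 5) (by decide) v X Y w0 e f
    (Vs (2 + single (1 : ZMod 5) (1 : ℤ) + (single (1 : ZMod 5) (1 : ℤ)) ^ 4)
      (3 : AddMonoidAlgebra ℤ (ZMod 5)) (5 ^ (v + 1)))
    (Vs (T L5.toWt (fun _ => True) q) ((q : ℤ) : AddMonoidAlgebra ℤ (ZMod 5)) (5 ^ (v + 2)))
    (by rw [hX]; norm_num) (by rw [hf]; norm_num)
  rw [hk]
  have hw : cf (1 : ZMod 5) w0 = 8 := by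
    have h1 : w0 = ((8 : ℤ) : AddMonoidAlgebra ℤ (ZMod 5)) * single (1 : ZMod 5) (1 : ℤ) +
        ((8 : ℤ) : AddMonoidAlgebra ℤ (ZMod 5)) * single (4 : ZMod 5) (1 : ℤ) +
        ((12 : ℤ) : AddMonoidAlgebra ℤ (ZMod 5)) * single (2 : ZMod 5) (1 : ℤ) +
        ((12 : ℤ) : AddMonoidAlgebra ℤ (ZMod 5)) * single (3 : ZMod 5) (1 : ℤ) +
        ((-40 : ℤ) : AddMonoidAlgebra ℤ (ZMod 5)) := by
      rw [hw0, ← hg4, hg2, hg3]; push_cast; ring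
    rw [h1]
    simp only [map_add, cf_int_mul, cf_single, cf_int (1 : ZMod 5) (by decide)]
    have h2 : ¬ ((4 : ZMod 5) = 1) := by decide
    have h3 : ¬ ((2 : ZMod 5) = 1) := by decide
    have h4 : ¬ ((3 : ZMod 5) = 1) := by decide
    simp [h2, h3, h4]
  rw [hw]
  apply coef_ndvd (p := 5) (by norm_num) v Y 8 k
  intro h
  have h1 : Y % 5 = 2 := hY
  push_cast at h
  omega

open AddMonoidAlgebra in
/-- p = 3: a coefficient which is not divisible by `3^(v+2)`. -/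
theorem coef3 (v : ℕ) {q : ℕ} (hq : q.Prime) (hq22 : q.Coprime 22) (hq3 : q % 3 = 1) :
    ¬ (3 : ℤ) ^ (v + 2) ∣ cf (1 : ZMod 3) (Vs (T L3.toWt (fun _ => True) 17)
      (17 : AddMonoidAlgebra ℤ (ZMod 3)) (3 ^ (v + 1)) *
      Vs (T L3.toWt (fun _ => True) q) ((q : ℤ) : AddMonoidAlgebra ℤ (ZMod 3)) (3 ^ (v + 2))) := by
  have hg5 : (single (1 : ZMod 3) (1 : ℤ)) ^ 3 = (1 : AddMonoidAlgebra ℤ (ZMod 3)) := by
    rw [pow_single, AddMonoidAlgebra.one_def]; congr 1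
  have hg4 : (single (2 : ZMod 3) (1 : ℤ)) = (single (1 : ZMod 3) (1 : ℤ)) ^ 2 := by
    rw [pow_single]; congr 1
  obtain ⟨X, e, hX, _⟩ := A3 (10 + 4 * single (1 : ZMod 3) (1 : ℤ) +
    4 * (single (1 : ZMod 3) (1 : ℤ)) ^ 2) _ 4914 (by decide) (poly3 _ hg5) v
  obtain ⟨e0, he0⟩ := T_pow (by norm_num) L3 q
  obtain ⟨Y, f, hY, hf⟩ := B3 (T L3.toWt (fun _ => True) q) (q : ℤ) e0
    (((CycSyl.X q).card : ℕ) : ℤ) (by
      rw [card_X hq hq22]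
      have : ((q + 1 : ℕ) : ℤ) % 3 = 2 := by omega
      exact this) (by rw [he0]; norm_num) (v + 1)
  obtain ⟨w0, hw0⟩ : ∃ w0 : AddMonoidAlgebra ℤ (ZMod 3), w0 =
      556 * (single (1 : ZMod 3) (1 : ℤ) + single (1 : ZMod 3) (1 : ℤ) ^ 2 - 2) := ⟨_, rfl⟩
  rw [← hw0] at hX
  rw [T17_eq, hg4]
  obtain ⟨k, hk⟩ := coef_aux (p := 3) (1 : ZMod 3) (by decide) v X Y w0 e f
    (Vs (10 + 4 * single (1 : ZMod 3) (1 : ℤ) + 4 * (single (1 : ZMod 3) (1 : ℤ)) ^ 2)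
      (17 : AddMonoidAlgebra ℤ (ZMod 3)) (3 ^ (v + 1)))
    (Vs (T L3.toWt (fun _ => True) q) ((q : ℤ) : AddMonoidAlgebra ℤ (ZMod 3)) (3 ^ (v + 2)))
    (by rw [hX]; norm_num) (by rw [hf]; norm_num)
  rw [hk]
  have hw : cf (1 : ZMod 3) w0 = 556 := by
    have h1 : w0 = ((556 : ℤ) : AddMonoidAlgebra ℤ (ZMod 3)) * single (1 : ZMod 3) (1 : ℤ) +
        ((556 : ℤ) : AddMonoidAlgebra ℤ (ZMod 3)) * single (2 : ZMod 3) (1 : ℤ) +
        ((-1112 : ℤ) : AddMonoidAlgebra ℤ (ZMod 3)) := by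
      rw [hw0, ← hg4]; push_cast; ring
    rw [h1]
    simp only [map_add, cf_int_mul, cf_single, cf_int (1 : ZMod 3) (by decide)]
    have h2 : ¬ ((2 : ZMod 3) = 1) := by decide
    simp [h2]
  rw [hw]
  apply coef_ndvd (p := 3) (by norm_num) v Y 556 k
  intro h
  have h1 : Y % 3 = 2 := hY
  push_cast at h
  omega

end Pool.Agent.CycSyl
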