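import Mathlib

/-!
The sequence `V_n` and congruences for it modulo powers of 3 and 5.
-/

set_option autoImplicit false

namespace Pool.Agent.CycSyl

variable {A : Type*} [CommRing A]

/-- the Dickson-type sequence -/
def Vs (a r : A) : ℕ → A
  | 0 => 2
  | 1 => a
  | (n + 2) => a * Vs a r (n + 1) - r * Vs a r n

theorem Vs_zero (a r : A) : Vs a r 0 = 2 := rfl
theorem Vs_one (a r : A) : Vs a r 1 = a := rfl
theorem Vs_add_two (a r : A) (n : ℕ) : Vs a r (n + 2) = a * Vs a r (n + 1) - r * Vs a r n := rfl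

theorem Vs_add (a r : A) : ∀ k n : ℕ, Vs a r (n + 2 * k) = Vs a r (n + k) * Vs a r k -
    r ^ k * Vs a r n := by
  intro k
  induction k using Nat.twoStepInduction with
  | zero => intro n; simp [Vs_zero]; ring
  | one => intro n; simp only [mul_one, Vs_add_two, Vs_one]; ring
  | more k ih1 ih2 =>
    intro n
    have h1 := ih1 (n + 2)
    have h2 := ih2 (n + 1)
    have e1 : n + 2 * (k + 2) = (n + 2 * k + 2) + 2 := by ring
    have e2 : n + (k + 2) = n + k + 2 := by ring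
    have e3 : n + 2 + 2 * k = n + 2 * k + 2 := by ring
    have e4 : n + 2 + k = n + k + 2 := by ring
    have e5 : n + 1 + 2 * (k + 1) = n + 2 * k + 2 + 1 := by ring
    have e6 : n + 1 + (k + 1) = n + k + 2 := by ring
    rw [e3, e4] at h1
    rw [e5, e6] at h2
    rw [e1, e2, Vs_add_two a r (n + 2 * k + 2), Vs_add_two a r k, h1, h2, Vs_add_two a r n]
    ring

theorem Vs_three (a r : A) (k : ℕ) :
    Vs a r (3 * k) = Vs a r k ^ 3 - 3 * r ^ k * Vs a r k := by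
  have h2 := Vs_add a r k 0
  have h3 := Vs_add a r k k
  rw [zero_add, zero_add, Vs_zero] at h2
  have e : k + 2 * k = 3 * k := by ring
  have e' : k + k = 2 * k := by ring
  rw [e, e', h2] at h3
  rw [h3]; ring

theorem Vs_five (a r : A) (k : ℕ) :
    Vs a r (5 * k) = Vs a r k ^ 5 - 5 * r ^ k * Vs a r k ^ 3 + 5 * (r ^ k) ^ 2 * Vs a r k := by
  have h2 := Vs_add a r k 0
  have h3 := Vs_three a r k
  have h4 := Vs_add a r k (2 * k)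
  have h5 := Vs_add a r k (3 * k)
  rw [zero_add, zero_add, Vs_zero] at h2
  have e : 2 * k + 2 * k = 4 * k := by ring
  have e' : 2 * k + k = 3 * k := by ring
  have f : 3 * k + 2 * k = 5 * k := by ring
  have f' : 3 * k + k = 4 * k := by ring
  rw [e, e', h2, h3] at h4
  rw [f, f', h3, h4] at h5
  rw [h5]; ring

/-- a sequence with the Hecke recursion -/
theorem seq_V (a r : A) (t : ℕ → A) (h1 : t 1 = a * t 0)
    (h2 : ∀ k, t (k + 2) = a * t (k + 1) - r * t k) :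
    ∀ k, t (k + 2) - r * t k = Vs a r (k + 2) * t 0 := by
  intro k
  induction k using Nat.twoStepInduction with
  | zero => rw [h2 0, h1]; simp only [Vs_add_two, zero_add, Vs_one, Vs_zero]; ring
  | one =>
    rw [h2 1, h2 0, h1]
    simp only [Vs_add_two, zero_add, Vs_one, Vs_zero]; ring
  | more k ih1 ih2 =>
    rw [Vs_add_two a r (k + 2)]
    have e1 := h2 (k + 2)
    have e2 := h2 k
    have e3 : k + 1 + 2 = k + 2 + 1 := by ring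
    rw [e3] at ih2
    linear_combination e1 - r * e2 + a * ih2 - r * ih1

/-- Frobenius for sums -/
theorem sum_pow_prime {ι : Type*} {p : ℕ} (hp : p.Prime) (s : Finset ι) (f : ι → A) :
    ∃ e : A, (∑ i ∈ s, f i) ^ p = ∑ i ∈ s, f i ^ p + p * e := by
  classical
  induction s using Finset.induction_on with
  | empty => exact ⟨0, by simp [hp.ne_zero]⟩
  | insert i s hi ih =>
    obtain ⟨e, he⟩ := ih
    obtain ⟨r, hr⟩ := exists_add_pow_prime_eq hp (f i) (∑ i ∈ s, f i)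
    refine ⟨e + f i * (∑ i ∈ s, f i) * r, ?_⟩
    rw [Finset.sum_insert hi, hr, he, Finset.sum_insert hi]
    ring

/-! ### p = 5 -/

theorem B5 (b : A) (r : ℤ) (e0 : A) (c : ℤ) (hc : c ≡ 2 [ZMOD 5])
    (h0 : b ^ 5 = (c : A) + 5 * e0) (w : ℕ) :
    ∃ (Y : ℤ) (e : A), Y ≡ 2 [ZMOD 5] ∧ Vs b (r : A) (5 ^ (w + 1)) = (Y : A) + 5 ^ (w + 1) * e := by
  induction w with
  | zero =>
    refine ⟨c, e0 - r * b ^ 3 + r ^ 2 * b, hc, ?_⟩
    have := Vs_five b (r : A) 1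
    rw [Vs_one] at this
    rw [zero_add, pow_one, show (5 : ℕ) = 5 * 1 by norm_num, this, h0]
    ring
  | succ w ih =>
    obtain ⟨Y, e, hY, he⟩ := ih
    have h5 := Vs_five b (r : A) (5 ^ (w + 1))
    have e1 : 5 ^ (w + 1 + 1) = 5 * 5 ^ (w + 1) := by ring
    rw [e1, h5, he]
    obtain ⟨R, hR⟩ : ∃ R : ℤ, R = r ^ (5 ^ (w + 1)) := ⟨_, rfl⟩
    have hR' : (r : A) ^ (5 ^ (w + 1)) = (R : A) := by rw [hR]; push_cast; rfl
    rw [hR']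
    refine ⟨Y ^ 5 - 5 * R * Y ^ 3 + 5 * R ^ 2 * Y,
      (Y ^ 4 - 3 * R * Y ^ 2 + R ^ 2) * e + 5 ^ (w + 1) * (2 * Y ^ 3 - 3 * R * Y) * e ^ 2
      + (5 ^ (w + 1)) ^ 2 * (2 * Y ^ 2 - R) * e ^ 3 + (5 ^ (w + 1)) ^ 3 * Y * e ^ 4
      + 5 ^ w * (5 ^ (w + 1)) ^ 2 * 5 ^ (w + 1) * e ^ 5, ?_, ?_⟩
    · have h1 : Y ^ 5 ≡ 2 ^ 5 [ZMOD 5] := hY.pow 5
      have h2 : (2 : ℤ) ^ 5 ≡ 2 [ZMOD 5] := by decide
      have h3 : Y ^ 5 - 5 * R * Y ^ 3 + 5 * R ^ 2 * Y ≡ Y ^ 5 [ZMOD 5] := by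
        rw [Int.modEq_iff_dvd]
        exact ⟨R * Y ^ 3 - R ^ 2 * Y, by ring⟩
      exact h3.trans (h1.trans h2)
    · push_cast
      ring

theorem A5 (a : A) (w0 : A) (X0 : ℤ) (hX0 : X0 ≡ 4 [ZMOD 5])
    (h0 : a ^ 5 - 15 * a ^ 3 + 45 * a = (X0 : A) + 5 * w0) (v : ℕ) :
    ∃ (X : ℤ) (e : A), Vs a (3 : A) (5 ^ (v + 1)) =
      (X : A) + 5 ^ (v + 1) * (w0 + 5 * e) ∧ X ≡ 4 [ZMOD 5] := by
  induction v with
  | zero =>
    refine ⟨X0, 0, ?_, hX0⟩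
    have := Vs_five a (3 : A) 1
    rw [Vs_one] at this
    rw [zero_add, pow_one, show (5 : ℕ) = 5 * 1 by norm_num, this]
    linear_combination h0
  | succ v ih =>
    obtain ⟨X, e, he, hX⟩ := ih
    have h5 := Vs_five a (3 : A) (5 ^ (v + 1))
    have e1 : 5 ^ (v + 1 + 1) = 5 * 5 ^ (v + 1) := by ring
    rw [e1, h5, he]
    obtain ⟨R, hR⟩ : ∃ R : ℤ, R = 3 ^ (5 ^ (v + 1)) := ⟨_, rfl⟩
    have hR' : (3 : A) ^ (5 ^ (v + 1)) = (R : A) := by rw [hR]; push_cast; rfl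
    have hR3 : R ≡ 3 [ZMOD 5] := by
      rw [hR]
      have h1 : ∀ n, (3 : ℤ) ^ (5 ^ n) ≡ 3 [ZMOD 5] := by
        intro n
        induction n with
        | zero => rfl
        | succ n ih =>
          rw [pow_succ, pow_mul]
          exact (ih.pow 5).trans (by decide)
      exact h1 _
    rw [hR']
    obtain ⟨h, hh⟩ : ∃ h : ℤ, X ^ 4 - 3 * R * X ^ 2 + R ^ 2 = 1 + 5 * h := by
      have h1 : X ^ 4 - 3 * R * X ^ 2 + R ^ 2 ≡ 4 ^ 4 - 3 * 3 * 4 ^ 2 + 3 ^ 2 [ZMOD 5] := by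
        gcongr
      have h2 : (4 : ℤ) ^ 4 - 3 * 3 * 4 ^ 2 + 3 ^ 2 ≡ 1 [ZMOD 5] := by decide
      obtain ⟨k, hk⟩ := (Int.modEq_iff_dvd.1 (h1.trans h2))
      exact ⟨-k, by linear_combination -hk⟩
    have hh' : (X : A) ^ 4 - 3 * R * X ^ 2 + R ^ 2 = 1 + 5 * h := by exact_mod_cast congrArg (Int.cast : ℤ → A) hh
    refine ⟨X ^ 5 - 5 * R * X ^ 3 + 5 * R ^ 2 * X,
      e + h * (w0 + 5 * e) + 5 ^ v * (2 * X ^ 3 - 3 * R * X) * (w0 + 5 * e) ^ 2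
      + 5 ^ v * 5 ^ (v + 1) * (2 * X ^ 2 - R) * (w0 + 5 * e) ^ 3
      + 5 ^ v * (5 ^ (v + 1)) ^ 2 * X * (w0 + 5 * e) ^ 4
      + 5 ^ v * 5 ^ v * (5 ^ (v + 1)) ^ 2 * (w0 + 5 * e) ^ 5, ?_, ?_⟩
    · push_cast
      linear_combination (5 ^ (v + 2) * (w0 + 5 * e)) * hh'
    · have h1 : X ^ 5 ≡ 4 ^ 5 [ZMOD 5] := hX.pow 5
      have h2 : (4 : ℤ) ^ 5 ≡ 4 [ZMOD 5] := by decide
      have h3 : X ^ 5 - 5 * R * X ^ 3 + 5 * R ^ 2 * X ≡ X ^ 5 [ZMOD 5] := by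
        rw [Int.modEq_iff_dvd]
        exact ⟨R * X ^ 3 - R ^ 2 * X, by ring⟩
      exact h3.trans (h1.trans h2)

/-! ### p = 3 -/

theorem B3 (b : A) (r : ℤ) (e0 : A) (c : ℤ) (hc : c ≡ 2 [ZMOD 3])
    (h0 : b ^ 3 = (c : A) + 3 * e0) (w : ℕ) :
    ∃ (Y : ℤ) (e : A), Y ≡ 2 [ZMOD 3] ∧ Vs b (r : A) (3 ^ (w + 1)) = (Y : A) + 3 ^ (w + 1) * e := by
  induction w with
  | zero =>
    refine ⟨c, e0 - r * b, hc, ?_⟩
    have := Vs_three b (r : A) 1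
    rw [Vs_one] at this
    rw [zero_add, pow_one, show (3 : ℕ) = 3 * 1 by norm_num, this, h0]
    ring
  | succ w ih =>
    obtain ⟨Y, e, hY, he⟩ := ih
    have h5 := Vs_three b (r : A) (3 ^ (w + 1))
    have e1 : 3 ^ (w + 1 + 1) = 3 * 3 ^ (w + 1) := by ring
    rw [e1, h5, he]
    obtain ⟨R, hR⟩ : ∃ R : ℤ, R = r ^ (3 ^ (w + 1)) := ⟨_, rfl⟩
    have hR' : (r : A) ^ (3 ^ (w + 1)) = (R : A) := by rw [hR]; push_cast; rfl
    rw [hR']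
    refine ⟨Y ^ 3 - 3 * R * Y, (Y ^ 2 - R) * e + 3 ^ (w + 1) * Y * e ^ 2
      + 3 ^ w * 3 ^ (w + 1) * e ^ 3, ?_, ?_⟩
    · have h1 : Y ^ 3 ≡ 2 ^ 3 [ZMOD 3] := hY.pow 3
      have h2 : (2 : ℤ) ^ 3 ≡ 2 [ZMOD 3] := by decide
      have h3 : Y ^ 3 - 3 * R * Y ≡ Y ^ 3 [ZMOD 3] := by
        rw [Int.modEq_iff_dvd]
        exact ⟨R * Y, by ring⟩
      exact h3.trans (h1.trans h2)
    · push_cast
      ring

theorem A3 (a : A) (w0 : A) (X0 : ℤ) (hX0 : X0 ≡ 0 [ZMOD 3])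
    (h0 : a ^ 3 - 51 * a = (X0 : A) + 3 * w0) (v : ℕ) :
    ∃ (X : ℤ) (e : A), Vs a (17 : A) (3 ^ (v + 1)) =
      (X : A) + 3 ^ (v + 1) * (w0 + 3 * e) ∧ X ≡ 0 [ZMOD 3] := by
  induction v with
  | zero =>
    refine ⟨X0, 0, ?_, hX0⟩
    have := Vs_three a (17 : A) 1
    rw [Vs_one] at this
    rw [zero_add, pow_one, show (3 : ℕ) = 3 * 1 by norm_num, this]
    linear_combination h0
  | succ v ih =>
    obtain ⟨X, e, he, hX⟩ := ih
    have h5 := Vs_three a (17 : A) (3 ^ (v + 1))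
    have e1 : 3 ^ (v + 1 + 1) = 3 * 3 ^ (v + 1) := by ring
    rw [e1, h5, he]
    obtain ⟨R, hR⟩ : ∃ R : ℤ, R = 17 ^ (3 ^ (v + 1)) := ⟨_, rfl⟩
    have hR' : (17 : A) ^ (3 ^ (v + 1)) = (R : A) := by rw [hR]; push_cast; rfl
    have hR3 : R ≡ 2 [ZMOD 3] := by
      rw [hR]
      have h1 : ∀ n, (17 : ℤ) ^ (3 ^ n) ≡ 2 [ZMOD 3] := by
        intro n
        induction n with
        | zero => decide
        | succ n ih =>
          rw [pow_succ, pow_mul]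
          exact (ih.pow 3).trans (by decide)
      exact h1 _
    rw [hR']
    obtain ⟨h, hh⟩ : ∃ h : ℤ, X ^ 2 - R = 1 + 3 * h := by
      have h1 : X ^ 2 - R ≡ 0 ^ 2 - 2 [ZMOD 3] := by
        gcongr
      have h2 : (0 : ℤ) ^ 2 - 2 ≡ 1 [ZMOD 3] := by decide
      obtain ⟨k, hk⟩ := (Int.modEq_iff_dvd.1 (h1.trans h2))
      exact ⟨-k, by linear_combination -hk⟩
    have hh' : (X : A) ^ 2 - R = 1 + 3 * h := by exact_mod_cast congrArg (Int.cast : ℤ → A) hh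
    refine ⟨X ^ 3 - 3 * R * X,
      e + h * (w0 + 3 * e) + 3 ^ v * X * (w0 + 3 * e) ^ 2
      + 3 ^ v * 3 ^ v * (w0 + 3 * e) ^ 3, ?_, ?_⟩
    · push_cast
      linear_combination (3 ^ (v + 2) * (w0 + 3 * e)) * hh'
    · have h1 : X ^ 3 ≡ 0 ^ 3 [ZMOD 3] := hX.pow 3
      have h2 : (0 : ℤ) ^ 3 ≡ 0 [ZMOD 3] := by decide
      have h3 : X ^ 3 - 3 * R * X ≡ X ^ 3 [ZMOD 3] := by
        rw [Int.modEq_iff_dvd]
        exact ⟨R * X, by ring⟩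
      exact h3.trans (h1.trans h2)

end Pool.Agent.CycSyl
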