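import Pool.Agent.CycSyl.Iso
import Pool.Agent.CycSyl.Alg

/-!
Labels with values in `ZMod p` for `p = 5` and `p = 3`.
-/

set_option autoImplicit false

namespace Pool.Agent.CycSyl

open Hz Finset

/-- additive labels -/
structure Lab (p : ℕ) where
  κ : Hz ℤ → ZMod p
  mul : ∀ x y, Adm x → Adm y → κ (x * y) = κ x + κ y
  neg : ∀ x, Adm x → κ (-x) = κ x
  conj : ∀ x, Adm x → κ x + κ (Hz.conj x) = 0
  int : ∀ n : ℤ, IsCoprime n 22 → κ (sc n) = 0

/-- the group algebra weight -/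
noncomputable def Lab.toWt {p : ℕ} (L : Lab p) : Wt (AddMonoidAlgebra ℤ (ZMod p)) where
  g x := AddMonoidAlgebra.single (L.κ x) 1
  mul x y hx hy := by rw [L.mul x y hx hy, AddMonoidAlgebra.single_mul_single, mul_one]
  neg x hx := by rw [L.neg x hx]
  conj x hx := by
    rw [AddMonoidAlgebra.single_mul_single, L.conj x hx, mul_one, AddMonoidAlgebra.one_def]
  int n hn := by rw [L.int n hn, AddMonoidAlgebra.one_def]

/-! ### p = 5 -/

/-- discrete logarithm modulo 11 to base 2, with values in `ZMod 5` -/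
def dl (a : ZMod 11) : ZMod 5 := ![0, 0, 1, 3, 2, 4, 4, 2, 3, 1, 0] a

theorem dl_mul {a b : ZMod 11} (ha : a ≠ 0) (hb : b ≠ 0) : dl (a * b) = dl a + dl b := by
  revert a b; decide
theorem dl_neg (a : ZMod 11) : dl (-a) = dl a := by
  revert a; decide

/-- the label for `p = 5` -/
def κ5 (x : Hz ℤ) : ZMod 5 := dl (lam x) - dl (lam (conj x))

theorem Adm_lam {x : Hz ℤ} (hx : Adm x) : lam x ≠ 0 := lam_ne_zero hx.1 (cop11 hx.2)
theorem Adm_lam_conj {x : Hz ℤ} (hx : Adm x) : lam (conj x) ≠ 0 := Adm_lam (Adm_conj hx)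

/-- labels for `p = 5` -/
def L5 : Lab 5 where
  κ := κ5
  mul x y hx hy := by
    unfold κ5
    rw [lam_mul hx.1 hy.1, Hz.conj_mul, lam_mul (InO_conj hy.1) (InO_conj hx.1),
      dl_mul (Adm_lam hx) (Adm_lam hy), dl_mul (Adm_lam_conj hy) (Adm_lam_conj hx)]
    ring
  neg x hx := by
    unfold κ5
    rw [conj_neg, lam_neg, lam_neg, dl_neg, dl_neg]
  conj x hx := by
    unfold κ5
    rw [conj_conj]; ring
  int n hn := by
    unfold κ5
    rw [conj_sc, sub_self]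

/-! ### p = 3 -/

/-- label of a residue modulo `2` -/
def l4 (u v : ZMod 2) : ZMod 3 := if v = 0 then 0 else if u = 0 then 1 else 2

/-- the label for `p = 3` -/
def κ3 (x : Hz ℤ) : ZMod 3 := l4 ((x.a + x.b + x.c : ℤ) : ZMod 2) ((x.d : ℤ) : ZMod 2)

theorem l4_aux (u v u' v' : ZMod 2) (h : ¬ (u = 0 ∧ v = 0)) (h' : ¬ (u' = 0 ∧ v' = 0)) :
    l4 (u * u' + v * v') (u * v' + u' * v + v * v') = l4 u v + l4 u' v' := by
  revert u v u' v'; decide

theorem two_eq : (2 : ZMod 2) = 0 := by decide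

theorem res_mul (x y : Hz ℤ) :
    (((x * y).a + (x * y).b + (x * y).c : ℤ) : ZMod 2) =
      ((x.a + x.b + x.c : ℤ) : ZMod 2) * ((y.a + y.b + y.c : ℤ) : ZMod 2) +
        ((x.d : ℤ) : ZMod 2) * ((y.d : ℤ) : ZMod 2) ∧
    (((x * y).d : ℤ) : ZMod 2) = ((x.a + x.b + x.c : ℤ) : ZMod 2) * ((y.d : ℤ) : ZMod 2) +
      ((y.a + y.b + y.c : ℤ) : ZMod 2) * ((x.d : ℤ) : ZMod 2) +
        ((x.d : ℤ) : ZMod 2) * ((y.d : ℤ) : ZMod 2) := by
  constructor
  · rw [← sub_eq_zero]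
    simp only [mul_a, mul_b, mul_c]
    push_cast
    ring_nf
    reduce_mod_char
  · rw [← sub_eq_zero]
    simp only [mul_d]
    push_cast
    ring_nf
    reduce_mod_char

theorem res_nrm (x : Hz ℤ) : ((nrm x : ℤ) : ZMod 2) =
    ((x.a + x.b + x.c : ℤ) : ZMod 2) ^ 2 + ((x.d : ℤ) : ZMod 2) ^ 2 +
      ((x.a + x.b + x.c : ℤ) : ZMod 2) * ((x.d : ℤ) : ZMod 2) := by
  rw [← sub_eq_zero]
  simp only [nrm]
  push_cast
  ring_nf
  reduce_mod_char

theorem Adm_res {x : Hz ℤ} (hx : Adm x) :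
    ¬ (((x.a + x.b + x.c : ℤ) : ZMod 2) = 0 ∧ ((x.d : ℤ) : ZMod 2) = 0) := by
  rintro ⟨h1, h2⟩
  have h := res_nrm x
  rw [h1, h2] at h
  have h0 : ((nrm x : ℤ) : ZMod 2) = 0 := by rw [h]; ring
  rw [ZMod.intCast_zmod_eq_zero_iff_dvd] at h0
  have h2 : IsCoprime (nrm x) 2 := hx.2.of_isCoprime_of_dvd_right ⟨11, by norm_num⟩
  have : IsUnit ((2 : ℕ) : ℤ) := h2.isUnit_of_dvd' h0 (by norm_num)
  rw [Int.isUnit_iff] at this
  omega

/-- labels for `p = 3` -/
def L3 : Lab 3 where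
  κ := κ3
  mul x y hx hy := by
    unfold κ3
    obtain ⟨h1, h2⟩ := res_mul x y
    rw [h1, h2, l4_aux _ _ _ _ (Adm_res hx) (Adm_res hy)]
  neg x hx := by
    unfold κ3
    have e1 : (((-x).a + (-x).b + (-x).c : ℤ) : ZMod 2) = ((x.a + x.b + x.c : ℤ) : ZMod 2) := by
      rw [← sub_eq_zero]
      simp only [neg_a, neg_b, neg_c]
      push_cast
      ring_nf
      reduce_mod_char
    have e2 : (((-x).d : ℤ) : ZMod 2) = ((x.d : ℤ) : ZMod 2) := by
      rw [← sub_eq_zero]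
      simp only [neg_d]
      push_cast
      ring_nf
      reduce_mod_char
    rw [e1, e2]
  conj x hx := by
    unfold κ3
    have e1 : (((Hz.conj x).a + (Hz.conj x).b + (Hz.conj x).c : ℤ) : ZMod 2) =
        ((x.a + x.b + x.c : ℤ) : ZMod 2) + ((x.d : ℤ) : ZMod 2) := by
      rw [← sub_eq_zero]
      simp only [conj_a, conj_b, conj_c]
      push_cast
      ring_nf
      reduce_mod_char
    have e2 : (((Hz.conj x).d : ℤ) : ZMod 2) = ((x.d : ℤ) : ZMod 2) := by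
      rw [← sub_eq_zero]
      simp only [conj_d]
      push_cast
      ring_nf
      reduce_mod_char
    rw [e1, e2]
    have : ∀ u v : ZMod 2, l4 u v + l4 (u + v) v = 0 := by decide
    exact this _ _
  int n hn := by
    unfold κ3
    simp [l4]

/-! ### explicit elements -/

theorem X3_eq : X 3 = {⟨2, 1, 2, -2⟩, ⟨0, 2, 0, -1⟩, ⟨-1, -2, 0, 1⟩, ⟨0, -1, -2, 2⟩} := by
  symm
  apply Finset.eq_of_subset_of_card_le
  · intro x hx
    rw [mem_X]
    simp only [Finset.mem_insert, Finset.mem_singleton] at hx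
    rcases hx with rfl | rfl | rfl | rfl <;> decide
  · rw [card_X (by norm_num) (by decide)]
    decide

end Pool.Agent.CycSyl
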