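import Pool.Agent.CycSyl.Power
import Pool.Agent.CycSyl.Label

/-!
Extending the labels to the maximal order.
-/

set_option autoImplicit false

namespace Pool.Agent.CycSyl

open Hz

/-- evaluation of `ℤ[θ]` -/
def ev {L : Type*} [CommRing L] {t m : ℤ} (s : L) (hs : s * s = (t : L) * s - (m : L)) :
    Lm t m →+* L where
  toFun z := (z.re : L) + (z.im : L) * s
  map_one' := by
    show ((1 : ℤ) : L) + ((0 : ℤ) : L) * s = 1
    simp
  map_zero' := by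
    show ((0 : ℤ) : L) + ((0 : ℤ) : L) * s = 0
    simp
  map_add' z w := by
    rw [QuadraticAlgebra.re_add, QuadraticAlgebra.im_add]; push_cast; ring
  map_mul' z w := by
    rw [QuadraticAlgebra.re_mul, QuadraticAlgebra.im_mul]; push_cast
    linear_combination (-(z.im : L) * w.im) * hs

theorem ev_omega {L : Type*} [CommRing L] {t m : ℤ} (s : L)
    (hs : s * s = (t : L) * s - (m : L)) : ev s hs ⟨0, 1⟩ = s := by
  show ((0 : ℤ) : L) + ((1 : ℤ) : L) * s = s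
  simp

namespace QData

variable {O : Type*} [CommRing O] {t m : ℤ} (D : QData O t m)
variable {L : Type*} [CommRing L] (ψ : Lm t m →+* L) (u0 : L)

theorem exists_e0 (w : O) : ∃ z : Lm t m, D.e z = ((t ^ 2 - 4 * m : ℤ) : O) * w := by
  obtain ⟨a, b, h⟩ := D.span w
  exact ⟨⟨a, b⟩, h.symm⟩

/-- extension of a ring homomorphism to `O` -/
noncomputable def extFun (w : O) : L := u0 * ψ (Classical.choose (D.exists_e0 w))

theorem extFun_eq {w : O} {z : Lm t m} (h : D.e z = ((t ^ 2 - 4 * m : ℤ) : O) * w) :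
    D.extFun ψ u0 w = u0 * ψ z := by
  unfold extFun
  congr 2
  apply D.e_inj
  rw [h]
  exact Classical.choose_spec (D.exists_e0 w)

/-- extension of a ring homomorphism to `O` -/
noncomputable def ext (hu : u0 * ((t ^ 2 - 4 * m : ℤ) : L) = 1) : O →+* L where
  toFun := D.extFun ψ u0
  map_one' := by
    rw [D.extFun_eq ψ u0 (z := ((t ^ 2 - 4 * m : ℤ) : Lm t m)) (by rw [map_intCast, mul_one]),
      map_intCast, hu]
  map_zero' := by
    rw [D.extFun_eq ψ u0 (z := 0) (by rw [map_zero, mul_zero]), map_zero, mul_zero]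
  map_add' v w := by
    obtain ⟨a, ha⟩ := D.exists_e0 v
    obtain ⟨b, hb⟩ := D.exists_e0 w
    rw [D.extFun_eq ψ u0 ha, D.extFun_eq ψ u0 hb,
      D.extFun_eq ψ u0 (z := a + b) (by rw [map_add, ha, hb]; ring), map_add]
    ring
  map_mul' v w := by
    obtain ⟨a, ha⟩ := D.exists_e0 v
    obtain ⟨b, hb⟩ := D.exists_e0 w
    obtain ⟨c, hc⟩ := D.exists_e0 (v * w)
    rw [D.extFun_eq ψ u0 ha, D.extFun_eq ψ u0 hb, D.extFun_eq ψ u0 hc]
    have h1 : a * b = ((t ^ 2 - 4 * m : ℤ) : Lm t m) * c := by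
      apply D.e_inj
      rw [map_mul, map_mul, map_intCast, ha, hb, hc]; ring
    have h2 := congrArg ψ h1
    rw [map_mul, map_mul, map_intCast] at h2
    linear_combination (-(u0 * ψ c)) * hu - u0 ^ 2 * h2

theorem ext_e (hu : u0 * ((t ^ 2 - 4 * m : ℤ) : L) = 1) (z : Lm t m) :
    D.ext ψ u0 hu (D.e z) = ψ z := by
  show D.extFun ψ u0 (D.e z) = ψ z
  rw [D.extFun_eq ψ u0 (z := ((t ^ 2 - 4 * m : ℤ) : Lm t m) * z)
    (by rw [map_mul, map_intCast]), map_mul, map_intCast, ← mul_assoc, hu, one_mul]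

theorem e_omega : D.e ⟨0, 1⟩ = D.θ := by
  rw [e_apply]; simp

theorem F0_eleven {x : Hz ℤ} (hx : Adm x) (ht : tr x = t) (hm : nrm x = m) (hκ : κ5 x ≠ 0) :
    ((t ^ 2 - 4 * m : ℤ) : ZMod 11) ≠ 0 := by
  intro h0
  have h1 := lam_conj hx.1
  have h2 := lam_mul_lam_conj hx.1
  rw [ht] at h1
  rw [hm] at h2
  have h3 : (lam x - lam (conj x)) * (lam x - lam (conj x)) = 0 := by
    push_cast at h0
    have h4 : lam x + lam (conj x) = (t : ZMod 11) := by rw [h1]; ring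
    linear_combination h0 + (lam x + lam (conj x) + t) * h4 - 4 * h2
  have h5 := sub_eq_zero.1 (mul_self_eq_zero.1 h3)
  apply hκ
  unfold κ5
  rw [h5, sub_self]

theorem olab5 {x : Hz ℤ} (hx : Adm x) (ht : tr x = t) (hm : nrm x = m) (hκ : κ5 x ≠ 0) :
    ∃ Lb : OLab O 5, Lb.good D.θ ∧ Lb.f D.θ = κ5 x ∧
      ∀ n : ℤ, IsCoprime n 22 → Lb.good (n : O) ∧ Lb.f (n : O) = 0 := by
  have h1 := lam_conj hx.1
  have h2 := lam_mul_lam_conj hx.1
  rw [ht] at h1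
  rw [hm] at h2
  have hs : lam x * lam x = (t : ZMod 11) * lam x - (m : ZMod 11) := by
    rw [h1] at h2
    linear_combination -h2
  have hF := F0_eleven hx ht hm hκ
  obtain ⟨Ψ, hΨ⟩ : ∃ Ψ : O →+* ZMod 11, ∀ z, Ψ (D.e z) = ev (lam x) hs z :=
    ⟨D.ext (ev (lam x) hs) _ (inv_mul_cancel₀ hF), D.ext_e _ _ _⟩
  have hΨθ : Ψ D.θ = lam x := by rw [← D.e_omega, hΨ, ev_omega]
  have hΨσ : Ψ (D.σ D.θ) = lam (conj x) := by
    rw [D.hσ, map_sub, hΨθ, map_intCast, h1]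
  refine ⟨⟨fun w => Ψ w ≠ 0 ∧ Ψ (D.σ w) ≠ 0, fun w => dl (Ψ w) - dl (Ψ (D.σ w)), ?_, ?_, ?_⟩,
    ?_, ?_, ?_⟩
  · intro a b
    simp only [map_mul, ne_eq, mul_eq_zero, not_or]
    tauto
  · simp
  · intro a b ha hb
    simp only [map_mul]
    rw [dl_mul ha.1 hb.1, dl_mul ha.2 hb.2]
    ring
  · exact ⟨by rw [hΨθ]; exact Adm_lam hx, by rw [hΨσ]; exact Adm_lam_conj hx⟩
  · show dl (Ψ D.θ) - dl (Ψ (D.σ D.θ)) = κ5 x
    rw [hΨθ, hΨσ]; rfl
  · intro n hn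
    have h3 : Ψ (n : O) = (n : ZMod 11) := map_intCast _ _
    refine ⟨⟨?_, ?_⟩, ?_⟩
    · show Ψ (n : O) ≠ 0
      rw [h3]; exact cop11 hn
    · show Ψ (D.σ (n : O)) ≠ 0
      rw [map_intCast, h3]; exact cop11 hn
    · show dl (Ψ (n : O)) - dl (Ψ (D.σ (n : O))) = 0
      rw [map_intCast D.σ, sub_self]

/-- the field with four elements -/
abbrev F4 := QuadraticAlgebra (ZMod 2) 1 1

theorem F4_cast (n : ℤ) : ((n : F4)).re = (n : ZMod 2) ∧ ((n : F4)).im = 0 :=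
  ⟨QuadraticAlgebra.re_intCast _, QuadraticAlgebra.im_intCast _⟩

theorem olab3 {x : Hz ℤ} (hx : Adm x) (ht : tr x = t) (hm : nrm x = m) (hκ : κ3 x ≠ 0) :
    ∃ Lb : OLab O 3, Lb.good D.θ ∧ Lb.f D.θ = κ3 x ∧
      ∀ n : ℤ, IsCoprime n 22 → Lb.good (n : O) ∧ Lb.f (n : O) = 0 := by
  obtain ⟨u, hu⟩ : ∃ u : ZMod 2, u = ((x.a + x.b + x.c : ℤ) : ZMod 2) := ⟨_, rfl⟩
  obtain ⟨v, hv⟩ : ∃ v : ZMod 2, v = ((x.d : ℤ) : ZMod 2) := ⟨_, rfl⟩
  have htv : (t : ZMod 2) = v := by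
    rw [← ht, hv]; unfold tr
    push_cast
    rw [two_eq]; ring
  have hmv : (m : ZMod 2) = u ^ 2 + v ^ 2 + u * v := by
    rw [← hm, res_nrm, hu, hv]
  have hv1 : v = 1 := by
    by_contra h
    apply hκ
    unfold κ3 l4
    rw [← hv]
    have h01 : ∀ v : ZMod 2, v ≠ 1 → v = 0 := by decide
    rw [if_pos (h01 v h)]
  have hs : (⟨u, v⟩ : F4) * ⟨u, v⟩ = (t : F4) * ⟨u, v⟩ - (m : F4) := by
    have key : ∀ u v : ZMod 2, u * u + 1 * v * v = v * u + 1 * 0 * v - (u ^ 2 + v ^ 2 + u * v) ∧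
        u * v + v * u + 1 * v * v = v * v + 0 * u + 1 * 0 * v - 0 := by decide
    apply QuadraticAlgebra.ext
    · rw [QuadraticAlgebra.re_mul, QuadraticAlgebra.re_sub, QuadraticAlgebra.re_mul,
        (F4_cast t).1, (F4_cast t).2, (F4_cast m).1, htv, hmv]
      exact (key u v).1
    · rw [QuadraticAlgebra.im_mul, QuadraticAlgebra.im_sub, QuadraticAlgebra.im_mul,
        (F4_cast t).1, (F4_cast t).2, (F4_cast m).2, htv]
      exact (key u v).2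
  have hF : (1 : F4) * ((t ^ 2 - 4 * m : ℤ) : F4) = 1 := by
    rw [one_mul]
    apply QuadraticAlgebra.ext
    · rw [(F4_cast _).1]
      push_cast
      rw [htv, hv1]
      have : (4 : ZMod 2) = 0 := by decide
      rw [this]
      show (1 : ZMod 2) ^ 2 - 0 * _ = 1
      ring
    · rw [(F4_cast _).2]; rfl
  obtain ⟨Ψ, hΨ⟩ : ∃ Ψ : O →+* F4, ∀ z, Ψ (D.e z) = ev ⟨u, v⟩ hs z :=
    ⟨D.ext (ev ⟨u, v⟩ hs) _ hF, D.ext_e _ _ _⟩
  have hΨθ : Ψ D.θ = ⟨u, v⟩ := by rw [← D.e_omega, hΨ, ev_omega]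
  have hz : ∀ w : F4, w ≠ 0 ↔ ¬ (w.re = 0 ∧ w.im = 0) := by
    intro w
    rw [ne_eq, QuadraticAlgebra.ext_iff]; rfl
  have key1 : ∀ u v u' v' : ZMod 2, (¬ (u * u' + 1 * v * v' = 0 ∧ u * v' + v * u' + 1 * v * v' = 0))
      ↔ (¬ (u = 0 ∧ v = 0) ∧ ¬ (u' = 0 ∧ v' = 0)) := by decide
  have key2 : ∀ u v u' v' : ZMod 2, ¬ (u = 0 ∧ v = 0) → ¬ (u' = 0 ∧ v' = 0) →
      l4 (u * u' + 1 * v * v') (u * v' + v * u' + 1 * v * v') = l4 u v + l4 u' v' := by decide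
  refine ⟨⟨fun w => Ψ w ≠ 0, fun w => l4 (Ψ w).re (Ψ w).im, ?_, ?_, ?_⟩, ?_, ?_, ?_⟩
  · intro a b
    rw [map_mul, hz, hz, hz, QuadraticAlgebra.re_mul, QuadraticAlgebra.im_mul]
    exact key1 _ _ _ _
  · rw [map_one, hz]
    show ¬ ((1 : ZMod 2) = 0 ∧ (0 : ZMod 2) = 0)
    decide
  · intro a b ha hb
    rw [hz] at ha hb
    rw [map_mul, QuadraticAlgebra.re_mul, QuadraticAlgebra.im_mul]
    exact key2 _ _ _ _ ha hb
  · show Ψ D.θ ≠ 0
    rw [hΨθ, hz]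
    rw [hv1]
    show ¬ (u = 0 ∧ (1 : ZMod 2) = 0)
    rintro ⟨_, h⟩; exact absurd h (by decide)
  · show l4 (Ψ D.θ).re (Ψ D.θ).im = κ3 x
    rw [hΨθ, hu, hv]; rfl
  · intro n hn
    have h3 : Ψ (n : O) = (n : F4) := map_intCast _ _
    have hodd : ((n : ℤ) : ZMod 2) ≠ 0 := by
      intro h0
      rw [ZMod.intCast_zmod_eq_zero_iff_dvd] at h0
      have h2 : IsCoprime n 2 := hn.of_isCoprime_of_dvd_right ⟨11, by norm_num⟩
      have : IsUnit ((2 : ℕ) : ℤ) := h2.isUnit_of_dvd' h0 (by norm_num)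
      rw [Int.isUnit_iff] at this
      omega
    constructor
    · show Ψ (n : O) ≠ 0
      rw [h3, hz, (F4_cast n).1]
      exact fun h => hodd h.1
    · show l4 (Ψ (n : O)).re (Ψ (n : O)).im = 0
      rw [h3, (F4_cast n).2]
      simp [l4]

end QData

end Pool.Agent.CycSyl
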