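import Mathlib

/-!
Choice of the auxiliary prime, and the descent.
-/

set_option autoImplicit false

namespace Pool.Agent.CycSyl

open NumberTheorySymbols

theorem jacobi_aux {d : ℕ} (hd : 0 < d) : J(-(d : ℤ) | 4 * d - 1) = -1 := by
  obtain ⟨b, hb⟩ : ∃ b, b = 4 * d - 1 := ⟨_, rfl⟩
  rw [← hb]
  have hb4 : b % 4 = 3 := by omega
  have hodd : Odd b := Nat.odd_iff.2 (by omega)
  have h1 : J(-1 | b) = -1 := by
    rw [jacobiSym.at_neg_one hodd, ZMod.χ₄_nat_three_mod_four hb4]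
  have h2 : J((4 * d : ℤ) | b) = 1 := by
    have : ((4 * d : ℤ)) % (b : ℤ) = 1 % (b : ℤ) := by
      have h3 : (4 * d : ℤ) = (b : ℤ) + 1 := by omega
      rw [h3, Int.add_emod_left]
    rw [jacobiSym.mod_left' this, jacobiSym.one_left]
  have h4 : J((4 : ℤ) | b) = 1 := by
    have : (4 : ℤ) = 2 ^ 2 := by norm_num
    rw [this]
    apply jacobiSym.sq_one'
    have : Nat.Coprime 2 b := by
      rw [Nat.coprime_two_left]; exact hodd
    simpa [Int.gcd] using this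
  have h5 : J((d : ℤ) | b) = 1 := by
    rw [jacobiSym.mul_left, h4, one_mul] at h2
    exact h2
  have : (-(d : ℤ)) = (-1) * d := by ring
  rw [this, jacobiSym.mul_left, h1, h5]; norm_num

theorem jacobi_neg {d q : ℕ} (hd : 0 < d) (hq : q % (4 * d) = 4 * d - 1) :
    J(-(d : ℤ) | q) = -1 := by
  have hodd : Odd q := by
    have h1 : q % 2 = (q % (4 * d)) % 2 := by
      rw [Nat.mod_mod_of_dvd]; exact ⟨2 * d, by ring⟩
    rw [hq] at h1
    exact Nat.odd_iff.2 (by omega)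
  rw [jacobiSym.mod_right _ hodd]
  have : (-(d : ℤ)).natAbs = d := by simp
  rw [this, hq]
  exact jacobi_aux hd

theorem descent {q : ℕ} (hq : q.Prime) {d : ℤ} (hJ : J(-d | q) = -1) (k : ℕ) :
    ∀ (x y N : ℤ), ¬ (q : ℤ) ∣ N → x ^ 2 + d * y ^ 2 ≠ (q : ℤ) ^ (2 * k + 1) * N := by
  have : Fact q.Prime := ⟨hq⟩
  have hq0 : (q : ℤ) ≠ 0 := by exact_mod_cast hq.ne_zero
  have step : ∀ (k : ℕ) (x y N : ℤ), x ^ 2 + d * y ^ 2 = (q : ℤ) ^ (k + 1) * N →
      ∃ x' y' : ℤ, (q : ℤ) ^ 2 * (x' ^ 2 + d * y' ^ 2) = (q : ℤ) ^ (k + 1) * N := by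
    intro k x y N h
    have h1 : (q : ℤ) ∣ x ^ 2 - (-d) * y ^ 2 := ⟨(q : ℤ) ^ k * N, by
      have : (q : ℤ) * ((q : ℤ) ^ k * N) = (q : ℤ) ^ (k + 1) * N := by ring
      rw [this, ← h]; ring⟩
    obtain ⟨⟨x', hx'⟩, ⟨y', hy'⟩⟩ := jacobiSym.prime_dvd_of_eq_neg_one hJ h1
    refine ⟨x', y', ?_⟩
    rw [← h, hx', hy']; ring
  induction k with
  | zero =>
    intro x y N hN h
    obtain ⟨x', y', h2⟩ := step 0 x y N (by simpa using h)
    apply hN
    refine ⟨x' ^ 2 + d * y' ^ 2, ?_⟩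
    apply mul_left_cancel₀ hq0
    linear_combination -h2
  | succ k ih =>
    intro x y N hN h
    obtain ⟨x', y', h2⟩ := step (2 * (k + 1)) x y N h
    apply ih x' y' N hN
    apply mul_left_cancel₀ (pow_ne_zero 2 hq0)
    rw [h2]; ring

/-- the auxiliary prime -/
theorem exists_q {p : ℕ} (hp : p.Prime) (hp2 : p ≠ 2) (S : Finset ℕ) (hS : ∀ d ∈ S, 0 < d ∧ ¬ p ∣ d)
    (B : ℕ) : ∃ q : ℕ, q.Prime ∧ B < q ∧ q % p = 1 ∧ ∀ d ∈ S, J(-(d : ℤ) | q) = -1 ∧ ¬ q ∣ d := by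
  obtain ⟨D, hD⟩ : ∃ D, D = ∏ d ∈ S, d := ⟨_, rfl⟩
  have hD0 : 0 < D := by rw [hD]; exact Finset.prod_pos (fun d hd => (hS d hd).1)
  have hpD : ¬ p ∣ D := by
    rw [hD, (Nat.prime_iff.1 hp).dvd_finset_prod_iff]
    rintro ⟨d, hd, h⟩
    exact (hS d hd).2 h
  have hcop : Nat.Coprime p (4 * D) := by
    rw [Nat.Prime.coprime_iff_not_dvd hp]
    intro h
    rcases (Nat.Prime.dvd_mul hp).1 h with h1 | h1
    · have h2 : p ∣ 2 := hp.dvd_of_dvd_pow (n := 2) (by simpa using h1)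
      exact hp2 ((Nat.prime_dvd_prime_iff_eq hp Nat.prime_two).1 h2)
    · exact hpD h1
  obtain ⟨k, hk1, hk2⟩ := Nat.chineseRemainder hcop 1 (4 * D - 1)
  have hk : Nat.Coprime k (p * (4 * D)) := by
    apply Nat.Coprime.mul_right
    · have := hk1.gcd_eq
      rw [Nat.Coprime, this]; simp
    · have h1 := hk2.gcd_eq
      have h2 : Nat.gcd (4 * D - 1) (4 * D) = 1 := by
        have : 4 * D = (4 * D - 1) + 1 := by omega
        conv_lhs => rw [this]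
        simp
      rw [Nat.Coprime, h1, h2]
  obtain ⟨q, hqB, hq, hqm⟩ := Nat.forall_exists_prime_gt_and_modEq (max B D)
    (q := p * (4 * D)) (mul_ne_zero hp.ne_zero (by omega)) hk
  have hBq : B < q := lt_of_le_of_lt (le_max_left _ _) hqB
  have hDq : D < q := lt_of_le_of_lt (le_max_right _ _) hqB
  refine ⟨q, hq, hBq, ?_, ?_⟩
  · have h1 : q ≡ 1 [MOD p] := (hqm.of_mul_right (4 * D)).trans hk1
    have h2 := hp.one_lt
    rw [Nat.ModEq, Nat.mod_eq_of_lt h2] at h1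
    exact h1
  · intro d hd
    obtain ⟨hd0, _⟩ := hS d hd
    have hdD : d ∣ D := by rw [hD]; exact Finset.dvd_prod_of_mem _ hd
    have h1 : q ≡ 4 * D - 1 [MOD 4 * D] := (hqm.of_mul_left p).trans hk2
    have h2 : q ≡ 4 * D - 1 [MOD 4 * d] := h1.of_dvd (Nat.mul_dvd_mul_left 4 hdD)
    obtain ⟨e, he⟩ := hdD
    have he0 : 0 < e := by
      rcases Nat.eq_zero_or_pos e with h | h
      · rw [h, mul_zero] at he; omega
      · exact h
    have h3 : 4 * D - 1 = (4 * d - 1) + 4 * d * (e - 1) := by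
      obtain ⟨f, rfl⟩ : ∃ f, e = f + 1 := ⟨e - 1, by omega⟩
      rw [he]
      simp only [Nat.add_sub_cancel]
      have : 4 * (d * (f + 1)) = 4 * d + 4 * d * f := by ring
      rw [this]
      omega
    have h4 : q % (4 * d) = 4 * d - 1 := by
      have h5 : q % (4 * d) = (4 * D - 1) % (4 * d) := h2
      rw [h5, h3, Nat.add_mul_mod_self_left]
      exact Nat.mod_eq_of_lt (by omega)
    refine ⟨jacobi_neg hd0 h4, ?_⟩
    intro h
    have h5 := Nat.le_of_dvd hd0 h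
    have h6 : d ≤ D := Nat.le_of_dvd hD0 (by rw [he]; exact dvd_mul_right _ _)
    omega

/-- the final contradiction -/
theorem no_field {q : ℕ} (hq : q.Prime) (hq2 : q ≠ 2) {d : ℕ} (hJ : J(-(d : ℤ) | q) = -1)
    (hqd : ¬ q ∣ d) {t m s N : ℤ} {k : ℕ} (hm : m = (q : ℤ) ^ (2 * k + 1) * N)
    (hN : ¬ (q : ℤ) ∣ N) (hs : s ^ 2 = 4 * d * (4 * m - t ^ 2)) : False := by
  apply descent hq hJ k s (2 * t) (16 * d * N)
  · intro h
    have hqp : Prime (q : ℤ) := Nat.prime_iff_prime_int.1 hq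
    rcases hqp.dvd_or_dvd h with h1 | h1
    · rcases hqp.dvd_or_dvd h1 with h2 | h2
      · have h3 : (q : ℤ) ∣ 2 := hqp.dvd_of_dvd_pow (n := 4) (by simpa using h2)
        have h4 : q ∣ 2 := by exact_mod_cast h3
        exact hq2 ((Nat.prime_dvd_prime_iff_eq hq Nat.prime_two).1 h4)
      · exact hqd (by exact_mod_cast h2)
    · exact hN h1
  · rw [hs, hm]; ring

end Pool.Agent.CycSyl
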