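import Pool.Agent.CycSyl.Iso
import Pool.Agent.CycSyl.Alg

/-!
The total count for two primes.
-/

set_option autoImplicit false

namespace Pool.Agent.CycSyl

open Hz Finset

section

variable {R : Type*} [CommRing R] (w : Wt R)

theorem hecke_V {s : ℕ} (hs : s.Prime) (hs22 : s.Coprime 22) {m : ℕ} (hm : m.Coprime 22)
    (hsm : ¬ s ∣ m) (k : ℕ) :
    T w (fun _ => True) (s ^ (k + 2) * m) - ((s : ℤ) : R) * T w (fun _ => True) (s ^ k * m) =
      Vs (T w (fun _ => True) s) ((s : ℤ) : R) (k + 2) * T w (fun _ => True) m := by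
  have hr : (((X s).card : R) - 1) = ((s : ℤ) : R) := by
    rw [card_X hs hs22]; push_cast; ring
  have h := seq_V (T w (fun _ => True) s) ((s : ℤ) : R)
    (fun k => T w (fun _ => True) (s ^ k * m)) ?_ ?_ k
  · simpa using h
  · have h1 := hecke1 w hs hs22 hm hsm
    simp only [pow_one, pow_zero, one_mul]
    rw [← h1]; ring
  · intro k
    have h2 := hecke2 w hs hs22 (cop_mul (hs22.pow_left k) hm)
    rw [hr] at h2
    have e1 : s ^ (k + 2) * m = s * (s * (s ^ k * m)) := by ring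
    have e2 : s ^ (k + 1) * m = s * (s ^ k * m) := by ring
    simp only [e1, e2]
    linear_combination -h2

theorem total {l q : ℕ} (hl : l.Prime) (hl22 : l.Coprime 22) (hq : q.Prime) (hq22 : q.Coprime 22)
    (hlq : l ≠ q) (i j : ℕ) :
    Vs (T w (fun _ => True) l) ((l : ℤ) : R) (2 * i + 3) *
      Vs (T w (fun _ => True) q) ((q : ℤ) : R) (2 * j + 3) =
    T w (fun x => ¬ (l : ℤ) ∣ tr x ∧ ¬ (q : ℤ) ∣ tr x) (l ^ (2 * i + 3) * q ^ (2 * j + 3)) +
    T w (fun x => ¬ (l : ℤ) ∣ tr x ∧ (q : ℤ) ∣ tr x) (l ^ (2 * i + 3) * q) +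
    T w (fun x => (l : ℤ) ∣ tr x ∧ ¬ (q : ℤ) ∣ tr x) (l * q ^ (2 * j + 3)) +
    T w (fun x => (l : ℤ) ∣ tr x ∧ (q : ℤ) ∣ tr x) (l * q) := by
  have hrl : (((X l).card : R) - 1) = ((l : ℤ) : R) := by
    rw [card_X hl hl22]; push_cast; ring
  have hrq : (((X q).card : R) - 1) = ((q : ℤ) : R) := by
    rw [card_X hq hq22]; push_cast; ring
  have hcop : l.Coprime q := (Nat.coprime_primes hl hq).2 hlq
  have hndvd : ∀ n, ¬ l ∣ q ^ n := by
    intro n h
    have := hl.dvd_of_dvd_pow h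
    exact hlq ((Nat.prime_dvd_prime_iff_eq hl hq).1 this)
  have hndvd' : ∀ n, ¬ q ∣ l ^ n := by
    intro n h
    have := hq.dvd_of_dvd_pow h
    exact hlq ((Nat.prime_dvd_prime_iff_eq hq hl).1 this).symm
  -- Hecke side
  have a1 := hecke_V w hl hl22 (hq22.pow_left (2 * j + 3)) (hndvd _) (2 * i + 1)
  have a2 := hecke_V w hl hl22 (hq22.pow_left (2 * j + 1)) (hndvd _) (2 * i + 1)
  have a3 := hecke_V w hq hq22 (Nat.coprime_one_left 22) (by
    intro h; exact hq.one_lt.ne' (Nat.dvd_one.1 h)) (2 * j + 1)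
  rw [mul_one, mul_one, T_one w _ trivial, mul_one] at a3
  have e1 : 2 * i + 1 + 2 = 2 * i + 3 := by ring
  have e2 : 2 * j + 1 + 2 = 2 * j + 3 := by ring
  rw [e1] at a1 a2
  rw [e2] at a3
  -- rotation side
  have b1 := T_V w hl hl22 (hq22.pow_left (2 * j + 3)) (hndvd _) (PInv_true l) i
  have b2 := T_V w hl hl22 (hq22.pow_left (2 * j + 1)) (hndvd _) (PInv_true l) i
  have b3 := T_V w hq hq22 (hl22.pow_left (2 * i + 3)) (hndvd' _)
    (PInv_not (PInv_dvd hcop.symm)) j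
  have b4 := T_V w hq hq22 hl22 (by simpa using hndvd' 1) (PInv_dvd hcop.symm) j
  rw [hrl] at b1 b2
  rw [hrq] at b3 b4
  simp only [true_and] at b1 b2
  rw [mul_comm (q ^ (2 * j + 3)) (l ^ (2 * i + 3)), mul_comm (q ^ (2 * j + 1)) (l ^ (2 * i + 3)),
    mul_comm q (l ^ (2 * i + 3))] at b3
  rw [mul_comm (q ^ (2 * j + 3)) l, mul_comm (q ^ (2 * j + 1)) l, mul_comm q l] at b4
  linear_combination (Vs (T w (fun _ => True) l) ((l : ℤ) : R) (2 * i + 3)) * (-a3) - a1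
    + ((q : ℤ) : R) * a2 + b1 - ((q : ℤ) : R) * b2 + b3 + b4

end

end Pool.Agent.CycSyl
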