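import Pool.Agent.CycSyl.Field2
import Pool.Agent.CycSyl.Prm
import Pool.Agent.CycSyl.OLabel
import Pool.Agent.CycSyl.Act2
import Pool.Agent.CycSyl.Total
import Pool.Agent.CycSyl.Label2

/-!
Assembly.
-/

set_option autoImplicit false

namespace Pool.Agent.CycSyl

open Hz NumberField NumberTheorySymbols

/-- the `p`-part of a finite commutative group with an element of maximal order -/
theorem sylow_cyclic {G : Type*} [CommGroup G] [Finite G] {p v : ℕ} (hp : p.Prime) (g : G)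
    (hg : orderOf g = p ^ v) (hcard : ¬ p ^ (v + 1) ∣ Nat.card G) (H : Type*) [CommGroup H]
    [Finite H] (hcyc : IsCyclic H) (hH : Nat.card H = p ^ v) :
    Nonempty (↥(Subgroup.closure {g : G | ∃ n : ℕ, g ^ (p ^ n) = 1}) ≃* H) := by
  have : Fact p.Prime := ⟨hp⟩
  obtain ⟨S, hS⟩ : ∃ S : Subgroup G, S = Subgroup.closure {g : G | ∃ n : ℕ, g ^ (p ^ n) = 1} :=
    ⟨_, rfl⟩
  rw [← hS]
  have hmem : ∀ x ∈ S, ∃ n : ℕ, x ^ (p ^ n) = 1 := by
    intro x hx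
    rw [hS] at hx
    induction hx using Subgroup.closure_induction with
    | mem x hx => exact hx
    | one => exact ⟨0, one_pow _⟩
    | mul x y _ _ hx hy =>
      obtain ⟨a, ha⟩ := hx
      obtain ⟨b, hb⟩ := hy
      refine ⟨a + b, ?_⟩
      rw [mul_pow, pow_add, pow_mul, ha, one_pow, one_mul, mul_comm (p ^ a), pow_mul, hb, one_pow]
    | inv x _ hx =>
      obtain ⟨a, ha⟩ := hx
      exact ⟨a, by rw [inv_pow, ha, inv_one]⟩
  have hpg : IsPGroup p S := by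
    rintro ⟨x, hx⟩
    obtain ⟨n, hn⟩ := hmem x hx
    exact ⟨n, Subtype.ext hn⟩
  obtain ⟨k, hk⟩ := IsPGroup.iff_card.1 hpg
  have hdvd : p ^ k ∣ Nat.card G := by rw [← hk]; exact Subgroup.card_subgroup_dvd_card S
  have hkv : k ≤ v := by
    by_contra h
    apply hcard
    exact (pow_dvd_pow p (by omega)).trans hdvd
  have hgS : g ∈ S := by
    rw [hS]
    apply Subgroup.subset_closure
    exact ⟨v, by rw [← hg]; exact pow_orderOf_eq_one g⟩
  have hord : orderOf (⟨g, hgS⟩ : S) = p ^ v := by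
    rw [← hg]; exact Subgroup.orderOf_mk g hgS
  have hvk : p ^ v ∣ p ^ k := by
    rw [← hord, ← hk]; exact orderOf_dvd_natCard _
  have hvk' : v ≤ k := (Nat.pow_dvd_pow_iff_le_right hp.one_lt).1 hvk
  have hkv' : k = v := le_antisymm hkv hvk'
  rw [hkv'] at hk
  have hSc : IsCyclic S := isCyclic_of_orderOf_eq_card ⟨g, hgS⟩ (by rw [hord, hk])
  exact ⟨mulEquivOfCyclicCardEq (by rw [hk, hH])⟩

/-- the family of fields -/
def fam (p : ℕ) (H : Type) [CommGroup H] : Set (IntermediateField ℚ ℂ) :=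
  {K : IntermediateField ℚ ℂ | ∃ _ : NumberField K,
    Module.finrank ℚ K = 2 ∧ (∃ x : K, (x : ℂ).im ≠ 0) ∧
    Nonempty (↥(Subgroup.closure {g : ClassGroup (𝓞 K) | ∃ n : ℕ, g ^ (p ^ n) = 1}) ≃* H)}

/-- labels transferred to the maximal orders -/
def Transfer (p : ℕ) (L : Lab p) : Prop :=
  ∀ (t m : ℤ) (h : t ^ 2 < 4 * m) (x : Hz ℤ), Adm x → tr x = t → nrm x = m → L.κ x ≠ 0 →
    ¬ (p : ℤ) ∣ t ^ 2 - 4 * m → ∃ Lb : OLab (𝓞 (Kf t m)) p, Lb.good (qdata h).θ ∧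
      Lb.f (qdata h).θ = L.κ x ∧
      (∀ n : ℤ, IsCoprime n 22 → Lb.good (n : 𝓞 (Kf t m)) ∧ Lb.f (n : 𝓞 (Kf t m)) = 0) ∧
      (∀ u : 𝓞 (Kf t m), IsUnit u → Lb.f u = 0)

theorem transfer5 : Transfer 5 L5 := by
  intro t m h x hx ht hm hκ _
  have := Kf_numberField h
  obtain ⟨Lb, h1, h2, h3⟩ := (qdata h).olab5 hx ht hm hκ
  refine ⟨Lb, h1, h2, h3, fun u hu => ?_⟩
  have h4 := ((qdata h).unit_pow h hu).1
  exact Lb.f_unit_zero 12 (by norm_num) (by decide) h4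

theorem transfer3 : Transfer 3 L3 := by
  intro t m h x hx ht hm hκ h3'
  have := Kf_numberField h
  obtain ⟨Lb, h1, h2, h3⟩ := (qdata h).olab3 hx ht hm hκ
  refine ⟨Lb, h1, h2, h3, fun u hu => ?_⟩
  have h4 := ((qdata h).unit_pow h hu).2 (by exact_mod_cast h3')
  exact Lb.f_unit_zero 4 (by norm_num) (by decide) h4

theorem disc_lt {p : ℕ} (L : Lab p) {x : Hz ℤ} (hx : Adm x) (hκ : L.κ x ≠ 0) :
    (tr x) ^ 2 < 4 * nrm x := by
  have h4 := four_nrm x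
  have h1 : 4 * nrm x - (tr x) ^ 2 = (2 * x.b + x.d) ^ 2 + (2 * x.c + x.d) ^ 2 + x.d ^ 2 := by
    unfold tr; linarith
  by_contra h
  have h2 : (2 * x.b + x.d) ^ 2 + (2 * x.c + x.d) ^ 2 + x.d ^ 2 ≤ 0 := by linarith
  have hd : x.d = 0 := by
    have : x.d ^ 2 = 0 := by nlinarith [sq_nonneg (2 * x.b + x.d), sq_nonneg (2 * x.c + x.d), sq_nonneg x.d]
    exact pow_eq_zero_iff (two_ne_zero) |>.1 this
  rw [hd] at h2
  have hb : x.b = 0 := by
    have : x.b ^ 2 = 0 := by nlinarith [sq_nonneg x.b, sq_nonneg x.c]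
    exact pow_eq_zero_iff (two_ne_zero) |>.1 this
  have hc : x.c = 0 := by
    have : x.c ^ 2 = 0 := by nlinarith [sq_nonneg x.b, sq_nonneg x.c]
    exact pow_eq_zero_iff (two_ne_zero) |>.1 this
  have hxs : x = sc x.a := by ext <;> simp [hb, hc, hd]
  apply hκ
  rw [hxs]
  apply L.int
  have := hx.2
  rw [hxs, nrm_sc] at this
  exact (IsCoprime.pow_left_iff (by norm_num)).1 this

section main

variable {p : ℕ} (hp : p.Prime) (L : Lab p) (hT : Transfer p L) (v : ℕ)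
  (H : Type) [CommGroup H] [Finite H] (hcyc : IsCyclic H) (hH : Nat.card H = p ^ (v + 1))
  {q : ℕ} (hq : q.Prime) (hq2 : q ≠ 2)
  (hqf : ∀ K ∈ fam p H, ∀ d' : ℕ, 0 < d' → ¬ p ∣ d' → (∃ z ∈ K, z * z = -((d' : ℤ) : ℂ)) →
    ∃ d : ℕ, 0 < d ∧ J(-(d : ℤ) | q) = -1 ∧ ¬ q ∣ d ∧ ∃ z ∈ K, z * z = -((d : ℤ) : ℂ))

include hp hT hcyc hH hq hq2 hqf in
/-- divisibility of the class number -/
theorem class_div (hp2 : p ≠ 2) {N : ℕ} (hN22 : N.Coprime 22) {x : Hz ℤ} (hx : x ∈ X N) (hκ : L.κ x ≠ 0)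
    {ρ g t1 : ℤ} (hρ22 : IsCoprime ρ 22) (hm : (N : ℤ) = ρ * g ^ (p ^ (v + 1)))
    (ht : tr x = ρ * t1) (hcop : IsCoprime (tr x) g) (hpF : ¬ (p : ℤ) ∣ tr x ^ 2 - 4 * N)
    {k : ℕ} {N' : ℤ} (hNq : (N : ℤ) = (q : ℤ) ^ (2 * k + 1) * N') (hN' : ¬ (q : ℤ) ∣ N') :
    p ^ (v + 2) ∣ Nat.card (ClassGroup (𝓞 (Kf (tr x) N))) := by
  have hxA := Adm_of_mem hN22 hx
  have hxm := (mem_X.1 hx).2
  have hlt := disc_lt L hxA hκ
  rw [hxm] at hlt
  have := Kf_numberField hlt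
  obtain ⟨Lb, h1, h2, h3, h4⟩ := hT (tr x) N hlt x hxA rfl hxm hκ hpF
  have hρ0 : ρ ≠ 0 := by
    rintro rfl
    have := hρ22.isUnit_of_dvd' (dvd_zero (22 : ℤ)) dvd_rfl
    rw [Int.isUnit_iff] at this; omega
  obtain ⟨C, hC⟩ := (qdata hlt).exists_order hp Lb v hρ0 hm ht hcop (h3 ρ hρ22).1 (h3 ρ hρ22).2
    h1 (by
      rw [h2]
      intro h5
      have h6 : (2 : ZMod p) * L.κ x = 0 := by rw [two_mul]; exact h5
      have : Fact p.Prime := ⟨hp⟩
      rcases mul_eq_zero.1 h6 with h7 | h7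
      · have h8 : ((2 : ℕ) : ZMod p) = 0 := by exact_mod_cast h7
        rw [ZMod.natCast_eq_zero_iff] at h8
        exact hp2 ((Nat.prime_dvd_prime_iff_eq hp Nat.prime_two).1 h8)
      · exact hκ h7) h4
  by_contra hnd
  have hfam : Kf (tr x) N ∈ fam p H := by
    refine ⟨this, Kf_finrank hlt, ⟨⟨th (tr x) N, th_mem⟩, th_im hlt⟩, ?_⟩
    exact sylow_cyclic hp C hC hnd H hcyc hH
  have hd0 : 0 < 4 * (N : ℤ) - tr x ^ 2 := by linarith
  obtain ⟨d', hd'⟩ := Int.eq_ofNat_of_zero_le hd0.le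
  have hd'0 : 0 < d' := by
    rw [hd'] at hd0; exact_mod_cast hd0
  obtain ⟨d, hd, hJ, hqd, z, hz, hzd⟩ := hqf _ hfam d' hd'0 (by
      intro h
      apply hpF
      have : (p : ℤ) ∣ (d' : ℤ) := by exact_mod_cast h
      rw [← hd'] at this
      have h9 : tr x ^ 2 - 4 * (N : ℤ) = -(4 * (N : ℤ) - tr x ^ 2) := by ring
      rw [h9]
      exact this.neg_right) (by
      refine ⟨2 * th (tr x) N - ((tr x : ℤ) : ℂ), ?_, ?_⟩
      · apply sub_mem
        · apply mul_mem _ th_mem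
          have := intCast_mem (Kf (tr x) N) 2
          simpa using this
        · exact intCast_mem _ _
      · rw [← hd']
        have := th_rel hlt
        push_cast
        push_cast at this
        linear_combination 4 * this)
  obtain ⟨s, hs⟩ := sqrt_mem hlt hz (d := (d : ℤ)) (by exact_mod_cast hd) hzd
  exact no_field hq hq2 hJ hqd hNq hN' hs

end main

/-- trace classes are admissible sets -/
theorem eset {p : ℕ} (L : Lab p) {N : ℕ} (hN22 : N.Coprime 22) (t : ℤ) (c : ZMod p) :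
    ESet ((X N).filter (fun x => tr x = t ∧ L.κ x = c)) t N where
  tr x hx := (Finset.mem_filter.1 hx).2.1
  nrm x hx := (mem_X.1 (Finset.mem_filter.1 hx).1).2
  cl x hx β x' hβ hβ22 h := by
    rw [Finset.mem_filter, mem_X] at hx ⊢
    obtain ⟨⟨hO, hn⟩, ht, hκ⟩ := hx
    have hβn0 : nrm β ≠ 0 := by
      intro h0; rw [h0] at hβ22
      have := hβ22.isUnit_of_dvd' (dvd_zero (22 : ℤ)) dvd_rfl
      rw [Int.isUnit_iff] at this; omega
    have hxA : Adm x := ⟨hO.1, by rw [hn]; exact cop22 hN22⟩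
    have hβA : Adm β := ⟨hβ.1, hβ22⟩
    have hnx' : nrm x' = N := by
      have h1 := congrArg nrm h
      rw [nrm_mul, nrm_mul, hn, mul_comm] at h1
      exact (mul_right_cancel₀ hβn0 h1).symm
    have hO' : InO x' := by
      apply InO_left hβ.1 (cop11 hβ22)
      rw [← h]; exact InO_mul hβ.1 hO.1
    have hx'A : Adm x' := ⟨hO', by rw [hnx']; exact cop22 hN22⟩
    have htr : tr x' = t := by
      have h1 : x' * sc (nrm β) = β * x * conj β := by rw [h, mul_assoc, mul_conj]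
      have h2 := congrArg tr h1
      rw [← sc_comm, tr_sc_mul, tr_mul_comm, ← mul_assoc, conj_mul_self, tr_sc_mul, ht] at h2
      exact mul_left_cancel₀ hβn0 h2
    refine ⟨⟨⟨hO', ?_⟩, hnx'⟩, htr, ?_⟩
    · have h1 := congrArg lam h
      rw [lam_mul hβ.1 hO.1, lam_mul hO' hβ.1, mul_comm] at h1
      have h2 := mul_right_cancel₀ (Adm_lam hβA) h1
      rw [← h2]; exact hO.2
    · have h1 := congrArg L.κ h
      rw [L.mul _ _ hβA hxA, L.mul _ _ hx'A hβA, add_comm] at h1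
      rw [← add_right_cancel h1]; exact hκ

theorem cf_T {p : ℕ} (L : Lab p) (c : ZMod p) (P : Hz ℤ → Prop) [DecidablePred P] (N : ℕ) :
    cf c (T L.toWt P N) = (((X N).filter (fun x => P x ∧ L.κ x = c)).card : ℤ) := by
  rw [T_def, map_sum]
  have : ∀ x, cf c (L.toWt.g x) = if L.κ x = c then 1 else 0 := fun x => cf_single c (L.κ x)
  simp only [this]
  rw [Finset.sum_boole, Finset.filter_filter]

/-- divisibility of a labelled count -/
theorem count_div {p : ℕ} (L : Lab p) (e : ℕ) {N : ℕ} (hN22 : N.Coprime 22) (Q : ℤ → Prop)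
    (c : ZMod p) (hc : c ≠ 0)
    (h : ∀ x ∈ X N, Q (tr x) → L.κ x = c → e ∣ Nat.card (ClassGroup (𝓞 (Kf (tr x) N)))) :
    (e : ℤ) ∣ cf c (T L.toWt (fun x => Q (tr x)) N) := by
  classical
  rw [cf_T]
  norm_cast
  rw [Finset.card_eq_sum_card_image (fun x => tr x)]
  apply Finset.dvd_sum
  intro t ht
  obtain ⟨x, hx, hxt⟩ := Finset.mem_image.1 ht
  rw [Finset.mem_filter] at hx
  obtain ⟨hx1, hx2, hx3⟩ := hx
  have hxt' : tr x = t := hxt
  have h1 := h x hx1 hx2 hx3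
  rw [hxt'] at h1 hx2
  have hxA := Adm_of_mem hN22 hx1
  have hlt := disc_lt L hxA (by rw [hx3]; exact hc)
  rw [hxt', (mem_X.1 hx1).2] at hlt
  have := Kf_numberField hlt
  have h2 := (qdata hlt).card_dvd (eset L hN22 t c)
  have h3 : ((X N).filter (fun x => Q (tr x) ∧ L.κ x = c)).filter (fun x => tr x = t) =
      (X N).filter (fun x => tr x = t ∧ L.κ x = c) := by
    ext y
    simp only [Finset.mem_filter]
    constructor
    · rintro ⟨⟨h4, _, h5⟩, h6⟩; exact ⟨h4, h6, h5⟩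
    · rintro ⟨h4, h6, h5⟩; exact ⟨⟨h4, by rw [h6]; exact hx2, h5⟩, h6⟩
  rw [h3]
  exact h1.trans h2

/-- the main step: total contradiction -/
theorem core {p : ℕ} (hp : p.Prime) (hp2 : p ≠ 2) (L : Lab p) (hT : Transfer p L) (v : ℕ)
    (H : Type) [CommGroup H] [Finite H] (hcyc : IsCyclic H) (hH : Nat.card H = p ^ (v + 1))
    {l : ℕ} (hl : l.Prime) (hl22 : l.Coprime 22) {q : ℕ} (hq : q.Prime) (hq22 : q.Coprime 22)
    (hlq : l ≠ q)
    (hqf : ∀ K ∈ fam p H, ∀ d' : ℕ, 0 < d' → ¬ p ∣ d' → (∃ z ∈ K, z * z = -((d' : ℤ) : ℂ)) →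
      ∃ d : ℕ, 0 < d ∧ J(-(d : ℤ) | q) = -1 ∧ ¬ q ∣ d ∧ ∃ z ∈ K, z * z = -((d : ℤ) : ℂ))
    (hres : ∀ (a b : ℕ) (t : ℤ), ¬ (p : ℤ) ∣ t ^ 2 - 4 * ((l : ℤ) ^ (2 * a + 1) * (q : ℤ) ^ b))
    (c : ZMod p) (hc : c ≠ 0) :
    (p : ℤ) ^ (v + 2) ∣ cf c (Vs (T L.toWt (fun _ => True) l)
      ((l : ℤ) : AddMonoidAlgebra ℤ (ZMod p)) (p ^ (v + 1)) *
      Vs (T L.toWt (fun _ => True) q) ((q : ℤ) : AddMonoidAlgebra ℤ (ZMod p)) (p ^ (v + 2))) := by
  have hq2 : q ≠ 2 := by rintro rfl; revert hq22; decide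
  have hodd : Odd p := hp.odd_of_ne_two hp2
  have h3p : 3 ≤ p := by
    have := hp.two_le
    omega
  obtain ⟨i, hi⟩ : ∃ i, p ^ (v + 1) = 2 * i + 3 := by
    obtain ⟨j, hj⟩ := hodd.pow (n := v + 1)
    have h1 : p ^ 1 ≤ p ^ (v + 1) := Nat.pow_le_pow_right (by omega) (by omega)
    rw [pow_one] at h1
    exact ⟨j - 1, by omega⟩
  obtain ⟨j, hj⟩ : ∃ j, p ^ (v + 2) = 2 * j + 3 := by
    obtain ⟨j, hj⟩ := hodd.pow (n := v + 2)
    have h1 : p ^ 1 ≤ p ^ (v + 2) := Nat.pow_le_pow_right (by omega) (by omega)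
    rw [pow_one] at h1
    exact ⟨j - 1, by omega⟩
  have hlq' : ¬ (q : ℤ) ∣ (l : ℤ) := by
    intro h
    have h1 : q ∣ l := by exact_mod_cast h
    exact hlq ((Nat.prime_dvd_prime_iff_eq hq hl).1 h1).symm
  have hqp : Prime (q : ℤ) := Nat.prime_iff_prime_int.1 hq
  have hlp : Prime (l : ℤ) := Nat.prime_iff_prime_int.1 hl
  have hlqn : ∀ n, ¬ (q : ℤ) ∣ (l : ℤ) ^ n := fun n h => hlq' (hqp.dvd_of_dvd_pow h)
  rw [hi, hj, total L.toWt hl hl22 hq hq22 hlq i j, map_add, map_add, map_add]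
  have hpv : (p : ℤ) ^ (v + 2) = ((p ^ (v + 2) : ℕ) : ℤ) := by push_cast; rfl
  have hcopl : ∀ t : ℤ, ¬ (l : ℤ) ∣ t → IsCoprime t (l : ℤ) := fun t h =>
    ((hlp.coprime_iff_not_dvd).2 h).symm
  have hcopq : ∀ t : ℤ, ¬ (q : ℤ) ∣ t → IsCoprime t (q : ℤ) := fun t h =>
    ((hqp.coprime_iff_not_dvd).2 h).symm
  have hq22' := cop22 hq22
  have hl22' := cop22 hl22
  rw [hpv]
  apply dvd_add
  apply dvd_add
  apply dvd_add
  · apply count_div L _ (cop_mul (hl22.pow_left _) (hq22.pow_left _))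
      (fun t => ¬ (l : ℤ) ∣ t ∧ ¬ (q : ℤ) ∣ t) c hc
    rintro x hx ⟨hx1, hx2⟩ hκ
    apply class_div hp L hT v H hcyc hH hq hq2 hqf hp2
      (cop_mul (hl22.pow_left _) (hq22.pow_left _)) hx (by rw [hκ]; exact hc)
      (ρ := 1) (g := (l : ℤ) * (q : ℤ) ^ p) (t1 := tr x) isCoprime_one_left
    · rw [← hi, ← hj]
      push_cast
      rw [mul_pow, ← pow_mul, ← pow_succ']
      ring
    · ring
    · exact (hcopl _ hx1).mul_right (hcopq _ hx2).pow_right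
    · have := hres (i + 1) (2 * j + 3) (tr x)
      push_cast
      exact this
    · show ((l ^ (2 * i + 3) * q ^ (2 * j + 3) : ℕ) : ℤ) =
        (q : ℤ) ^ (2 * (j + 1) + 1) * (l : ℤ) ^ (2 * i + 3)
      push_cast; ring
    · exact hlqn _
  · apply count_div L _ (cop_mul (hl22.pow_left _) hq22)
      (fun t => ¬ (l : ℤ) ∣ t ∧ (q : ℤ) ∣ t) c hc
    rintro x hx ⟨hx1, hx2⟩ hκ
    obtain ⟨t1, ht1⟩ := hx2
    apply class_div hp L hT v H hcyc hH hq hq2 hqf hp2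
      (cop_mul (hl22.pow_left _) hq22) hx (by rw [hκ]; exact hc)
      (ρ := (q : ℤ)) (g := (l : ℤ)) (t1 := t1) hq22'
    · rw [← hi]
      push_cast
      ring
    · exact ht1
    · exact hcopl _ hx1
    · have := hres (i + 1) 1 (tr x)
      push_cast
      rw [pow_one] at this
      exact this
    · show ((l ^ (2 * i + 3) * q : ℕ) : ℤ) = (q : ℤ) ^ (2 * 0 + 1) * (l : ℤ) ^ (2 * i + 3)
      push_cast; ring
    · exact hlqn _
  · apply count_div L _ (cop_mul hl22 (hq22.pow_left _))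
      (fun t => (l : ℤ) ∣ t ∧ ¬ (q : ℤ) ∣ t) c hc
    rintro x hx ⟨hx1, hx2⟩ hκ
    obtain ⟨t1, ht1⟩ := hx1
    apply class_div hp L hT v H hcyc hH hq hq2 hqf hp2
      (cop_mul hl22 (hq22.pow_left _)) hx (by rw [hκ]; exact hc)
      (ρ := (l : ℤ)) (g := (q : ℤ) ^ p) (t1 := t1) hl22'
    · rw [← hj]
      push_cast
      rw [← pow_mul, ← pow_succ']
    · exact ht1
    · exact (hcopq _ hx2).pow_right
    · have := hres 0 (2 * j + 3) (tr x)
      push_cast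
      rw [mul_zero, zero_add, pow_one] at this
      exact this
    · show ((l * q ^ (2 * j + 3) : ℕ) : ℤ) = (q : ℤ) ^ (2 * (j + 1) + 1) * (l : ℤ)
      push_cast; ring
    · exact hlq'
  · apply count_div L _ (cop_mul hl22 hq22)
      (fun t => (l : ℤ) ∣ t ∧ (q : ℤ) ∣ t) c hc
    rintro x hx ⟨hx1, hx2⟩ hκ
    have hdv : (l : ℤ) * (q : ℤ) ∣ tr x := by
      apply IsCoprime.mul_dvd _ hx1 hx2
      exact hcopq _ hlq'
    obtain ⟨t1, ht1⟩ := hdv
    apply class_div hp L hT v H hcyc hH hq hq2 hqf hp2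
      (cop_mul hl22 hq22) hx (by rw [hκ]; exact hc)
      (ρ := (l : ℤ) * (q : ℤ)) (g := 1) (t1 := t1) (hl22'.mul_left hq22')
    · push_cast
      rw [one_pow, mul_one]
    · exact ht1
    · exact isCoprime_one_right
    · have := hres 0 1 (tr x)
      push_cast
      rw [mul_zero, zero_add, pow_one, pow_one] at this
      exact this
    · show ((l * q : ℕ) : ℤ) = (q : ℤ) ^ (2 * 0 + 1) * (l : ℤ)
      push_cast; ring
    · exact hlq'

/-- the choice of the auxiliary prime for a finite family -/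
theorem exists_aux {p : ℕ} (hp : p.Prime) (hp2 : p ≠ 2) (H : Type) [CommGroup H]
    (hfin : (fam p H).Finite) (B : ℕ) : ∃ q : ℕ, q.Prime ∧ B < q ∧ q % p = 1 ∧
    ∀ K ∈ fam p H, ∀ d' : ℕ, 0 < d' → ¬ p ∣ d' → (∃ z ∈ K, z * z = -((d' : ℤ) : ℂ)) →
      ∃ d : ℕ, 0 < d ∧ J(-(d : ℤ) | q) = -1 ∧ ¬ q ∣ d ∧ ∃ z ∈ K, z * z = -((d : ℤ) : ℂ) := by
  classical
  obtain ⟨G, hG⟩ : ∃ G : IntermediateField ℚ ℂ → ℕ, ∀ K, (0 < G K ∧ ¬ p ∣ G K) ∧
      ((∃ d' : ℕ, 0 < d' ∧ ¬ p ∣ d' ∧ ∃ z ∈ K, z * z = -((d' : ℤ) : ℂ)) →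
        ∃ z ∈ K, z * z = -((G K : ℤ) : ℂ)) := by
    have : ∀ K : IntermediateField ℚ ℂ, ∃ d : ℕ, (0 < d ∧ ¬ p ∣ d) ∧
      ((∃ d' : ℕ, 0 < d' ∧ ¬ p ∣ d' ∧ ∃ z ∈ K, z * z = -((d' : ℤ) : ℂ)) →
        ∃ z ∈ K, z * z = -((d : ℤ) : ℂ)) := by
      intro K
      by_cases h : ∃ d' : ℕ, 0 < d' ∧ ¬ p ∣ d' ∧ ∃ z ∈ K, z * z = -((d' : ℤ) : ℂ)
      · obtain ⟨d', h1, h2, h3⟩ := h
        exact ⟨d', ⟨h1, h2⟩, fun _ => h3⟩
      · refine ⟨1, ⟨one_pos, ?_⟩, fun h' => absurd h' h⟩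
        intro h1
        exact hp.one_lt.ne' (Nat.dvd_one.1 h1)
    choose G hG using this
    exact ⟨G, hG⟩
  obtain ⟨q, hq, hB, hq1, hqS⟩ := exists_q hp hp2 (hfin.toFinset.image G) (by
    intro d hd
    obtain ⟨K, _, rfl⟩ := Finset.mem_image.1 hd
    exact (hG K).1) B
  refine ⟨q, hq, hB, hq1, ?_⟩
  intro K hK d' h1 h2 h3
  have h4 := hqS (G K) (Finset.mem_image_of_mem _ (hfin.mem_toFinset.2 hK))
  exact ⟨G K, (hG K).1.1, h4.1, h4.2, (hG K).2 ⟨d', h1, h2, h3⟩⟩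

theorem coprime22_of_gt {q : ℕ} (hq : q.Prime) (h : 22 < q) : q.Coprime 22 := by
  rw [Nat.Prime.coprime_iff_not_dvd hq]
  intro h1
  have := Nat.le_of_dvd (by norm_num) h1
  omega

theorem main5 (v : ℕ) (H : Type) [CommGroup H] [Finite H] (hcyc : IsCyclic H)
    (hH : Nat.card H = 5 ^ (v + 1)) : (fam 5 H).Infinite := by
  intro hfin
  obtain ⟨q, hq, hB, hq1, hqf⟩ := exists_aux (p := 5) (by norm_num) (by norm_num) H hfin 22
  have hq22 := coprime22_of_gt hq hB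
  have h1 := core (p := 5) (by norm_num) (by norm_num) L5 transfer5 v H hcyc hH (l := 3)
    (by norm_num) (by decide) hq hq22 (by omega) hqf ?_ 1 (by decide)
  · have h2 := coef5 v hq hq22 hq1
    apply h2
    simpa using h1
  · intro a b t h
    have hqm : (q : ZMod 5) = 1 := by
      have : ((q % 5 : ℕ) : ZMod 5) = 1 := by rw [hq1]; norm_num
      rwa [ZMod.natCast_mod] at this
    have h3 : ((t ^ 2 - 4 * (((3 : ℕ) : ℤ) ^ (2 * a + 1) * (q : ℤ) ^ b) : ℤ) : ZMod 5) = 0 := by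
      rw [ZMod.intCast_zmod_eq_zero_iff_dvd]; exact h
    push_cast at h3
    rw [hqm, one_pow, mul_one, pow_succ (3 : ZMod 5) (2 * a), pow_mul (3 : ZMod 5) 2 a] at h3
    have h9 : (3 : ZMod 5) ^ 2 = -1 := by decide
    rw [h9] at h3
    have key : ∀ t : ZMod 5, t ^ 2 - 4 * (1 * 3) ≠ 0 ∧ t ^ 2 - 4 * (-1 * 3) ≠ 0 := by decide
    rcases neg_one_pow_eq_or (ZMod 5) a with h5 | h5
    · rw [h5] at h3; exact (key _).1 h3
    · rw [h5] at h3; exact (key _).2 h3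

theorem main3 (v : ℕ) (H : Type) [CommGroup H] [Finite H] (hcyc : IsCyclic H)
    (hH : Nat.card H = 3 ^ (v + 1)) : (fam 3 H).Infinite := by
  intro hfin
  obtain ⟨q, hq, hB, hq1, hqf⟩ := exists_aux (p := 3) (by norm_num) (by norm_num) H hfin 22
  have hq22 := coprime22_of_gt hq hB
  have h1 := core (p := 3) (by norm_num) (by norm_num) L3 transfer3 v H hcyc hH (l := 17)
    (by norm_num) (by decide) hq hq22 (by omega) hqf ?_ 1 (by decide)
  · have h2 := coef3 v hq hq22 hq1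
    apply h2
    simpa using h1
  · intro a b t h
    have hqm : (q : ZMod 3) = 1 := by
      have : ((q % 3 : ℕ) : ZMod 3) = 1 := by rw [hq1]; norm_num
      rwa [ZMod.natCast_mod] at this
    have h3 : ((t ^ 2 - 4 * (((17 : ℕ) : ℤ) ^ (2 * a + 1) * (q : ℤ) ^ b) : ℤ) : ZMod 3) = 0 := by
      rw [ZMod.intCast_zmod_eq_zero_iff_dvd]; exact h
    push_cast at h3
    rw [hqm, one_pow, mul_one, pow_succ (17 : ZMod 3) (2 * a), pow_mul (17 : ZMod 3) 2 a] at h3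
    have h9 : (17 : ZMod 3) ^ 2 = 1 := by decide
    rw [h9, one_pow] at h3
    have key : ∀ t : ZMod 3, t ^ 2 - 4 * (1 * 17) ≠ 0 := by decide
    exact key _ h3

end Pool.Agent.CycSyl
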