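import Pool.Agent.CycSyl.QD

/-!
The action of the ideals prime to the modulus on elements of given trace and norm, and the
divisibility of the size of invariant sets by the class number.
-/

set_option autoImplicit false

namespace Pool.Agent.CycSyl

open Hz

theorem span_unit {u d : Hz ℤ} (hu : nrm u = 1) : Ideal.span {u * d} = Ideal.span {d} := by
  apply le_antisymm
  · rw [Ideal.span_singleton_le_iff_mem, Ideal.mem_span_singleton']
    exact ⟨u, rfl⟩
  · rw [Ideal.span_singleton_le_iff_mem, Ideal.mem_span_singleton']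
    exact ⟨conj u, by rw [← mul_assoc, conj_mul_self, hu, map_one, one_mul]⟩

theorem span_eq_unique {β β' : Hz ℤ} (h1 : OP β) (h2 : OP β')
    (hc' : IsCoprime (nrm β') 22) (h : Ideal.span {β} = Ideal.span {β'}) : β = β' := by
  have hm : β ∈ Ideal.span {β'} := by rw [← h]; exact Ideal.mem_span_singleton_self β
  have hm' : β' ∈ Ideal.span {β} := by rw [h]; exact Ideal.mem_span_singleton_self β'
  rw [Ideal.mem_span_singleton'] at hm hm'
  obtain ⟨u, hu⟩ := hm
  obtain ⟨v, hv⟩ := hm'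
  have hn0 : nrm β' ≠ 0 := by
    intro h0; rw [h0] at hc'
    have := hc'.isUnit_of_dvd' (dvd_zero (22 : ℤ)) dvd_rfl
    rw [Int.isUnit_iff] at this; omega
  have hb0 : β' ≠ 0 := by rintro rfl; exact hn0 nrm_zero
  have h3 : (v * u) * β' = 1 * β' := by rw [mul_assoc, hu, hv, one_mul]
  have h4 : v * u = 1 := mul_right_cancel₀ hb0 h3
  have h5 : nrm v * nrm u = 1 := by rw [← nrm_mul, h4, nrm_one]
  have h6 : nrm u = 1 := by
    rcases Int.eq_one_or_neg_one_of_mul_eq_one (by rw [mul_comm] at h5; exact h5) with h | h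
    · exact h
    · have := nrm_nonneg u; omega
  have h7 := unit_OP (y := β') (cop11 hc') h2 h6 (by rw [hu]; exact h1)
  rw [← hu, h7, one_mul]

/-- finite sets stable under the admissible conjugations -/
structure ESet (E : Finset (Hz ℤ)) (t m : ℤ) : Prop where
  tr : ∀ x ∈ E, Hz.tr x = t
  nrm : ∀ x ∈ E, Hz.nrm x = m
  cl : ∀ x ∈ E, ∀ β x' : Hz ℤ, OP β → IsCoprime (Hz.nrm β) 22 → β * x = x' * β → x' ∈ E

namespace QData

variable {O : Type*} [CommRing O] [IsDedekindDomain O] {t m : ℤ} (D : QData O t m)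

/-- ideals prime to the modulus -/
def Cmon : Submonoid (Ideal O) where
  carrier := {I | IsCoprime I (Ideal.span {(D.F : O)})}
  one_mem' := isCoprime_one_left
  mul_mem' h1 h2 := IsCoprime.mul_left h1 h2

theorem mem_Cmon {I : Ideal O} : I ∈ D.Cmon ↔ IsCoprime I (Ideal.span {(D.F : O)}) := Iff.rfl

theorem exists_int {I : Ideal O} (hI : I ∈ D.Cmon) : ∃ n : ℤ, (n : O) ∈ I ∧ D.F ∣ n - 1 := by
  rw [mem_Cmon, Ideal.isCoprime_iff_exists] at hI
  obtain ⟨i, hi, j, hj, hij⟩ := hI
  rw [Ideal.mem_span_singleton'] at hj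
  obtain ⟨f, hf⟩ := hj
  obtain ⟨a, ha⟩ := D.trInt f
  obtain ⟨b, hb⟩ := D.nrmInt f
  refine ⟨1 - D.F * a + D.F ^ 2 * b, ?_, ⟨-a + D.F * b, by ring⟩⟩
  have h1 : i = 1 - D.F * f := by rw [← hij, ← hf]; ring
  have h2 : D.σ i = 1 - D.F * D.σ f := by
    rw [h1, map_sub, map_one, map_mul, map_intCast]
  have h3 : ((1 - D.F * a + D.F ^ 2 * b : ℤ) : O) = i * D.σ i := by
    rw [h2, h1]; push_cast; rw [← ha, ← hb]; ring
  rw [h3]
  exact I.mul_mem_right _ hi

theorem coprime_of_dvd_sub_one {n : ℤ} (h : D.F ∣ n - 1) : IsCoprime n D.F := by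
  obtain ⟨k, hk⟩ := h
  exact ⟨1, -k, by linear_combination hk⟩

theorem cop22_of {n : ℤ} (h : IsCoprime n D.F) : IsCoprime n 22 := by
  unfold F at h
  exact h.of_mul_right_left

/-- the left ideal attached to `x` and an ideal -/
def Jd (x : Hz ℤ) (I : Ideal O) : Ideal (Hz ℤ) :=
  Ideal.span {y | ∃ z : Lm t m, D.e z ∈ I ∧ ph x z = y}

theorem ph_mem_Jd {x : Hz ℤ} {I : Ideal O} {z : Lm t m} (h : D.e z ∈ I) : ph x z ∈ D.Jd x I :=
  Ideal.subset_span ⟨z, h, rfl⟩

theorem Jd_mul_mem {x : Hz ℤ} (ht : tr x = t) (hm : nrm x = m) {I : Ideal O} {y : Hz ℤ}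
    (hy : y ∈ D.Jd x I) : y * x ∈ D.Jd x I := by
  induction hy using Submodule.span_induction with
  | mem y hy =>
    obtain ⟨z, hz, rfl⟩ := hy
    have : ph x z * x = ph x (z * ⟨0, 1⟩) := by rw [ph_mul ht hm, ph_omega]
    rw [this]
    apply D.ph_mem_Jd
    rw [map_mul]; exact I.mul_mem_right _ hz
  | zero => rw [zero_mul]; exact Submodule.zero_mem _
  | add a b _ _ ha hb => rw [add_mul]; exact Submodule.add_mem _ ha hb
  | smul r a _ ha =>
    rw [smul_eq_mul, mul_assoc]
    exact Submodule.smul_mem _ r ha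

theorem exists_beta {x : Hz ℤ} {I : Ideal O} (hI : I ∈ D.Cmon) :
    ∃ β : Hz ℤ, OP β ∧ IsCoprime (nrm β) D.F ∧ D.Jd x I = Ideal.span {β} := by
  obtain ⟨n, hn, hn1⟩ := D.exists_int hI
  obtain ⟨d, hd⟩ := exists_gen (D.Jd x I)
  have h1 : sc n ∈ D.Jd x I := by
    rw [← ph_int (t := t) (m := m) (x := x)]
    apply D.ph_mem_Jd
    rw [map_intCast]; exact hn
  rw [hd, Ideal.mem_span_singleton'] at h1
  obtain ⟨γ, hγ⟩ := h1
  have h2 : nrm γ * nrm d = n ^ 2 := by rw [← nrm_mul, hγ, nrm_sc]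
  have h3 : IsCoprime (nrm d) D.F := by
    apply (IsCoprime.pow_left (m := 2) (D.coprime_of_dvd_sub_one hn1)).of_isCoprime_of_dvd_left
    exact ⟨nrm γ, by rw [← h2]; ring⟩
  obtain ⟨u, hu, hO⟩ := exists_unit_OP d (cop11 (D.cop22_of h3))
  exact ⟨u * d, hO, by rw [nrm_mul, hu, one_mul]; exact h3, by rw [hd, span_unit hu]⟩

theorem exists_conj {x β : Hz ℤ} (ht : tr x = t) (hm : nrm x = m) {I : Ideal O}
    (h : D.Jd x I = Ideal.span {β}) : ∃ x', β * x = x' * β := by
  have h1 : β ∈ D.Jd x I := by rw [h]; exact Ideal.mem_span_singleton_self β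
  have h2 := D.Jd_mul_mem ht hm h1
  rw [h, Ideal.mem_span_singleton'] at h2
  obtain ⟨x', hx'⟩ := h2
  exact ⟨x', hx'.symm⟩

section act

variable {E : Finset (Hz ℤ)} (hE : ESet E t m)

include hE in
theorem exists_act (I : D.Cmon) (x : {x // x ∈ E}) : ∃ x' : {x // x ∈ E}, ∃ β : Hz ℤ, OP β ∧
    IsCoprime (nrm β) D.F ∧ D.Jd x.1 I.1 = Ideal.span {β} ∧ β * x.1 = x'.1 * β := by
  obtain ⟨β, h1, h2, h3⟩ := D.exists_beta (x := x.1) I.2
  obtain ⟨x', hx'⟩ := D.exists_conj (hE.tr _ x.2) (hE.nrm _ x.2) h3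
  exact ⟨⟨x', hE.cl _ x.2 β x' h1 (D.cop22_of h2) hx'⟩, β, h1, h2, h3, hx'⟩

/-- the action of an ideal -/
noncomputable def act (I : D.Cmon) (x : {x // x ∈ E}) : {x // x ∈ E} :=
  Classical.choose (D.exists_act hE I x)

theorem act_spec (I : D.Cmon) (x : {x // x ∈ E}) : ∃ β : Hz ℤ, OP β ∧
    IsCoprime (nrm β) D.F ∧ D.Jd x.1 I.1 = Ideal.span {β} ∧
      β * x.1 = (D.act hE I x).1 * β :=
  Classical.choose_spec (D.exists_act hE I x)

theorem act_unique (I : D.Cmon) (x : {x // x ∈ E}) {β x' : Hz ℤ} (h1 : OP β)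
    (h2 : IsCoprime (nrm β) D.F) (h3 : D.Jd x.1 I.1 = Ideal.span {β}) (h4 : β * x.1 = x' * β) :
    (D.act hE I x).1 = x' := by
  obtain ⟨β', k1, k2, k3, k4⟩ := D.act_spec hE I x
  have : β' = β := span_eq_unique k1 h1 (D.cop22_of h2) (by rw [← k3, h3])
  rw [this, h4] at k4
  have hb : β ≠ 0 := by
    rintro rfl
    rw [nrm_zero] at h2
    have h5 := D.cop22_of h2
    have := h5.isUnit_of_dvd' (dvd_zero (22 : ℤ)) dvd_rfl
    rw [Int.isUnit_iff] at this; omega
  exact (mul_right_cancel₀ hb k4).symm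

theorem act_mul (I J : D.Cmon) (x : {x // x ∈ E}) :
    D.act hE (I * J) x = D.act hE J (D.act hE I x) := by
  obtain ⟨β, h1, h2, h3, h4⟩ := D.act_spec hE I x
  obtain ⟨γ, k1, k2, k3, k4⟩ := D.act_spec hE J (D.act hE I x)
  have htx := hE.tr _ x.2
  have hmx := hE.nrm _ x.2
  have htx' := hE.tr _ (D.act hE I x).2
  have hmx' := hE.nrm _ (D.act hE I x).2
  apply Subtype.ext
  apply D.act_unique hE (I * J) x (β := γ * β) (OP_mul k1 h1)
  · rw [nrm_mul]; exact k2.mul_left h2
  · apply le_antisymm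
    · -- contraction
      rw [Jd, Ideal.span_le]
      rintro y ⟨z, hz, rfl⟩
      -- products
      have hprod : ∀ a b : Lm t m, D.e a ∈ I.1 → D.e b ∈ J.1 →
          ph x.1 (a * b) ∈ Ideal.span {γ * β} := by
        intro a b ha hb
        have e1 : ph x.1 a ∈ Ideal.span {β} := by rw [← h3]; exact D.ph_mem_Jd ha
        have e2 : ph (D.act hE I x).1 b ∈ Ideal.span {γ} := by rw [← k3]; exact D.ph_mem_Jd hb
        rw [Ideal.mem_span_singleton'] at e1 e2 ⊢
        obtain ⟨p, hp⟩ := e1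
        obtain ⟨q, hq⟩ := e2
        refine ⟨p * q, ?_⟩
        rw [ph_mul htx hmx, ← hp, mul_assoc p β, ph_conj_rel h4, ← hq]
        simp only [mul_assoc]
      -- `F² z`
      have hF2 : ∀ w ∈ (I.1 * J.1 : Ideal O), ∀ ζ : Lm t m, D.e ζ = (D.F : O) ^ 2 * w →
          ph x.1 ζ ∈ Ideal.span {γ * β} := by
        intro w hw
        induction hw using Submodule.mul_induction_on' with
        | mem_mul_mem a ha b hb =>
          intro ζ hζ
          obtain ⟨a', ha'⟩ := D.exists_e a
          obtain ⟨b', hb'⟩ := D.exists_e b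
          have : ζ = a' * b' := by
            apply D.e_inj
            rw [map_mul, ha', hb', hζ]; ring
          rw [this]
          apply hprod
          · rw [ha']; exact I.1.mul_mem_left _ ha
          · rw [hb']; exact J.1.mul_mem_left _ hb
        | add a _ b _ iha ihb =>
          intro ζ hζ
          obtain ⟨a', ha'⟩ := D.exists_e ((D.F : O) * a)
          obtain ⟨b', hb'⟩ := D.exists_e ((D.F : O) * b)
          have : ζ = a' + b' := by
            apply D.e_inj
            rw [map_add, ha', hb', hζ]; ring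
          rw [this, ph_add]
          exact Submodule.add_mem _ (iha a' (by rw [ha']; ring)) (ihb b' (by rw [hb']; ring))
      obtain ⟨n1, hn1, hn1'⟩ := D.exists_int I.2
      obtain ⟨n2, hn2, hn2'⟩ := D.exists_int J.2
      have hco : IsCoprime (n1 * n2) (D.F ^ 2) :=
        ((D.coprime_of_dvd_sub_one hn1').mul_left (D.coprime_of_dvd_sub_one hn2')).pow_right
      obtain ⟨A, B, hAB⟩ := hco
      have ez : ph x.1 z = sc A * (ph x.1 z * ph x.1 ((n1 : Lm t m) * (n2 : Lm t m))) +
          sc B * ph x.1 (((D.F ^ 2 : ℤ) : Lm t m) * z) := by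
        rw [← Int.cast_mul, ph_int, ph_mul htx hmx, ph_int, ← sc_comm, ← mul_assoc, ← mul_assoc,
          ← map_mul, ← map_mul, ← add_mul, ← map_add, hAB, map_one, one_mul]
      rw [SetLike.mem_coe, ez]
      apply Submodule.add_mem
      · apply Ideal.mul_mem_left
        apply Ideal.mul_mem_left
        apply hprod
        · rw [map_intCast]; exact hn1
        · rw [map_intCast]; exact hn2
      · apply Ideal.mul_mem_left
        apply hF2 (D.e z) hz
        rw [map_mul, map_intCast]; push_cast; ring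
    · rw [Ideal.span_singleton_le_iff_mem]
      have e1 : β ∈ D.Jd x.1 I.1 := by rw [h3]; exact Ideal.mem_span_singleton_self β
      have e2 : γ ∈ D.Jd (D.act hE I x).1 J.1 := by
        rw [k3]; exact Ideal.mem_span_singleton_self γ
      have claim : ∀ b : Lm t m, D.e b ∈ J.1 → β * ph x.1 b ∈ D.Jd x.1 (I.1 * J.1) := by
        intro b hb
        have : ∀ y ∈ D.Jd x.1 I.1, y * ph x.1 b ∈ D.Jd x.1 (I.1 * J.1) := by
          intro y hy
          induction hy using Submodule.span_induction with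
          | mem y hy =>
            obtain ⟨a, ha, rfl⟩ := hy
            rw [← ph_mul htx hmx]
            apply D.ph_mem_Jd
            rw [map_mul]; exact Ideal.mul_mem_mul ha hb
          | zero => rw [zero_mul]; exact Submodule.zero_mem _
          | add a b _ _ ha hb => rw [add_mul]; exact Submodule.add_mem _ ha hb
          | smul r a _ ha =>
            rw [smul_eq_mul, mul_assoc]
            exact Submodule.smul_mem _ r ha
        exact this β e1
      have claim2 : ∀ y ∈ D.Jd (D.act hE I x).1 J.1, y * β ∈ D.Jd x.1 (I.1 * J.1) := by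
        intro y hy
        induction hy using Submodule.span_induction with
        | mem y hy =>
          obtain ⟨b, hb, rfl⟩ := hy
          rw [← ph_conj_rel h4]
          exact claim b hb
        | zero => rw [zero_mul]; exact Submodule.zero_mem _
        | add a b _ _ ha hb => rw [add_mul]; exact Submodule.add_mem _ ha hb
        | smul r a _ ha =>
          rw [smul_eq_mul, mul_assoc]
          exact Submodule.smul_mem _ r ha
      exact claim2 γ e2
  · rw [mul_assoc, h4, ← mul_assoc, k4, mul_assoc]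

/-- integers congruent to one act trivially -/
theorem act_int {n : ℤ} (hn : D.F ∣ n - 1) (hmem : Ideal.span {(n : O)} ∈ D.Cmon)
    (x : {x // x ∈ E}) : D.act hE ⟨Ideal.span {(n : O)}, hmem⟩ x = x := by
  have htx := hE.tr _ x.2
  have hmx := hE.nrm _ x.2
  have hco := D.coprime_of_dvd_sub_one hn
  have hn0 : n ≠ 0 := by
    rintro rfl
    have := (D.cop22_of hco).isUnit_of_dvd' (dvd_zero (22 : ℤ)) dvd_rfl
    rw [Int.isUnit_iff] at this; omega
  apply Subtype.ext
  apply D.act_unique hE _ x (β := sc n)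
  · refine ⟨InO_sc n, ?_⟩
    rw [lam_sc]
    have : ((n : ℤ) : ZMod 11) = 1 := by
      have h1 : (11 : ℤ) ∣ n - 1 := by
        apply dvd_trans _ hn
        unfold F
        exact ⟨2 * (t ^ 2 - 4 * m), by ring⟩
      have h2 : ((n - 1 : ℤ) : ZMod 11) = 0 := by
        rw [ZMod.intCast_zmod_eq_zero_iff_dvd]; exact_mod_cast h1
      push_cast at h2
      linear_combination h2
    rw [this]; exact Sq_one
  · rw [nrm_sc]; exact hco.pow_left
  · apply le_antisymm
    · rw [Jd, Ideal.span_le]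
      rintro y ⟨z, hz, rfl⟩
      rw [SetLike.mem_coe, Ideal.mem_span_singleton']
      rw [Ideal.mem_span_singleton'] at hz
      obtain ⟨w, hw⟩ := hz
      obtain ⟨ζ, hζ⟩ := D.exists_e w
      obtain ⟨A, B, hAB⟩ := hco
      have h1 : ((D.F : ℤ) : Lm t m) * z = (n : Lm t m) * ζ := by
        apply D.e_inj
        rw [map_mul, map_mul, map_intCast, map_intCast, hζ, ← hw]; ring
      have h2 : sc D.F * ph x.1 z = sc n * ph x.1 ζ := by
        rw [← ph_int (t := t) (m := m) (x := x.1), ← ph_mul htx hmx, h1, ph_mul htx hmx, ph_int]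
      refine ⟨sc A * ph x.1 z + sc B * ph x.1 ζ, ?_⟩
      have h3 : ph x.1 z = sc (A * n + B * D.F) * ph x.1 z := by rw [hAB, map_one, one_mul]
      conv_rhs => rw [h3]
      rw [map_add, map_mul, map_mul, add_mul, add_mul, mul_assoc (sc B) (sc D.F), h2,
        mul_assoc, mul_assoc, mul_assoc, ← sc_comm n (ph x.1 z), ← sc_comm n (ph x.1 ζ)]
    · rw [Ideal.span_singleton_le_iff_mem, ← ph_int (t := t) (m := m) (x := x.1)]
      apply D.ph_mem_Jd
      rw [map_intCast]
      exact Ideal.mem_span_singleton_self _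
  · rw [sc_comm]

theorem act_one (x : {x // x ∈ E}) : D.act hE 1 x = x := by
  have h1 : Ideal.span {((1 : ℤ) : O)} ∈ D.Cmon := by
    rw [Int.cast_one, Ideal.span_singleton_one, ← Ideal.one_eq_top]; exact D.Cmon.one_mem
  have h := D.act_int hE (n := 1) (by simp) h1 x
  have h2 : (⟨Ideal.span {((1 : ℤ) : O)}, h1⟩ : D.Cmon) = 1 := by
    apply Subtype.ext
    show Ideal.span {((1 : ℤ) : O)} = 1
    rw [Int.cast_one, Ideal.span_singleton_one, Ideal.one_eq_top]
  rwa [h2] at h

/-- every ideal prime to the modulus has a complement -/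
theorem exists_inv (I : D.Cmon) : ∃ (J : D.Cmon) (n : ℤ), D.F ∣ n - 1 ∧
    (I * J : D.Cmon).1 = Ideal.span {(n : O)} := by
  obtain ⟨n, hn, hn'⟩ := D.exists_int I.2
  have h1 : I.1 ∣ Ideal.span {(n : O)} := by
    rw [Ideal.dvd_span_singleton]; exact hn
  obtain ⟨J, hJ⟩ := h1
  have hJm : J ∈ D.Cmon := by
    rw [mem_Cmon, Ideal.isCoprime_iff_exists]
    have h2 : (n : O) ∈ J := by
      have : Ideal.span {(n : O)} ≤ J := by
        rw [hJ]; exact (Ideal.mul_le_right : I.1 * J ≤ J)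
      exact this (Ideal.mem_span_singleton_self _)
    obtain ⟨k, hk⟩ := hn'
    refine ⟨(n : O), h2, -((D.F : O) * (k : O)), ?_, ?_⟩
    · rw [neg_mem_iff]
      exact Ideal.mul_mem_right _ _ (Ideal.mem_span_singleton_self _)
    · have : (n : O) - 1 = (D.F : O) * k := by
        have := congrArg (Int.cast : ℤ → O) hk
        push_cast at this; exact this
      linear_combination this
  exact ⟨⟨J, hJm⟩, n, hn', hJ.symm⟩

/-! ### stabilisers are principal -/

theorem nrm_ph {x : Hz ℤ} (ht : tr x = t) (hm : nrm x = m) (z : Lm t m) :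
    nrm (ph x z) = QuadraticAlgebra.norm z := by
  have : nrm (ph x z) = z.re ^ 2 + z.re * z.im * tr x + z.im ^ 2 * nrm x := by
    unfold ph
    simp only [nrm, tr, add_a, add_b, add_c, add_d, mul_a, mul_b, mul_c, mul_d, sc_a, sc_b, sc_c,
      sc_d]
    ring
  rw [this, ht, hm, QuadraticAlgebra.norm_def]; ring

include D in
theorem Lm_int_mul (c : ℤ) (z : Lm t m) (x : Hz ℤ) : ph x ((c : Lm t m) * z) = sc c * ph x z := by
  unfold ph
  rw [QuadraticAlgebra.re_mul, QuadraticAlgebra.im_mul, QuadraticAlgebra.re_intCast,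
    QuadraticAlgebra.im_intCast]
  simp only [map_add, map_mul, map_zero, mul_add, zero_mul, mul_zero, add_zero, Int.cast_id]
  rw [mul_assoc]

theorem stab_principal (I : D.Cmon) (x : {x // x ∈ E}) (h : D.act hE I x = x) :
    ∃ b : O, I.1 = Ideal.span {b} := by
  have htx := hE.tr _ x.2
  have hmx := hE.nrm _ x.2
  obtain ⟨β, h1, h2, h3, h4⟩ := D.act_spec hE I x
  rw [h] at h4
  have hF0 := D.F0_ne
  have h4F : (4 * (t ^ 2 - 4 * m)) ≠ 0 := mul_ne_zero (by norm_num) hF0
  obtain ⟨c, hc⟩ : ∃ c : ℤ, c = 4 * (t ^ 2 - 4 * m) := ⟨_, rfl⟩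
  obtain ⟨ζ, hζ⟩ := commuting htx hmx h4
  rw [← hc] at h4F hζ
  have hcO := D.int_ne h4F
  obtain ⟨b, hb⟩ := D.transfer htx hmx h4F hζ
  obtain ⟨J, n, hn, hIJ⟩ := D.exists_inv I
  have hco := D.coprime_of_dvd_sub_one hn
  have hn0 : n ≠ 0 := by
    rintro rfl
    have := (D.cop22_of hco).isUnit_of_dvd' (dvd_zero (22 : ℤ)) dvd_rfl
    rw [Int.isUnit_iff] at this; omega
  have hnO := D.int_ne hn0
  have hIJ' : I.1 * J.1 = Ideal.span {(n : O)} := hIJ
  have hnI : (n : O) ∈ I.1 := by
    have : Ideal.span {(n : O)} ≤ I.1 := by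
      rw [← hIJ']; exact (Ideal.mul_le_left : I.1 * J.1 ≤ I.1)
    exact this (Ideal.mem_span_singleton_self _)
  -- claim 1 : `F b d ∈ (n)` for `d ∈ J`
  have c1 : ∀ d ∈ J.1, (D.F : O) * b * d ∈ Ideal.span {(n : O)} := by
    intro d hd
    obtain ⟨δ, hδ⟩ := D.exists_e d
    have hmem : ∀ y ∈ D.Jd x.1 I.1, sc n ∣ y * ph x.1 δ := by
      intro y hy
      induction hy using Submodule.span_induction with
      | mem y hy =>
        obtain ⟨a, ha, rfl⟩ := hy
        have h5 : D.e a * d ∈ Ideal.span {(n : O)} := by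
          rw [← hIJ']; exact Ideal.mul_mem_mul ha hd
        rw [Ideal.mem_span_singleton'] at h5
        obtain ⟨g, hg⟩ := h5
        obtain ⟨γ, hγ⟩ := D.exists_e g
        have h6 : a * δ = (n : Lm t m) * γ := by
          apply D.e_inj
          rw [map_mul, map_mul, map_intCast, hδ, hγ]
          linear_combination (-(D.F : O)) * hg
        rw [← ph_mul htx hmx, h6, D.Lm_int_mul]
        exact dvd_mul_right _ _
      | zero => rw [zero_mul]; exact dvd_zero _
      | add a b _ _ ha hb => rw [add_mul]; exact sc_dvd_add ha hb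
      | smul r a _ ha => rw [smul_eq_mul, mul_assoc]; exact sc_dvd_mul_left _ ha
    obtain ⟨μ, hμ⟩ := hmem β (by rw [h3]; exact Ideal.mem_span_singleton_self β)
    have h7 : sc (c * n) * μ = ph x.1 (ζ * δ) := by
      rw [ph_mul htx hmx, ← hζ, mul_assoc, hμ, map_mul, mul_assoc]
    obtain ⟨w, hw⟩ := D.transfer htx hmx (mul_ne_zero h4F hn0) h7
    rw [map_mul, ← hb, hδ] at hw
    rw [Ideal.mem_span_singleton']
    refine ⟨w, ?_⟩
    apply mul_left_cancel₀ hcO
    push_cast at hw
    linear_combination hw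
  have hJ0 : J.1 ≠ 0 := by
    intro h0
    rw [h0, mul_zero] at hIJ'
    have := Ideal.span_singleton_eq_bot.1 hIJ'.symm
    exact hnO this
  have c2 : (D.F : O) * b ∈ I.1 := by
    have h8 : Ideal.span {(D.F : O) * b} * J.1 ≤ I.1 * J.1 := by
      rw [hIJ', Ideal.span_singleton_mul_le_iff]
      exact c1
    rw [← Ideal.dvd_iff_le] at h8
    have h9 := (mul_dvd_mul_iff_right hJ0).1 h8
    rw [Ideal.dvd_span_singleton] at h9
    exact h9
  have c3 : b ∈ I.1 := by
    obtain ⟨A, B, hAB⟩ := hco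
    have : b = (A : O) * b * (n : O) + (B : O) * ((D.F : O) * b) := by
      have h10 := congrArg (Int.cast : ℤ → O) hAB
      push_cast at h10
      linear_combination (-b) * h10
    rw [this]
    exact I.1.add_mem (I.1.mul_mem_left _ hnI) (I.1.mul_mem_left _ c2)
  -- norm of `b`
  have hbn : b * D.σ b = ((nrm β : ℤ) : O) := by
    have h11 := D.e_mul_star ζ
    rw [← hb, map_mul, map_intCast, ← nrm_ph htx hmx, ← hζ, nrm_mul, nrm_sc] at h11
    apply mul_left_cancel₀ (mul_ne_zero hcO hcO)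
    push_cast at h11
    linear_combination h11
  have hβn : nrm β ≠ 0 := by
    intro h0
    rw [h0] at h2
    have := (D.cop22_of h2).isUnit_of_dvd' (dvd_zero (22 : ℤ)) dvd_rfl
    rw [Int.isUnit_iff] at this; omega
  have hσb : D.σ b ≠ 0 := by
    intro h0
    rw [h0, mul_zero] at hbn
    exact D.int_ne hβn hbn.symm
  refine ⟨b, le_antisymm ?_ ?_⟩
  · intro d hd
    obtain ⟨δ, hδ⟩ := D.exists_e d
    have h12 : ph x.1 δ ∈ D.Jd x.1 I.1 := by
      apply D.ph_mem_Jd; rw [hδ]; exact I.1.mul_mem_left _ hd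
    rw [h3, Ideal.mem_span_singleton'] at h12
    obtain ⟨z, hz⟩ := h12
    have h13 : sc (c * nrm β) * z = ph x.1 (δ * star ζ) := by
      rw [ph_mul htx hmx, ← conj_ph htx, ← hζ, Hz.conj_mul, conj_sc, ← hz, ← sc_comm,
        ← mul_assoc, ← sc_comm, mul_assoc, mul_assoc, mul_conj, map_mul, mul_assoc,
        ← sc_comm (nrm β) z]
    obtain ⟨w, hw⟩ := D.transfer htx hmx (mul_ne_zero h4F hβn) h13
    rw [map_mul, D.e_star, ← hb, hδ, map_mul, map_intCast] at hw
    have h14 : b * w = (D.F : O) * d := by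
      apply mul_left_cancel₀ (mul_ne_zero hcO hσb)
      push_cast at hw
      rw [← hbn] at hw
      linear_combination hw
    obtain ⟨A, B, hAB⟩ := h2
    rw [Ideal.mem_span_singleton']
    refine ⟨(A : O) * D.σ b * d + (B : O) * w, ?_⟩
    have h10 := congrArg (Int.cast : ℤ → O) hAB
    push_cast at h10
    rw [← hbn] at h10
    linear_combination d * h10 + (B : O) * h14
  · rw [Ideal.span_singleton_le_iff_mem]; exact c3

end act

end QData

end Pool.Agent.CycSyl
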