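import Pool.Agent.CycSyl.Level

/-!
Counting normalised elements of given norm in the level 11 order, with multiplicative weights.
-/

set_option autoImplicit false

namespace Pool.Agent.CycSyl

open Hz Finset

/-- elements of the level 11 order whose norm is prime to 22 -/
def Adm (x : Hz ℤ) : Prop := InO x ∧ IsCoprime (nrm x) 22

/-- a multiplicative weight -/
structure Wt (R : Type*) [CommRing R] where
  g : Hz ℤ → R
  mul : ∀ x y, Adm x → Adm y → g (x * y) = g x * g y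
  neg : ∀ x, Adm x → g (-x) = g x
  conj : ∀ x, Adm x → g x * g (Hz.conj x) = 1
  int : ∀ n : ℤ, IsCoprime n 22 → g (sc n) = 1

theorem Adm_mul {x y : Hz ℤ} (hx : Adm x) (hy : Adm y) : Adm (x * y) :=
  ⟨InO_mul hx.1 hy.1, by rw [nrm_mul]; exact hx.2.mul_left hy.2⟩
theorem Adm_conj {x : Hz ℤ} (hx : Adm x) : Adm (Hz.conj x) :=
  ⟨InO_conj hx.1, by rw [nrm_conj]; exact hx.2⟩
theorem Adm_neg {x : Hz ℤ} (hx : Adm x) : Adm (-x) :=
  ⟨InO_neg hx.1, by rw [nrm_neg]; exact hx.2⟩
theorem Adm_sc {n : ℤ} (hn : IsCoprime n 22) : Adm (sc n) :=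
  ⟨InO_sc n, by rw [nrm_sc]; exact hn.pow_left⟩

theorem cop11 {n : ℤ} (hn : IsCoprime n 22) : ((n : ℤ) : ZMod 11) ≠ 0 := by
  intro h
  rw [ZMod.intCast_zmod_eq_zero_iff_dvd] at h
  have h2 : IsCoprime n 11 := by
    apply hn.of_isCoprime_of_dvd_right
    exact ⟨2, by norm_num⟩
  have : IsUnit ((11 : ℕ) : ℤ) := h2.isUnit_of_dvd' h (by norm_num)
  rw [Int.isUnit_iff] at this
  omega

theorem cop22 {n : ℕ} (hn : n.Coprime 22) : IsCoprime (n : ℤ) 22 := by
  have := Nat.isCoprime_iff_coprime.2 hn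
  exact_mod_cast this

/-! ### the finite sets -/

theorem finite_X (n : ℕ) : {x : Hz ℤ | OP x ∧ nrm x = n}.Finite := by
  let B : ℤ := 4 * n + 4
  apply Set.Finite.subset (s := (fun p : ℤ × ℤ × ℤ × ℤ => (⟨p.1, p.2.1, p.2.2.1, p.2.2.2⟩ : Hz ℤ)) ''
    (Set.Icc (-B) B ×ˢ Set.Icc (-B) B ×ˢ Set.Icc (-B) B ×ˢ Set.Icc (-B) B))
  · apply Set.Finite.image
    exact (Set.finite_Icc _ _).prod ((Set.finite_Icc _ _).prod ((Set.finite_Icc _ _).prod
      (Set.finite_Icc _ _)))
  · rintro x ⟨_, hx⟩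
    refine ⟨(x.a, x.b, x.c, x.d), ?_, rfl⟩
    have h4 := four_nrm x
    rw [hx] at h4
    have hn : (0 : ℤ) ≤ n := by positivity
    have h0 := sq_nonneg (2 * x.a + x.d)
    have h1 := sq_nonneg (2 * x.b + x.d)
    have h2 := sq_nonneg (2 * x.c + x.d)
    have h3 := sq_nonneg x.d
    have hb : (4 : ℤ) * n ≤ (2 * n + 1) ^ 2 := by nlinarith
    have e0 := abs_le_of_sq (z := 2 * x.a + x.d) (n := 2 * n + 1) (by linarith) (by linarith)
    have e1 := abs_le_of_sq (z := 2 * x.b + x.d) (n := 2 * n + 1) (by linarith) (by linarith)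
    have e2 := abs_le_of_sq (z := 2 * x.c + x.d) (n := 2 * n + 1) (by linarith) (by linarith)
    have e3 := abs_le_of_sq (z := x.d) (n := 2 * n + 1) (by linarith) (by linarith)
    simp only [Set.mem_prod, Set.mem_Icc, B]
    omega

/-- normalised elements of norm `n` -/
noncomputable def X (n : ℕ) : Finset (Hz ℤ) := (finite_X n).toFinset

theorem mem_X {n : ℕ} {x : Hz ℤ} : x ∈ X n ↔ OP x ∧ nrm x = n := by
  simp [X]

theorem Adm_of_mem {n : ℕ} (hn : n.Coprime 22) {x : Hz ℤ} (hx : x ∈ X n) : Adm x := by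
  rw [mem_X] at hx
  exact ⟨hx.1.1, by rw [hx.2]; exact cop22 hn⟩

/-- the sign making `s` a square modulo 11 -/
def eps (s : ℕ) : ℤ := if Sq (s : ZMod 11) then 1 else -1

theorem eps_or (s : ℕ) : eps s = 1 ∨ eps s = -1 := by unfold eps; split_ifs <;> simp
theorem eps_sq (s : ℕ) : eps s * eps s = 1 := by rcases eps_or s with h | h <;> rw [h] <;> norm_num
theorem Sq_eps {s : ℕ} (h : (s : ZMod 11) ≠ 0) : Sq ((eps s : ℤ) * (s : ZMod 11)) := by
  unfold eps
  split_ifs with h1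
  · simpa using h1
  · rcases Sq_or h with h2 | h2
    · exact absurd h2 h1
    · simpa using h2

section sums

variable {R : Type*} [CommRing R] (w : Wt R)

theorem Wt.g_eps_mul {s : ℕ} {x : Hz ℤ} (hx : Adm x) : w.g (sc (eps s) * x) = w.g x := by
  rcases eps_or s with h | h
  · rw [h, map_one, one_mul]
  · rw [h, map_neg, map_one, neg_one_mul, w.neg x hx]

theorem Wt.g_one : w.g 1 = 1 := by
  have := w.int 1 (isCoprime_one_left)
  rwa [map_one] at this

open Classical in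
/-- weighted count of normalised elements of norm `n` with property `P` -/
noncomputable def T (P : Hz ℤ → Prop) (n : ℕ) : R := ∑ x ∈ (X n).filter P, w.g x

theorem T_def (P : Hz ℤ → Prop) [DecidablePred P] (n : ℕ) :
    T w P n = ∑ x ∈ (X n).filter P, w.g x := by
  unfold T
  congr!

theorem T_congr {P Q : Hz ℤ → Prop} {n : ℕ} (h : ∀ x ∈ X n, (P x ↔ Q x)) : T w P n = T w Q n := by
  classical
  rw [T_def, T_def, Finset.filter_congr h]

theorem T_zero {P : Hz ℤ → Prop} {n : ℕ} (h : ∀ x ∈ X n, ¬ P x) : T w P n = 0 := by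
  classical
  rw [T_def, Finset.filter_false_of_mem h, Finset.sum_empty]

theorem T_split (P Q : Hz ℤ → Prop) (n : ℕ) :
    T w P n = T w (fun x => P x ∧ Q x) n + T w (fun x => P x ∧ ¬ Q x) n := by
  classical
  rw [T_def, T_def, T_def, ← Finset.sum_filter_add_sum_filter_not _ Q, Finset.filter_filter,
    Finset.filter_filter]

theorem T_one (P : Hz ℤ → Prop) (hP : P 1) : T w P 1 = 1 := by
  classical
  have : (X 1).filter P = {1} := by
    ext x
    simp only [Finset.mem_filter, mem_X, Finset.mem_singleton]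
    constructor
    · rintro ⟨⟨h1, h2⟩, _⟩
      have h3 : OP (x * 1) := by rwa [mul_one]
      exact unit_OP (y := 1) (by rw [nrm_one]; decide) OP_one (by simpa using h2) h3
    · rintro rfl
      exact ⟨⟨OP_one, by rw [nrm_one]; norm_num⟩, hP⟩
  rw [T_def, this, Finset.sum_singleton, w.g_one]

/-- the invariance needed of the side conditions -/
structure PInv (s : ℕ) (P : Hz ℤ → Prop) : Prop where
  neg : ∀ x : Hz ℤ, P (-x) ↔ P x
  sc : ∀ x : Hz ℤ, P (Hz.sc (s : ℤ) * x) ↔ P x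
  conj : ∀ x y : Hz ℤ, nrm y = (s : ℤ) → (P (Hz.conj y * x * y) ↔ P x)

theorem PInv_eps {s : ℕ} {P : Hz ℤ → Prop} (hP : PInv s P) (x : Hz ℤ) (t : ℕ) :
    P (Hz.sc (eps t) * x) ↔ P x := by
  rcases eps_or t with h | h
  · rw [h, map_one, one_mul]
  · rw [h, map_neg, map_one, neg_one_mul, hP.neg]

theorem PInv_true (s : ℕ) : PInv s (fun _ => True) := ⟨by simp, by simp, by simp⟩

theorem tr_conj_mul_mul (x y : Hz ℤ) : tr (Hz.conj y * x * y) = nrm y * tr x := by
  rw [tr_mul_comm, ← mul_assoc, mul_conj, tr_sc_mul]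

theorem PInv_dvd {s q : ℕ} (hs : s.Coprime q) : PInv s (fun x => (q : ℤ) ∣ tr x) := by
  have hc : IsCoprime (q : ℤ) (s : ℤ) := (Nat.isCoprime_iff_coprime.2 hs).symm
  refine ⟨fun x => by rw [tr_neg, dvd_neg], fun x => ?_, fun x y hy => ?_⟩
  · rw [tr_sc_mul]
    exact ⟨fun h => hc.dvd_of_dvd_mul_left h, fun h => h.mul_left _⟩
  · rw [tr_conj_mul_mul, hy]
    exact ⟨fun h => hc.dvd_of_dvd_mul_left h, fun h => h.mul_left _⟩

theorem PInv_not {s : ℕ} {P : Hz ℤ → Prop} (h : PInv s P) : PInv s (fun x => ¬ P x) :=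
  ⟨fun x => not_congr (h.neg x), fun x => not_congr (h.sc x),
    fun x y hy => not_congr (h.conj x y hy)⟩

theorem cast11 {s : ℕ} (hs : s.Coprime 22) : (s : ZMod 11) ≠ 0 := by
  have := cop11 (cop22 hs)
  simpa using this

/-- scaling: the elements divisible by `s` -/
theorem T_scale {s : ℕ} (hs : s.Coprime 22) (hs0 : s ≠ 0) {n : ℕ} (hn : n.Coprime 22)
    {P : Hz ℤ → Prop} (hP : PInv s P) :
    T w (fun x => P x ∧ sc (s : ℤ) ∣ x) (s * (s * n)) = T w P n := by
  classical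
  have hsz : (s : ℤ) ≠ 0 := by exact_mod_cast hs0
  rw [T_def, T_def]
  symm
  apply Finset.sum_nbij (fun z => sc (eps s) * (sc (s : ℤ) * z))
  · intro z hz
    simp only [Finset.mem_filter, mem_X] at hz ⊢
    obtain ⟨⟨⟨h1, h2⟩, h3⟩, h4⟩ := hz
    refine ⟨⟨⟨?_, ?_⟩, ?_⟩, ?_, ?_⟩
    · exact InO_mul (InO_sc _) (InO_mul (InO_sc _) h1)
    · rw [lam_mul (InO_sc _) (InO_mul (InO_sc _) h1), lam_mul (InO_sc _) h1, lam_sc, lam_sc,
        ← mul_assoc]
      exact Sq_mul (by have := Sq_eps (cast11 hs); simpa using this) h2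
    · rw [nrm_mul, nrm_mul, nrm_sc, nrm_sc, h3]
      have := eps_sq s
      push_cast
      linear_combination ((s : ℤ) ^ 2 * n) * this
    · rw [PInv_eps hP, hP.sc]; exact h4
    · exact sc_dvd_mul_left _ ⟨z, rfl⟩
  · intro z _ z' _ h
    have he : (eps s) ≠ 0 := by rcases eps_or s with h | h <;> rw [h] <;> norm_num
    exact sc_inj_mul hsz (sc_inj_mul he h)
  · intro x hx
    simp only [Finset.coe_filter, Set.mem_ofPred_eq, mem_X] at hx
    obtain ⟨⟨⟨h1, h2⟩, h3⟩, h4, z, hz⟩ := hx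
    refine ⟨sc (eps s) * z, ?_, ?_⟩
    · simp only [Finset.coe_filter, Set.mem_ofPred_eq, mem_X]
      have hzO : InO z := by
        apply InO_of_sc_mul (n := s) (by simpa using cast11 hs)
        rw [← hz]; exact h1
      refine ⟨⟨⟨InO_mul (InO_sc _) hzO, ?_⟩, ?_⟩, ?_⟩
      · rw [lam_mul (InO_sc _) hzO, lam_sc]
        rw [hz, lam_mul (InO_sc _) hzO, lam_sc] at h2
        apply Sq_div (a := (eps s : ℤ) * (s : ZMod 11)) (Sq_eps (cast11 hs))
        have := eps_sq s
        have h5 : ((eps s : ℤ) : ZMod 11) * ((eps s : ℤ) : ZMod 11) = 1 := by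
          rw [← Int.cast_mul, this, Int.cast_one]
        have h6 : ((eps s : ℤ) : ZMod 11) * (s : ZMod 11) * (((eps s : ℤ) : ZMod 11) * lam z) =
            ((s : ℤ) : ZMod 11) * lam z := by
          rw [Int.cast_natCast]
          linear_combination ((s : ZMod 11) * lam z) * h5
        rw [h6]; exact h2
      · have h7 : nrm x = s ^ 2 * nrm z := by rw [hz, nrm_mul, nrm_sc]
        rw [nrm_mul, nrm_sc]
        have := eps_sq s
        have h8 : (s : ℤ) ^ 2 * nrm z = s ^ 2 * n := by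
          rw [← h7, h3]; push_cast; ring
        have h9 := mul_left_cancel₀ (pow_ne_zero 2 hsz) h8
        rw [h9]
        linear_combination (n : ℤ) * this
      · rw [PInv_eps hP, ← hP.sc, ← hz]; exact h4
    · show sc (eps s) * (sc (s : ℤ) * (sc (eps s) * z)) = x
      rw [hz]
      have : sc (eps s) * (sc (s : ℤ) * (sc (eps s) * z)) =
          sc (eps s * eps s) * (sc (s : ℤ) * z) := by
        rw [map_mul, mul_assoc, ← mul_assoc (sc (s : ℤ)) (sc (eps s)) z,
          sc_comm (s : ℤ) (sc (eps s)), mul_assoc]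
      rw [this, eps_sq, map_one, one_mul]
  · intro z hz
    simp only [Finset.mem_filter] at hz
    have hz' := Adm_of_mem hn hz.1
    have h1 : Adm (sc (s : ℤ)) := Adm_sc (cop22 hs)
    rw [w.g_eps_mul (Adm_mul h1 hz'), w.mul _ _ h1 hz', w.int _ (cop22 hs), one_mul]

end sums

end Pool.Agent.CycSyl
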