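import Pool.Agent.CycSyl.Count

/-!
The Hecke relation and the rotation identity.
-/

set_option autoImplicit false

namespace Pool.Agent.CycSyl

open Hz Finset

theorem LM_of_sc_dvd {s : ℕ} {b y : Hz ℤ} (hy : nrm y = (s : ℤ)) (h : sc (s : ℤ) ∣ b) : LM b y := by
  obtain ⟨z, rfl⟩ := h
  exact ⟨z * conj y, by rw [mul_assoc, conj_mul_self, hy, sc_comm]⟩

theorem bezout {s : ℕ} (hs : s.Prime) {u y : Hz ℤ}
    (h1 : (s : ℤ) ∣ nrm u) (h2 : ¬ sc (s : ℤ) ∣ u) (hy : nrm y = (s : ℤ)) (h : LM u y) :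
    ∃ p q, y = p * u + q * sc (s : ℤ) := by
  have hs0 : (s : ℤ) ≠ 0 := by exact_mod_cast hs.ne_zero
  obtain ⟨y0, hy0, hspan⟩ := exists_right hs h1 h2
  obtain ⟨z, hz⟩ := h
  have h3 : y0 ∈ Ideal.span {y} := by
    have h4 : Ideal.span {u} ⊔ Ideal.span {sc (s : ℤ)} ≤ Ideal.span {y} := by
      rw [sup_le_iff, Ideal.span_singleton_le_iff_mem, Ideal.span_singleton_le_iff_mem,
        Ideal.mem_span_singleton', Ideal.mem_span_singleton']
      exact ⟨⟨z, hz.symm⟩, ⟨conj y, by rw [conj_mul_self, hy]⟩⟩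
    apply h4
    rw [← hspan]; exact Ideal.mem_span_singleton_self y0
  obtain ⟨w, hw, hw'⟩ := span_eq_of_nrm hs0 hy0 hy h3
  have h5 : y = conj w * y0 := by rw [hw', ← mul_assoc, conj_mul_self, hw, map_one, one_mul]
  have h6 : y ∈ Ideal.span {u} ⊔ Ideal.span {sc (s : ℤ)} := by
    rw [← hspan, Ideal.mem_span_singleton']; exact ⟨conj w, h5.symm⟩
  rw [Submodule.mem_sup] at h6
  obtain ⟨p, hp, q, hq, hpq⟩ := h6
  rw [Ideal.mem_span_singleton'] at hp hq
  obtain ⟨a, rfl⟩ := hp
  obtain ⟨b, rfl⟩ := hq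
  exact ⟨a, b, hpq.symm⟩

theorem sq_dvd_of {s : ℤ} {x : Hz ℤ} (h1 : s ∣ nrm x) (h2 : s ∣ tr x) : sc s ∣ x * x := by
  rw [mul_self_eq]
  obtain ⟨a, ha⟩ := h1
  obtain ⟨b, hb⟩ := h2
  rw [ha, hb]
  exact ⟨sc b * x - sc a, by rw [mul_sub, ← mul_assoc, ← map_mul, ← map_mul]⟩

/-- if `s` divides the trace then the left and right divisors agree -/
theorem key_left {s : ℕ} (hs : s.Prime) (h11 : s ≠ 11) {x y : Hz ℤ}
    (h1 : (s : ℤ) ∣ nrm x) (h2 : ¬ sc (s : ℤ) ∣ x) (h3 : (s : ℤ) ∣ tr x) (hy : OP y)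
    (hyn : nrm y = (s : ℤ)) (h : LM x y) : ∃ w, x = conj y * w := by
  have hs0 : (s : ℤ) ≠ 0 := by exact_mod_cast hs.ne_zero
  obtain ⟨y', ⟨⟨hy', hyn'⟩, z', hz'⟩, _⟩ := existsUnique_left hs h11 h1 h2
  have hLM : LM (conj x) y' := ⟨conj z', by rw [hz', Hz.conj_mul, conj_conj]⟩
  obtain ⟨p, q, hpq⟩ := bezout hs (u := conj x) (by rw [nrm_conj]; exact h1)
    (by rw [sc_dvd_conj_iff]; exact h2) hyn' hLM
  have h4 : conj y' = x * conj p + sc (s : ℤ) * conj q := by
    rw [hpq, conj_add, Hz.conj_mul, Hz.conj_mul, conj_conj, conj_sc]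
  have h5 : sc (s : ℤ) ∣ x * conj y' := by
    rw [h4, mul_add, ← mul_assoc]
    exact sc_dvd_add (sc_dvd_mul_right _ (sq_dvd_of h1 h3)) (sc_dvd_mul_left _ ⟨_, rfl⟩)
  obtain ⟨u, hu⟩ := h5
  have h6 : x = u * y' := by
    apply sc_inj_mul hs0
    rw [← mul_assoc, ← hu, mul_assoc, conj_mul_self, hyn', sc_comm]
  have h7 : y' = y :=
    (existsUnique_right hs h11 h1 h2).unique ⟨⟨hy', hyn'⟩, u, h6⟩ ⟨⟨hy, hyn⟩, h⟩
  exact ⟨z', by rw [← h7]; exact hz'⟩

section sums

variable {R : Type*} [CommRing R] (w : Wt R)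

open Classical in
theorem card_LM {s : ℕ} (hs : s.Prime) (h11 : s ≠ 11) {b : Hz ℤ} (hb : (s : ℤ) ∣ nrm b) :
    ((X s).filter (fun y => LM b y)).card = if sc (s : ℤ) ∣ b then (X s).card else 1 := by
  split_ifs with h
  · congr 1
    rw [Finset.filter_eq_self]
    intro y hy
    exact LM_of_sc_dvd (mem_X.1 hy).2 h
  · obtain ⟨y, ⟨⟨hy, hyn⟩, hL⟩, huniq⟩ := existsUnique_right hs h11 hb h
    rw [Finset.card_eq_one]
    refine ⟨y, ?_⟩
    ext y'
    simp only [Finset.mem_filter, mem_X, Finset.mem_singleton]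
    constructor
    · intro h'; exact huniq y' h'
    · rintro rfl; exact ⟨⟨hy, hyn⟩, hL⟩

theorem cop_mul {m n : ℕ} (hm : m.Coprime 22) (hn : n.Coprime 22) : (m * n).Coprime 22 :=
  Nat.Coprime.mul_left hm hn

theorem ne11_of {s : ℕ} (hs : s.Coprime 22) : s ≠ 11 := by
  rintro rfl; revert hs; decide

/-- Hecke relation, raw form. -/
theorem T_mul_T {s : ℕ} (hs : s.Prime) (hs22 : s.Coprime 22) {m : ℕ} (hm : m.Coprime 22) :
    T w (fun _ => True) m * T w (fun _ => True) s = T w (fun _ => True) (s * m) +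
      (((X s).card : R) - 1) * T w (fun x => True ∧ sc (s : ℤ) ∣ x) (s * m) := by
  classical
  have h11 := ne11_of hs22
  have hs0 : (s : ℤ) ≠ 0 := by exact_mod_cast hs.ne_zero
  have step1 : T w (fun _ => True) m * T w (fun _ => True) s =
      ∑ y ∈ X s, ∑ b ∈ (X (s * m)).filter (fun b => LM b y), w.g b := by
    rw [T_def, T_def, Finset.filter_true, Finset.filter_true, Finset.sum_mul_sum,
      Finset.sum_comm]
    apply Finset.sum_congr rfl
    intro y hy
    have hy' := mem_X.1 hy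
    have hyA := Adm_of_mem hs22 hy
    apply Finset.sum_nbij (fun x => x * y)
    · intro x hx
      rw [mem_X] at hx
      rw [Finset.mem_filter, mem_X]
      refine ⟨⟨OP_mul hx.1 hy'.1, ?_⟩, x, rfl⟩
      rw [nrm_mul, hx.2, hy'.2]; push_cast; ring
    · intro x _ x' _ h
      have hy0 : y ≠ 0 := by
        rintro rfl; rw [nrm_zero] at hy'; exact hs0 hy'.2.symm
      exact mul_right_cancel₀ hy0 h
    · intro b hb
      simp only [Finset.coe_filter, Set.mem_ofPred_eq, mem_X] at hb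
      obtain ⟨⟨hb1, hb2⟩, x, hx⟩ := hb
      have hyn0 : ((nrm y : ℤ) : ZMod 11) ≠ 0 := by rw [hy'.2]; exact zmod_ne_zero_of_prime hs h11
      have hxO : InO x := by
        apply InO_left hy'.1.1 hyn0
        rw [← hx]; exact hb1.1
      refine ⟨x, ?_, hx.symm⟩
      simp only [Finset.mem_coe, mem_X]
      refine ⟨⟨hxO, ?_⟩, ?_⟩
      · apply Sq_div' (b := lam y) hy'.1.2
        rw [← lam_mul hxO hy'.1.1, ← hx]; exact hb1.2
      · have : nrm x * s = m * s := by
          rw [← hy'.2, ← nrm_mul, ← hx, hb2, hy'.2]; push_cast; ring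
        exact mul_right_cancel₀ hs0 this
    · intro x hx
      rw [w.mul _ _ (Adm_of_mem hm hx) hyA]
  have step2 : ∑ y ∈ X s, ∑ b ∈ (X (s * m)).filter (fun b => LM b y), w.g b =
      ∑ b ∈ X (s * m), (if sc (s : ℤ) ∣ b then ((X s).card : R) else 1) * w.g b := by
    simp only [Finset.sum_filter]
    rw [Finset.sum_comm]
    apply Finset.sum_congr rfl
    intro b hb
    rw [← Finset.sum_filter, Finset.sum_const, card_LM hs h11, nsmul_eq_mul]
    · push_cast; rfl
    · rw [(mem_X.1 hb).2]; push_cast; exact dvd_mul_right _ _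
  rw [step1, step2, T_def, T_def, Finset.filter_true, Finset.sum_filter, Finset.mul_sum,
    ← Finset.sum_add_distrib]
  apply Finset.sum_congr rfl
  intro b _
  by_cases h : sc (s : ℤ) ∣ b
  · simp only [h, if_true, and_true, true_and]; ring
  · simp only [h, if_false, and_false]; ring

/-- Hecke relation, `s` not dividing `m`. -/
theorem hecke1 {s : ℕ} (hs : s.Prime) (hs22 : s.Coprime 22) {m : ℕ} (hm : m.Coprime 22)
    (hsm : ¬ s ∣ m) :
    T w (fun _ => True) m * T w (fun _ => True) s = T w (fun _ => True) (s * m) := by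
  rw [T_mul_T w hs hs22 hm, T_zero w (P := fun x => True ∧ sc (s : ℤ) ∣ x), mul_zero, add_zero]
  rintro x hx ⟨_, h⟩
  apply hsm
  have h1 := sc_dvd_nrm h
  rw [(mem_X.1 hx).2, sq] at h1
  have h2 : s * s ∣ s * m := by exact_mod_cast h1
  exact Nat.dvd_of_mul_dvd_mul_left hs.pos h2

theorem hecke2 {s : ℕ} (hs : s.Prime) (hs22 : s.Coprime 22) {n : ℕ} (hn : n.Coprime 22) :
    T w (fun _ => True) (s * n) * T w (fun _ => True) s = T w (fun _ => True) (s * (s * n)) +
      (((X s).card : R) - 1) * T w (fun _ => True) n := by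
  rw [T_mul_T w hs hs22 (cop_mul hs22 hn), T_scale w hs22 hs.ne_zero hn (PInv_true s)]

/-! ### the rotation identity -/

/-- normalised conjugate -/
def star' (s : ℕ) (y : Hz ℤ) : Hz ℤ := sc (eps s) * conj y

theorem star'_mem {s : ℕ} (hs : s.Coprime 22) {y : Hz ℤ} (hy : y ∈ X s) : star' s y ∈ X s := by
  rw [mem_X] at hy ⊢
  have hc := InO_conj hy.1.1
  refine ⟨⟨InO_mul (InO_sc _) hc, ?_⟩, ?_⟩
  · unfold star'
    rw [lam_mul (InO_sc _) hc, lam_sc]
    apply Sq_div (a := lam y) hy.1.2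
    have : lam y * (((eps s : ℤ) : ZMod 11) * lam (conj y)) = (eps s : ℤ) * (s : ZMod 11) := by
      have h := lam_mul_lam_conj hy.1.1
      rw [hy.2] at h
      rw [Int.cast_natCast] at h
      rw [← h]; ring
    rw [this]
    exact Sq_eps (cast11 hs)
  · unfold star'
    rw [nrm_mul, nrm_sc, nrm_conj, hy.2]
    have := eps_sq s
    linear_combination (s : ℤ) * this

theorem star'_star' (s : ℕ) (y : Hz ℤ) : star' s (star' s y) = y := by
  unfold star'
  rw [Hz.conj_mul, conj_conj, conj_sc, ← sc_comm, ← mul_assoc, ← map_mul, eps_sq, map_one, one_mul]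

theorem conj_star' (s : ℕ) (y : Hz ℤ) : conj (star' s y) = sc (eps s) * y := by
  unfold star'
  rw [Hz.conj_mul, conj_conj, conj_sc, ← sc_comm]

theorem same_divisor_iff {s : ℕ} (hs : s.Prime) (h11 : s ≠ 11) {z y1 y2 : Hz ℤ}
    (h1 : (s : ℤ) ∣ nrm z) (h2 : ¬ sc (s : ℤ) ∣ z) (hy1 : OP y1) (hn1 : nrm y1 = (s : ℤ))
    (hy2 : OP y2) (hn2 : nrm y2 = (s : ℤ)) (hL : LM z y1) (hR : ∃ u, z = conj y2 * u) :
    y1 = y2 ↔ (s : ℤ) ∣ tr z := by
  have hs' : Prime (s : ℤ) := Nat.prime_iff_prime_int.1 hs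
  constructor
  · rintro rfl
    obtain ⟨u, hu⟩ := hL
    obtain ⟨v, hv⟩ := hR
    have h3 : sc (s : ℤ) ∣ z * z := by
      have : z * z = u * (y1 * conj y1) * v := by
        conv_lhs => rw [hv]
        conv_lhs => lhs; rw [← hv, hu]
        simp only [mul_assoc]
      rw [this, mul_conj, hn1]
      exact sc_dvd_mul_right _ (sc_dvd_mul_left _ dvd_rfl)
    rw [mul_self_eq] at h3
    have h4 : sc (s : ℤ) ∣ sc (nrm z) := by
      obtain ⟨k, hk⟩ := h1
      rw [hk, map_mul]; exact dvd_mul_right _ _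
    have h5 : sc (s : ℤ) ∣ sc (tr z) * z := by
      have := sc_dvd_add h3 h4
      rwa [sub_add_cancel] at this
    by_contra h6
    apply h2
    rw [sc_dvd_iff] at h5 ⊢
    simp only [mul_a, mul_b, mul_c, mul_d, sc_a, sc_b, sc_c, sc_d, zero_mul, mul_zero, sub_zero,
      add_zero] at h5
    exact ⟨(hs'.dvd_or_dvd h5.1).resolve_left h6, (hs'.dvd_or_dvd h5.2.1).resolve_left h6,
      (hs'.dvd_or_dvd h5.2.2.1).resolve_left h6, (hs'.dvd_or_dvd h5.2.2.2).resolve_left h6⟩
  · intro h3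
    exact (existsUnique_left hs h11 h1 h2).unique
      ⟨⟨hy1, hn1⟩, key_left hs h11 h1 h2 h3 hy1 hn1 hL⟩ ⟨⟨hy2, hn2⟩, hR⟩

open Classical in
theorem card_e {s : ℕ} (hs : s.Prime) (hs22 : s.Coprime 22) {z : Hz ℤ}
    (h1 : (s : ℤ) ∣ nrm z) (h2 : ¬ sc (s : ℤ) ∣ z) :
    ((X s).filter (fun y => sc (s : ℤ) ∣ conj y * z * y)).card =
      if (s : ℤ) ∣ tr z then 1 else 2 := by
  have h11 := ne11_of hs22
  have hs0 : (s : ℤ) ≠ 0 := by exact_mod_cast hs.ne_zero
  obtain ⟨y1, ⟨⟨hy1, hn1⟩, hL⟩, hu1⟩ := existsUnique_right hs h11 h1 h2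
  obtain ⟨y2, ⟨⟨hy2, hn2⟩, hR⟩, hu2⟩ := existsUnique_left hs h11 h1 h2
  have hcard : ((X s).filter (fun y => sc (s : ℤ) ∣ conj y * z * y)).card =
      ({y1, y2} : Finset (Hz ℤ)).card := by
    apply Finset.card_nbij' (star' s) (star' s)
    · intro y hy
      simp only [Finset.coe_filter, Set.mem_ofPred_eq] at hy
      obtain ⟨hyX, hyd⟩ := hy
      have hyX' := mem_X.1 hyX
      have hsX := mem_X.1 (star'_mem hs22 hyX)
      simp only [Finset.coe_insert, Finset.coe_singleton, Set.mem_insert_iff,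
        Set.mem_singleton_iff]
      by_cases h : sc (s : ℤ) ∣ z * y
      · left
        obtain ⟨u, hu⟩ := h
        apply hu1
        refine ⟨hsX, u * sc (eps s), ?_⟩
        apply sc_inj_mul hs0
        have : sc (s : ℤ) * z = (z * y) * conj y := by
          rw [mul_assoc, mul_conj, hyX'.2, sc_comm]
        rw [this, hu]
        unfold star'
        rw [mul_assoc, mul_assoc u, ← mul_assoc (sc (eps s)), ← map_mul, eps_sq, map_one, one_mul]
      · right
        have h3 : (s : ℤ) ∣ nrm (z * y) := by rw [nrm_mul]; exact h1.mul_right _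
        obtain ⟨v, hv⟩ := hR
        obtain ⟨u, hu⟩ := hyd
        apply (existsUnique_left hs h11 h3 h).unique
        · refine ⟨hsX, sc (eps s) * u, ?_⟩
          rw [conj_star']
          have h4 : z * y = y * u := by
            apply sc_inj_mul hs0
            rw [← hyX'.2, ← mul_conj, mul_assoc, ← mul_assoc (conj y), hu, mul_conj, hyX'.2,
              ← mul_assoc, ← mul_assoc, sc_comm]
          rw [h4, mul_assoc, ← mul_assoc y, ← sc_comm, mul_assoc, ← mul_assoc (sc (eps s)),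
            ← map_mul, eps_sq, map_one, one_mul]
        · exact ⟨⟨hy2, hn2⟩, v * y, by rw [hv, mul_assoc]⟩
    · intro y hy
      simp only [Finset.coe_insert, Finset.coe_singleton, Set.mem_insert_iff,
        Set.mem_singleton_iff] at hy
      simp only [Finset.coe_filter, Set.mem_ofPred_eq]
      rcases hy with rfl | rfl
      · refine ⟨star'_mem hs22 (mem_X.2 ⟨hy1, hn1⟩), ?_⟩
        obtain ⟨u, hu⟩ := hL
        have : z * star' s y = sc (s : ℤ) * (u * sc (eps s)) := by
          unfold star'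
          rw [hu, mul_assoc, ← mul_assoc y, ← sc_comm (eps s) y, mul_assoc (sc (eps s)), mul_conj,
            hn1, ← mul_assoc u, sc_comm]
        rw [mul_assoc, this]
        exact sc_dvd_mul_left _ ⟨_, rfl⟩
      · refine ⟨star'_mem hs22 (mem_X.2 ⟨hy2, hn2⟩), ?_⟩
        obtain ⟨u, hu⟩ := hR
        have : conj (star' s y) * z = sc (s : ℤ) * (sc (eps s) * u) := by
          rw [conj_star', hu, mul_assoc, ← mul_assoc y, mul_conj, hn2, ← mul_assoc, ← mul_assoc,
            sc_comm]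
        rw [this]
        exact sc_dvd_mul_right _ ⟨_, rfl⟩
    · intro y _; exact star'_star' s y
    · intro y _; exact star'_star' s y
  rw [hcard]
  have := same_divisor_iff hs h11 h1 h2 hy1 hn1 hy2 hn2 hL hR
  split_ifs with h
  · rw [this.2 h]; simp
  · exact Finset.card_pair (fun h' => h (this.1 h'))

open Classical in
/-- rotation: elements of norm `s²n` with trace divisible by `s`, not divisible by `s`. -/
theorem T_rot {s : ℕ} (hs : s.Prime) (hs22 : s.Coprime 22) {n : ℕ} (hn : n.Coprime 22)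
    {P : Hz ℤ → Prop} (hP : PInv s P) :
    T w (fun x => (P x ∧ (s : ℤ) ∣ tr x) ∧ ¬ sc (s : ℤ) ∣ x) (s * (s * n)) =
      ∑ z ∈ (X n).filter P,
        ((((X s).filter (fun y => ¬ sc (s : ℤ) ∣ conj y * z * y)).card : ℕ) : R) * w.g z := by
  have h11 := ne11_of hs22
  have hs0 : (s : ℤ) ≠ 0 := by exact_mod_cast hs.ne_zero
  have step1 : T w (fun x => (P x ∧ (s : ℤ) ∣ tr x) ∧ ¬ sc (s : ℤ) ∣ x) (s * (s * n)) =
      ∑ y ∈ X s, ∑ x ∈ ((X (s * (s * n))).filter
        (fun x => (P x ∧ (s : ℤ) ∣ tr x) ∧ ¬ sc (s : ℤ) ∣ x)).filter (fun x => LM x y), w.g x := by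
    rw [T_def]
    simp only [Finset.sum_filter (p := fun x => LM x _)]
    rw [Finset.sum_comm]
    apply Finset.sum_congr rfl
    intro x hx
    simp only [Finset.mem_filter, mem_X] at hx
    rw [← Finset.sum_filter, Finset.sum_const, card_LM hs h11, if_neg hx.2.2, one_smul]
    rw [hx.1.2]; push_cast; exact dvd_mul_right _ _
  have step2 : ∀ y ∈ X s, ∑ x ∈ ((X (s * (s * n))).filter
        (fun x => (P x ∧ (s : ℤ) ∣ tr x) ∧ ¬ sc (s : ℤ) ∣ x)).filter (fun x => LM x y), w.g x =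
      ∑ z ∈ ((X n).filter P).filter (fun z => ¬ sc (s : ℤ) ∣ conj y * z * y), w.g z := by
    intro y hy
    have hy' := mem_X.1 hy
    have hyA := Adm_of_mem hs22 hy
    have hyn0 : ((nrm y : ℤ) : ZMod 11) ≠ 0 := by rw [hy'.2]; exact zmod_ne_zero_of_prime hs h11
    have hy0 : y ≠ 0 := by
      rintro rfl; rw [nrm_zero] at hy'; exact hs0 hy'.2.symm
    have hcy0 : conj y ≠ 0 := by
      intro h; rw [← nrm_eq_zero, nrm_conj, hy'.2] at h; exact hs0 h
    have he : (eps s) ≠ 0 := by rcases eps_or s with h | h <;> rw [h] <;> norm_num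
    symm
    apply Finset.sum_nbij (fun z => sc (eps s) * (conj y * z * y))
    · intro z hz
      simp only [Finset.mem_filter, mem_X] at hz ⊢
      obtain ⟨⟨⟨⟨hz1, hz2⟩, hz3⟩, hzP⟩, hzd⟩ := hz
      have hO : InO (conj y * z * y) := InO_mul (InO_mul (InO_conj hy'.1.1) hz1) hy'.1.1
      refine ⟨⟨⟨⟨InO_mul (InO_sc _) hO, ?_⟩, ?_⟩, ⟨?_, ?_⟩, ?_⟩, sc (eps s) * (conj y * z), ?_⟩
      · rw [lam_mul (InO_sc _) hO, lam_mul (InO_mul (InO_conj hy'.1.1) hz1) hy'.1.1,
          lam_mul (InO_conj hy'.1.1) hz1, lam_sc]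
        have h := lam_mul_lam_conj hy'.1.1
        rw [hy'.2, Int.cast_natCast] at h
        have : ((eps s : ℤ) : ZMod 11) * (lam (conj y) * lam z * lam y) =
            ((eps s : ℤ) * (s : ZMod 11)) * lam z := by
          rw [← h]; ring
        rw [this]
        exact Sq_mul (Sq_eps (cast11 hs22)) hz2
      · rw [nrm_mul, nrm_mul, nrm_mul, nrm_sc, nrm_conj, hz3, hy'.2]
        have := eps_sq s
        push_cast
        linear_combination ((s : ℤ) ^ 2 * n) * this
      · rw [PInv_eps hP, hP.conj _ _ hy'.2]; exact hzP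
      · rw [tr_sc_mul, tr_conj_mul_mul, hy'.2]
        exact (dvd_mul_right _ _).mul_left _
      · intro h
        apply hzd
        have h2 := sc_dvd_mul_left (sc (eps s)) h
        rwa [← mul_assoc, ← map_mul, eps_sq, map_one, one_mul] at h2
      · rw [← mul_assoc]
    · intro z _ z' _ h
      have h1 := sc_inj_mul he h
      have h2 := mul_right_cancel₀ hy0 h1
      exact mul_left_cancel₀ hcy0 h2
    · intro x hx
      simp only [Finset.coe_filter, Set.mem_ofPred_eq, Finset.mem_filter, mem_X] at hx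
      obtain ⟨⟨⟨⟨hx1, hx2⟩, hx3⟩, ⟨hxP, hxt⟩, hxd⟩, hxL⟩ := hx
      have hxn : (s : ℤ) ∣ nrm x := by rw [hx3]; push_cast; exact dvd_mul_right _ _
      obtain ⟨v, hv⟩ := key_left hs h11 hxn hxd hxt hy'.1 hy'.2 hxL
      have hvd : ¬ sc (s : ℤ) ∣ v := fun h => hxd (by rw [hv]; exact sc_dvd_mul_left _ h)
      have hvn : nrm v = s * n := by
        have h1 : (s : ℤ) * nrm v = s * (s * n) := by
          rw [← hy'.2, ← nrm_conj y, ← nrm_mul, ← hv, hx3, nrm_conj, hy'.2]; push_cast; ring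
        exact mul_left_cancel₀ hs0 h1
      obtain ⟨y', ⟨⟨hy'1, hy'2⟩, z, hz⟩, _⟩ :=
        existsUnique_right hs h11 (u := v) (by rw [hvn]; exact dvd_mul_right _ _) hvd
      have hyy : y' = y := (existsUnique_right hs h11 hxn hxd).unique
        ⟨⟨hy'1, hy'2⟩, conj y * z, by rw [hv, hz, mul_assoc]⟩ ⟨hy', hxL⟩
      rw [hyy] at hz
      have hxz : x = conj y * z * y := by rw [hv, hz, mul_assoc]
      have hzO : InO z := by
        have h1 : InO (conj y * z) := by
          apply InO_left hy'.1.1 hyn0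
          rw [← hxz]; exact hx1
        exact InO_right (InO_conj hy'.1.1) (by rw [nrm_conj]; exact hyn0) h1
      refine ⟨sc (eps s) * z, ?_, ?_⟩
      · simp only [Finset.coe_filter, Set.mem_ofPred_eq, Finset.mem_filter, mem_X]
        refine ⟨⟨⟨⟨InO_mul (InO_sc _) hzO, ?_⟩, ?_⟩, ?_⟩, ?_⟩
        · rw [lam_mul (InO_sc _) hzO, lam_sc]
          rw [hxz, lam_mul (InO_mul (InO_conj hy'.1.1) hzO) hy'.1.1,
            lam_mul (InO_conj hy'.1.1) hzO] at hx2
          apply Sq_div (a := (eps s : ℤ) * (s : ZMod 11)) (Sq_eps (cast11 hs22))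
          have h5 : ((eps s : ℤ) : ZMod 11) * ((eps s : ℤ) : ZMod 11) = 1 := by
            rw [← Int.cast_mul, eps_sq, Int.cast_one]
          have h := lam_mul_lam_conj hy'.1.1
          rw [hy'.2, Int.cast_natCast] at h
          have h6 : ((eps s : ℤ) : ZMod 11) * (s : ZMod 11) * (((eps s : ℤ) : ZMod 11) * lam z) =
              lam (conj y) * lam z * lam y := by
            rw [← h]
            linear_combination (lam y * lam (conj y) * lam z) * h5
          rw [h6]; exact hx2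
        · rw [nrm_mul, nrm_sc]
          have h7 : nrm z * s = n * s := by
            rw [← hy'.2, ← nrm_mul, ← hz, hvn, hy'.2]; ring
          have h8 := mul_right_cancel₀ hs0 h7
          rw [h8]
          have := eps_sq s
          linear_combination (n : ℤ) * this
        · rw [PInv_eps hP, ← hP.conj z y hy'.2, ← hxz]; exact hxP
        · intro h
          apply hxd
          rw [hxz]
          have h9 := sc_dvd_mul_left (sc (eps s)) h
          have h10 : sc (eps s) * (conj y * (sc (eps s) * z) * y) = conj y * z * y := by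
            rw [← mul_assoc (conj y), ← sc_comm (eps s) (conj y), mul_assoc, mul_assoc,
              ← mul_assoc (sc (eps s)), ← map_mul, eps_sq, map_one, one_mul, mul_assoc]
          rwa [h10] at h9
      · show sc (eps s) * (conj y * (sc (eps s) * z) * y) = x
        rw [hxz, ← mul_assoc (conj y), ← sc_comm (eps s) (conj y), mul_assoc, mul_assoc,
              ← mul_assoc (sc (eps s)), ← map_mul, eps_sq, map_one, one_mul, mul_assoc]
    · intro z hz
      simp only [Finset.mem_filter] at hz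
      have hzA := Adm_of_mem hn hz.1.1
      have hcA := Adm_conj hyA
      rw [w.g_eps_mul (Adm_mul (Adm_mul hcA hzA) hyA), w.mul _ _ (Adm_mul hcA hzA) hyA,
        w.mul _ _ hcA hzA]
      have := w.conj y hyA
      linear_combination (-w.g z) * this
  rw [step1, Finset.sum_congr rfl step2]
  simp only [Finset.sum_filter]
  rw [Finset.sum_comm]
  apply Finset.sum_congr rfl
  intro z _
  by_cases h : P z
  · simp only [h, if_true]
    rw [← Finset.sum_filter, Finset.sum_const, nsmul_eq_mul]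
  · simp only [h, if_false, Finset.sum_const_zero]

open Classical in
theorem card_not {s : ℕ} (z : Hz ℤ) :
    ((((X s).filter (fun y => ¬ sc (s : ℤ) ∣ conj y * z * y)).card : ℕ) : R) =
      ((X s).card : R) - (((X s).filter (fun y => sc (s : ℤ) ∣ conj y * z * y)).card : R) := by
  have := Finset.card_filter_add_card_filter_not (s := X s)
    (fun y => sc (s : ℤ) ∣ conj y * z * y)
  rw [← this]; push_cast; ring

/-- the rotation identity -/
theorem T_rot2 {s : ℕ} (hs : s.Prime) (hs22 : s.Coprime 22) {n : ℕ} (hn : n.Coprime 22)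
    (hsn : s ∣ n) {P : Hz ℤ → Prop} (hP : PInv s P) :
    T w (fun x => P x ∧ (s : ℤ) ∣ tr x) (s * (s * n)) =
      (((X s).card : R) - 1) * T w P n + T w (fun x => P x ∧ (s : ℤ) ∣ tr x) n
       - (((X s).card : R) - 1) * T w (fun x => P x ∧ sc (s : ℤ) ∣ x) n := by
  classical
  rw [T_split w (fun x => P x ∧ (s : ℤ) ∣ tr x) (fun x => sc (s : ℤ) ∣ x), T_rot w hs hs22 hn hP]
  have e1 : T w (fun x => (P x ∧ (s : ℤ) ∣ tr x) ∧ sc (s : ℤ) ∣ x) (s * (s * n)) = T w P n := by
    rw [← T_scale w hs22 hs.ne_zero hn hP]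
    apply T_congr
    intro x _
    constructor
    · rintro ⟨⟨h1, _⟩, h2⟩; exact ⟨h1, h2⟩
    · rintro ⟨h1, h2⟩; exact ⟨⟨h1, sc_dvd_tr h2⟩, h2⟩
  rw [e1]
  have e2 : ∑ z ∈ (X n).filter P,
        ((((X s).filter (fun y => ¬ sc (s : ℤ) ∣ conj y * z * y)).card : ℕ) : R) * w.g z =
      ∑ z ∈ (X n).filter P, (((X s).card : R) * w.g z - 2 * w.g z
        + (if (s : ℤ) ∣ tr z then w.g z else 0)
        - (if sc (s : ℤ) ∣ z then (((X s).card : R) - 1) * w.g z else 0)) := by
    apply Finset.sum_congr rfl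
    intro z hz
    simp only [Finset.mem_filter, mem_X] at hz
    rw [card_not]
    have hzn : (s : ℤ) ∣ nrm z := by rw [hz.1.2]; exact_mod_cast hsn
    by_cases h : sc (s : ℤ) ∣ z
    · have h1 : (X s).filter (fun y => sc (s : ℤ) ∣ conj y * z * y) = X s := by
        rw [Finset.filter_eq_self]
        intro y _
        exact sc_dvd_mul_right _ (sc_dvd_mul_left _ h)
      rw [h1, if_pos (sc_dvd_tr h), if_pos h]
      ring
    · rw [card_e hs hs22 hzn h, if_neg h]
      split_ifs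
      · push_cast; ring
      · push_cast; ring
  rw [e2]
  simp only [Finset.sum_sub_distrib, Finset.sum_add_distrib]
  rw [← Finset.sum_filter, ← Finset.sum_filter, ← Finset.mul_sum, ← Finset.mul_sum,
    ← Finset.mul_sum, Finset.filter_filter, Finset.filter_filter, ← T_def, ← T_def, ← T_def]
  ring

/-- V-identity: odd powers of `s`. -/
theorem T_V {s : ℕ} (hs : s.Prime) (hs22 : s.Coprime 22) {m : ℕ} (hm : m.Coprime 22)
    (hsm : ¬ s ∣ m) {P : Hz ℤ → Prop} (hP : PInv s P) (j : ℕ) :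
    T w P (s ^ (2 * j + 3) * m) - (((X s).card : R) - 1) * T w P (s ^ (2 * j + 1) * m) =
      T w (fun x => P x ∧ ¬ (s : ℤ) ∣ tr x) (s ^ (2 * j + 3) * m) +
      T w (fun x => P x ∧ (s : ℤ) ∣ tr x) (s * m) := by
  have hcop : ∀ k, (s ^ k * m).Coprime 22 := fun k => cop_mul (hs22.pow_left k) hm
  have key : ∀ j, T w (fun x => P x ∧ (s : ℤ) ∣ tr x) (s ^ (2 * j + 3) * m) -
      (((X s).card : R) - 1) * T w P (s ^ (2 * j + 1) * m) =
      T w (fun x => P x ∧ (s : ℤ) ∣ tr x) (s * m) := by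
    intro j
    induction j with
    | zero =>
      have h1 := T_rot2 w hs hs22 (cop_mul hs22 hm) (dvd_mul_right s m) hP
      have h2 : T w (fun x => P x ∧ sc (s : ℤ) ∣ x) (s * m) = 0 := by
        apply T_zero
        rintro x hx ⟨_, h⟩
        apply hsm
        have h1 := sc_dvd_nrm h
        rw [(mem_X.1 hx).2, sq] at h1
        have h2 : s * s ∣ s * m := by exact_mod_cast h1
        exact Nat.dvd_of_mul_dvd_mul_left hs.pos h2
      have e1 : s ^ (2 * 0 + 3) * m = s * (s * (s * m)) := by ring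
      have e2 : s ^ (2 * 0 + 1) * m = s * m := by ring
      rw [e1, e2, h1, h2]; ring
    | succ j ih =>
      have h1 := T_rot2 w hs hs22 (hcop (2 * j + 3))
        (Dvd.dvd.mul_right (dvd_pow_self s (by omega)) m) hP
      have h2 := T_scale w hs22 hs.ne_zero (hcop (2 * j + 1)) hP
      have e1 : s ^ (2 * (j + 1) + 3) * m = s * (s * (s ^ (2 * j + 3) * m)) := by ring
      have e2 : s ^ (2 * (j + 1) + 1) * m = s ^ (2 * j + 3) * m := by ring
      have e3 : s * (s * (s ^ (2 * j + 1) * m)) = s ^ (2 * j + 3) * m := by ring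
      rw [e3] at h2
      rw [e1, e2, h1, h2, ← ih]; ring
  rw [T_split w P (fun x => (s : ℤ) ∣ tr x) (s ^ (2 * j + 3) * m), ← key j]
  ring

end sums

end Pool.Agent.CycSyl
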