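import Pool.Agent.CycSyl.QD

/-!
The quadratic data of an imaginary quadratic subfield of the complex numbers.
-/

set_option autoImplicit false

namespace Pool.Agent.CycSyl

open Complex NumberField

/-- the root of `X² - tX + m` in the upper half plane -/
noncomputable def th (t m : ℤ) : ℂ := ((t : ℂ) + (Real.sqrt (4 * m - t ^ 2) : ℂ) * I) / 2

section

variable {t m : ℤ}

theorem th_sqrt (h : t ^ 2 < 4 * m) :
    ((Real.sqrt (4 * m - t ^ 2) : ℝ) : ℂ) ^ 2 = 4 * (m : ℂ) - (t : ℂ) ^ 2 := by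
  have h1 : (0 : ℝ) ≤ 4 * m - t ^ 2 := by
    have : (t : ℝ) ^ 2 < 4 * m := by exact_mod_cast h
    linarith
  rw [← Complex.ofReal_pow, Real.sq_sqrt h1]
  push_cast; ring

theorem th_rel (h : t ^ 2 < 4 * m) : th t m * th t m = (t : ℂ) * th t m - (m : ℂ) := by
  unfold th
  have h1 := th_sqrt h
  have h2 := Complex.I_sq
  linear_combination (1 / 4 : ℂ) * I ^ 2 * h1 + (1 / 4 : ℂ) * (4 * (m : ℂ) - (t : ℂ) ^ 2) * h2

theorem th_conj : (starRingEnd ℂ) (th t m) = (t : ℂ) - th t m := by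
  unfold th
  rw [map_div₀, map_add, map_mul, Complex.conj_I, Complex.conj_ofReal]
  have h1 : (starRingEnd ℂ) (t : ℂ) = (t : ℂ) := by
    rw [← Complex.ofReal_intCast, Complex.conj_ofReal]
  have h2 : (starRingEnd ℂ) (2 : ℂ) = 2 := by
    have : (2 : ℂ) = ((2 : ℝ) : ℂ) := by norm_num
    rw [this, Complex.conj_ofReal]
  rw [h1, h2]; ring

theorem th_im (h : t ^ 2 < 4 * m) : (th t m).im ≠ 0 := by
  have h1 : (0 : ℝ) < 4 * m - t ^ 2 := by
    have : (t : ℝ) ^ 2 < 4 * m := by exact_mod_cast h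
    linarith
  have h2 : (th t m).im = Real.sqrt (4 * m - t ^ 2) / 2 := by
    unfold th
    simp
  rw [h2]
  have := Real.sqrt_pos.2 h1
  positivity

theorem th_integral (h : t ^ 2 < 4 * m) : IsIntegral ℤ (th t m) := by
  refine ⟨Polynomial.X ^ 2 - Polynomial.C t * Polynomial.X + Polynomial.C m, ?_, ?_⟩
  · monicity!
  · simp only [Polynomial.eval₂_add, Polynomial.eval₂_sub, Polynomial.eval₂_pow,
      Polynomial.eval₂_mul, Polynomial.eval₂_X, Polynomial.eval₂_C]
    have := th_rel h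
    simp only [eq_intCast]
    linear_combination this

theorem rat_of_integral {q : ℚ} (h : IsIntegral ℤ (q : ℂ)) : ∃ n : ℤ, (n : ℚ) = q := by
  have h1 : IsIntegral ℤ q := by
    have h2 : (q : ℂ) = algebraMap ℚ ℂ q := by simp
    rw [h2] at h
    exact (isIntegral_algebraMap_iff (algebraMap ℚ ℂ).injective).1 h
  obtain ⟨n, hn⟩ := IsIntegrallyClosed.isIntegral_iff.1 h1
  exact ⟨n, by simpa using hn⟩

/-- the field -/
noncomputable abbrev Kf (t m : ℤ) : IntermediateField ℚ ℂ := IntermediateField.adjoin ℚ {th t m}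

theorem th_mem : th t m ∈ Kf t m := IntermediateField.mem_adjoin_simple_self ℚ _

theorem th_intQ (h : t ^ 2 < 4 * m) : IsIntegral ℚ (th t m) := (th_integral h).tower_top

theorem th_deg (h : t ^ 2 < 4 * m) : (minpoly ℚ (th t m)).natDegree = 2 := by
  apply le_antisymm
  · have h1 : (Polynomial.X ^ 2 - Polynomial.C (t : ℚ) * Polynomial.X +
        Polynomial.C (m : ℚ)).Monic := by monicity!
    have h2 : Polynomial.aeval (th t m) (Polynomial.X ^ 2 - Polynomial.C (t : ℚ) * Polynomial.X +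
        Polynomial.C (m : ℚ)) = 0 := by
      simp only [map_add, map_sub, map_mul, map_pow, Polynomial.aeval_X, Polynomial.aeval_C]
      have := th_rel h
      simp only [eq_ratCast, Rat.cast_intCast]
      linear_combination this
    have h3 := minpoly.min ℚ (th t m) h1 h2
    have h4 := Polynomial.natDegree_le_natDegree h3
    refine h4.trans ?_
    compute_degree
  · rw [minpoly.two_le_natDegree_iff (th_intQ h)]
    rintro ⟨q, hq⟩
    apply th_im h
    rw [← hq]
    simp

theorem Kf_finite (h : t ^ 2 < 4 * m) : FiniteDimensional ℚ (Kf t m) :=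
  IntermediateField.adjoin.finiteDimensional (th_intQ h)

theorem Kf_numberField (h : t ^ 2 < 4 * m) : NumberField (Kf t m) where
  to_charZero := inferInstance
  to_finiteDimensional := Kf_finite h

theorem Kf_finrank (h : t ^ 2 < 4 * m) : Module.finrank ℚ (Kf t m) = 2 := by
  rw [IntermediateField.adjoin.finrank (th_intQ h), th_deg h]

theorem Kf_mem (h : t ^ 2 < 4 * m) {w : ℂ} (hw : w ∈ Kf t m) :
    ∃ a b : ℚ, w = (a : ℂ) + (b : ℂ) * th t m := by
  let pb := IntermediateField.adjoin.powerBasis (th_intQ h)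
  obtain ⟨f, hf, hf'⟩ := pb.exists_eq_aeval (⟨w, hw⟩ : Kf t m)
  have hd : pb.dim = 2 := by
    rw [IntermediateField.adjoin.powerBasis_dim, th_deg h]
  rw [hd] at hf
  obtain ⟨b, a, hab⟩ := Polynomial.exists_eq_X_add_C_of_natDegree_le_one (Nat.lt_succ_iff.1 hf)
  refine ⟨a, b, ?_⟩
  have h1 := congrArg (algebraMap (Kf t m) ℂ) hf'
  rw [hab] at h1
  rw [← Polynomial.aeval_algebraMap_apply] at h1
  simp only [map_add, map_mul, Polynomial.aeval_X, Polynomial.aeval_C] at h1
  have h2 : algebraMap (Kf t m) ℂ pb.gen = th t m := by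
    rw [IntermediateField.adjoin.powerBasis_gen]
    exact IntermediateField.AdjoinSimple.coe_gen ℚ (th t m)
  rw [h2] at h1
  have h3 : algebraMap (Kf t m) ℂ ⟨w, hw⟩ = w := rfl
  rw [h3] at h1
  rw [h1]
  simp only [eq_ratCast]
  ring

theorem Kf_conj_mem (h : t ^ 2 < 4 * m) {w : ℂ} (hw : w ∈ Kf t m) :
    (starRingEnd ℂ) w ∈ Kf t m := by
  obtain ⟨a, b, rfl⟩ := Kf_mem h hw
  have hq : ∀ q : ℚ, (starRingEnd ℂ) (q : ℂ) = (q : ℂ) := by
    intro q
    rw [← Complex.ofReal_ratCast, Complex.conj_ofReal]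
  rw [map_add, map_mul, hq, hq, th_conj]
  have hm : ∀ q : ℚ, (q : ℂ) ∈ Kf t m := fun q => by
    have := (Kf t m).algebraMap_mem q
    simpa using this
  have ht : (t : ℂ) ∈ Kf t m := by
    have := hm (t : ℚ)
    simpa using this
  exact add_mem (hm a) (mul_mem (hm b) (sub_mem ht th_mem))

end

end Pool.Agent.CycSyl
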