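import Pool.Agent.CycSyl.Field

/-!
The quadratic data of an imaginary quadratic subfield of the complex numbers, continued.
-/

set_option autoImplicit false

namespace Pool.Agent.CycSyl

open Complex NumberField

section

variable {t m : ℤ}

/-- the embedding of the ring of integers -/
noncomputable def io (K : IntermediateField ℚ ℂ) : 𝓞 K →+* ℂ :=
  (algebraMap K ℂ).comp (algebraMap (𝓞 K) K)

theorem io_inj (K : IntermediateField ℚ ℂ) : Function.Injective (io K) :=
  (algebraMap K ℂ).injective.comp (FaithfulSMul.algebraMap_injective (𝓞 K) K)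

theorem io_mem (K : IntermediateField ℚ ℂ) (w : 𝓞 K) : io K w ∈ K :=
  (algebraMap (𝓞 K) K w).2

theorem io_integral (K : IntermediateField ℚ ℂ) (w : 𝓞 K) : IsIntegral ℤ (io K w) := by
  have h : IsIntegral ℤ (algebraMap (𝓞 K) K w) := RingOfIntegers.isIntegral_coe w
  exact h.map (algebraMap K ℂ).toIntAlgHom

theorem exists_io (K : IntermediateField ℚ ℂ) {w : ℂ} (hw : w ∈ K) (hi : IsIntegral ℤ w) :
    ∃ u : 𝓞 K, io K u = w := by
  have h1 : IsIntegral ℤ (⟨w, hw⟩ : K) := by
    have h2 : w = algebraMap K ℂ ⟨w, hw⟩ := rfl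
    rw [h2] at hi
    exact (isIntegral_algebraMap_iff (algebraMap K ℂ).injective).1 hi
  exact ⟨⟨⟨w, hw⟩, h1⟩, rfl⟩

/-- complex conjugation on the field -/
noncomputable def cj (h : t ^ 2 < 4 * m) : Kf t m →+* Kf t m :=
  ((starRingEnd ℂ).comp (algebraMap (Kf t m) ℂ)).codRestrict (Kf t m)
    (fun w => Kf_conj_mem h w.2)

theorem io_cj (h : t ^ 2 < 4 * m) (w : 𝓞 (Kf t m)) :
    io (Kf t m) (RingOfIntegers.mapRingHom (cj h) w) = (starRingEnd ℂ) (io (Kf t m) w) := rfl

theorem conj_rat (q : ℚ) : (starRingEnd ℂ) (q : ℂ) = (q : ℂ) := by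
  rw [← Complex.ofReal_ratCast, Complex.conj_ofReal]

theorem int_of_rat_integral {K : IntermediateField ℚ ℂ} {w : 𝓞 K} {q : ℚ}
    (h : io K w = (q : ℂ)) : ∃ n : ℤ, w = (n : 𝓞 K) := by
  have h1 := io_integral K w
  rw [h] at h1
  obtain ⟨n, hn⟩ := rat_of_integral h1
  refine ⟨n, ?_⟩
  apply io_inj K
  rw [h, map_intCast, ← hn]
  simp

theorem conj_integral {w : ℂ} (h : IsIntegral ℤ w) : IsIntegral ℤ ((starRingEnd ℂ) w) :=
  h.map (starRingEnd ℂ).toIntAlgHom

theorem int_integral (n : ℤ) : IsIntegral ℤ (n : ℂ) := by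
  have := isIntegral_algebraMap (R := ℤ) (A := ℂ) (x := n)
  simpa using this

/-- every element has integral coordinates up to the discriminant -/
theorem coords (h : t ^ 2 < 4 * m) {w : ℂ} (hi : IsIntegral ℤ w) {a b : ℚ}
    (hw : w = (a : ℂ) + (b : ℂ) * th t m) :
    ∃ x y : ℤ, ((t : ℚ) ^ 2 - 4 * m) * a = x ∧ ((t : ℚ) ^ 2 - 4 * m) * b = y := by
  have hrel := th_rel h
  have hcw : (starRingEnd ℂ) w = (a : ℂ) + (b : ℂ) * ((t : ℂ) - th t m) := by
    rw [hw, map_add, map_mul, conj_rat, conj_rat, th_conj]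
  have hth := th_integral h
  have h2 : (w - (starRingEnd ℂ) w) * (2 * th t m - t) =
      ((((t : ℚ) ^ 2 - 4 * m) * b : ℚ) : ℂ) := by
    rw [hcw]
    conv_lhs => rw [hw]
    push_cast
    linear_combination (4 * (b : ℂ)) * hrel
  have hint2 : IsIntegral ℤ ((2 : ℂ)) := by
    have := int_integral 2
    simpa using this
  have h3 : IsIntegral ℤ ((w - (starRingEnd ℂ) w) * (2 * th t m - t)) :=
    (hi.sub (conj_integral hi)).mul ((hint2.mul hth).sub (int_integral t))
  rw [h2] at h3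
  obtain ⟨y, hy⟩ := rat_of_integral h3
  have h4 : (((t : ℤ) ^ 2 - 4 * m : ℤ) : ℂ) * w - (y : ℂ) * th t m =
      ((((t : ℚ) ^ 2 - 4 * m) * a : ℚ) : ℂ) := by
    have hy' : (y : ℂ) = ((((t : ℚ) ^ 2 - 4 * m) * b : ℚ) : ℂ) := by
      rw [← hy]; simp
    rw [hy']
    conv_lhs => rw [hw]
    push_cast
    ring
  have h5 : IsIntegral ℤ ((((t : ℤ) ^ 2 - 4 * m : ℤ) : ℂ) * w - (y : ℂ) * th t m) :=
    ((int_integral _).mul hi).sub ((int_integral y).mul hth)
  rw [h4] at h5
  obtain ⟨x, hx⟩ := rat_of_integral h5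
  exact ⟨x, y, hx.symm, hy.symm⟩

/-- the generator as an algebraic integer -/
noncomputable def thO (h : t ^ 2 < 4 * m) : 𝓞 (Kf t m) :=
  Classical.choose (exists_io (Kf t m) th_mem (th_integral h))

theorem io_thO (h : t ^ 2 < 4 * m) : io (Kf t m) (thO h) = th t m :=
  Classical.choose_spec (exists_io (Kf t m) th_mem (th_integral h))

/-- the quadratic data -/
noncomputable def qdata (h : t ^ 2 < 4 * m) : QData (𝓞 (Kf t m)) t m where
  θ := thO h
  σ := RingOfIntegers.mapRingHom (cj h)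
  hθ := by
    apply io_inj
    rw [map_mul, map_sub, map_mul, map_intCast, map_intCast, io_thO]
    exact th_rel h
  hσ := by
    apply io_inj
    rw [map_sub, map_intCast, io_cj, io_thO]
    exact th_conj
  span w := by
    obtain ⟨a, b, hab⟩ := Kf_mem h (io_mem _ w)
    obtain ⟨x, y, hx, hy⟩ := coords h (io_integral _ w) hab
    refine ⟨x, y, ?_⟩
    apply io_inj
    rw [map_mul, map_add, map_mul, map_intCast, map_intCast, map_intCast, hab, io_thO]
    have hx' : (x : ℂ) = ((((t : ℚ) ^ 2 - 4 * m) * a : ℚ) : ℂ) := by rw [hx]; simp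
    have hy' : (y : ℂ) = ((((t : ℚ) ^ 2 - 4 * m) * b : ℚ) : ℂ) := by rw [hy]; simp
    rw [hx', hy']
    push_cast
    ring
  indep a b hab := by
    have h1 := congrArg (io (Kf t m)) hab
    rw [map_add, map_mul, map_intCast, map_intCast, map_zero, io_thO] at h1
    have h2 : (a : ℂ) + (b : ℂ) * th t m = 0 := h1
    have h3 := congrArg Complex.im h2
    simp only [Complex.add_im, Complex.mul_im, Complex.intCast_im, Complex.intCast_re, zero_mul,
      add_zero, zero_add, Complex.zero_im] at h3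
    have h4 : (b : ℝ) = 0 := (mul_eq_zero.1 h3).resolve_right (th_im h)
    have hb : b = 0 := by exact_mod_cast h4
    rw [hb] at h2
    simp only [Int.cast_zero, zero_mul, add_zero] at h2
    exact ⟨by exact_mod_cast h2, hb⟩
  trans c a b hc h1 h2 := by
    obtain ⟨T, hT⟩ := h1
    obtain ⟨N, hN⟩ := h2
    have hcC : (c : ℂ) ≠ 0 := by exact_mod_cast hc
    have hrel := th_rel h
    have hT' : 2 * (a : ℂ) + b * t = c * T := by exact_mod_cast congrArg (Int.cast : ℤ → ℂ) hT
    have hN' : (a : ℂ) ^ 2 + a * b * t + b ^ 2 * m = c ^ 2 * N := by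
      exact_mod_cast congrArg (Int.cast : ℤ → ℂ) hN
    have hmem : ((a : ℂ) + (b : ℂ) * th t m) / c ∈ Kf t m := by
      have hm : ∀ q : ℤ, (q : ℂ) ∈ Kf t m := fun q => intCast_mem _ q
      exact div_mem (add_mem (hm a) (mul_mem (hm b) th_mem)) (hm c)
    have hint : IsIntegral ℤ (((a : ℂ) + (b : ℂ) * th t m) / c) := by
      refine ⟨Polynomial.X ^ 2 - Polynomial.C T * Polynomial.X + Polynomial.C N, ?_, ?_⟩
      · monicity!
      · simp only [Polynomial.eval₂_add, Polynomial.eval₂_sub, Polynomial.eval₂_pow,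
          Polynomial.eval₂_mul, Polynomial.eval₂_X, Polynomial.eval₂_C]
        simp only [eq_intCast]
        have hT2 : (T : ℂ) = (2 * (a : ℂ) + b * t) / c := by
          rw [hT']; field_simp
        have hN2 : (N : ℂ) = ((a : ℂ) ^ 2 + a * b * t + b ^ 2 * m) / c ^ 2 := by
          rw [hN']; field_simp
        rw [hT2, hN2]
        field_simp
        linear_combination (b : ℂ) ^ 2 * hrel
    obtain ⟨w, hw⟩ := exists_io _ hmem hint
    refine ⟨w, ?_⟩
    apply io_inj
    rw [map_mul, map_add, map_mul, map_intCast, map_intCast, map_intCast, hw, io_thO]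
    field_simp
  trInt w := by
    obtain ⟨a, b, hab⟩ := Kf_mem h (io_mem _ w)
    apply int_of_rat_integral (q := 2 * a + b * t)
    rw [map_add, io_cj, hab, map_add, map_mul, conj_rat, conj_rat, th_conj]
    push_cast
    ring
  nrmInt w := by
    obtain ⟨a, b, hab⟩ := Kf_mem h (io_mem _ w)
    apply int_of_rat_integral (q := a ^ 2 + a * b * t + b ^ 2 * m)
    rw [map_mul, io_cj, hab, map_add, map_mul, conj_rat, conj_rat, th_conj]
    push_cast
    linear_combination (-(b : ℂ) ^ 2) * th_rel h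

/-- square roots of negative integers in the field -/
theorem sqrt_mem (h : t ^ 2 < 4 * m) {z : ℂ} (hz : z ∈ Kf t m) {d : ℤ} (hd : 0 < d)
    (hzd : z * z = -(d : ℂ)) : ∃ s : ℤ, s ^ 2 = 4 * d * (4 * m - t ^ 2) := by
  obtain ⟨a, b, hab⟩ := Kf_mem h hz
  have hrel := th_rel h
  -- conj z = - z
  have hcz : (starRingEnd ℂ) z = -z := by
    have h1 : (starRingEnd ℂ) z * (starRingEnd ℂ) z = -(d : ℂ) := by
      rw [← map_mul, hzd, map_neg]
      have : (d : ℂ) = ((d : ℚ) : ℂ) := by simp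
      rw [this, conj_rat]
    have h2 : ((starRingEnd ℂ) z - z) * ((starRingEnd ℂ) z + z) = 0 := by
      linear_combination h1 - hzd
    rcases mul_eq_zero.1 h2 with h3 | h3
    · exfalso
      have h4 : (starRingEnd ℂ) z = z := sub_eq_zero.1 h3
      rw [Complex.conj_eq_iff_real] at h4
      obtain ⟨r, hr⟩ := h4
      rw [hr] at hzd
      have h5 : r * r = -(d : ℝ) := by exact_mod_cast hzd
      have h6 : (0 : ℝ) < d := by exact_mod_cast hd
      nlinarith [mul_self_nonneg r]
    · linear_combination h3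
  have hcz' : (starRingEnd ℂ) z = (a : ℂ) + (b : ℂ) * ((t : ℂ) - th t m) := by
    rw [hab, map_add, map_mul, conj_rat, conj_rat, th_conj]
  have h7 : (2 * a + b * t : ℂ) = 0 := by
    have : (starRingEnd ℂ) z + z = 0 := by rw [hcz]; ring
    rw [hcz'] at this
    linear_combination this - hab
  have h8 : (4 : ℂ) * (d : ℂ) = (b : ℂ) ^ 2 * (4 * m - t ^ 2) := by
    have h9 : 2 * z = (b : ℂ) * (2 * th t m - t) := by
      linear_combination 2 * hab + h7
    have h10 : (2 * z) * (2 * z) = (b : ℂ) ^ 2 * (t ^ 2 - 4 * m) := by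
      rw [h9]; linear_combination (4 * (b : ℂ) ^ 2) * hrel
    linear_combination -h10 + 4 * hzd
  have h11 : (4 : ℚ) * d = b ^ 2 * (4 * m - t ^ 2) := by exact_mod_cast h8
  -- `s = b (4m - t²)`
  have h12 : (b * (4 * m - t ^ 2)) ^ 2 = ((4 * d * (4 * m - t ^ 2) : ℤ) : ℚ) := by
    push_cast
    linear_combination (-(4 * (m : ℚ) - t ^ 2)) * h11
  have h13 : IsIntegral ℤ (b * (4 * (m : ℚ) - t ^ 2)) := by
    apply IsIntegral.of_pow (n := 2) (by norm_num)
    rw [h12]
    have := isIntegral_algebraMap (R := ℤ) (A := ℚ) (x := 4 * d * (4 * m - t ^ 2))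
    simpa using this
  obtain ⟨s, hs⟩ := IsIntegrallyClosed.isIntegral_iff.1 h13
  refine ⟨s, ?_⟩
  have h14 : (s : ℚ) = b * (4 * (m : ℚ) - t ^ 2) := by simpa using hs
  rw [← h14] at h12
  exact_mod_cast h12

end

end Pool.Agent.CycSyl
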