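import Mathlib

/-!
The Hurwitz order over a commutative ring: elements `a + b i + c j + d w` with
`w = (1 + i + j + k) / 2`.
-/

set_option autoImplicit false

namespace Pool.Agent.CycSyl

/-- The Hurwitz order with coefficients in `R`, basis `1, i, j, w = (1+i+j+k)/2`. -/
@[ext]
structure Hz (R : Type*) where
  a : R
  b : R
  c : R
  d : R
deriving DecidableEq

namespace Hz

variable {R : Type*} [CommRing R]

instance : Zero (Hz R) := ⟨⟨0, 0, 0, 0⟩⟩
instance : One (Hz R) := ⟨⟨1, 0, 0, 0⟩⟩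
instance : Add (Hz R) := ⟨fun x y => ⟨x.a + y.a, x.b + y.b, x.c + y.c, x.d + y.d⟩⟩
instance : Neg (Hz R) := ⟨fun x => ⟨-x.a, -x.b, -x.c, -x.d⟩⟩
instance : Sub (Hz R) := ⟨fun x y => ⟨x.a - y.a, x.b - y.b, x.c - y.c, x.d - y.d⟩⟩
instance : Mul (Hz R) := ⟨fun x y =>
  ⟨x.a * y.a - x.b * y.b - x.b * y.c - x.b * y.d + x.c * y.b - x.c * y.c - x.d * y.c - x.d * y.d,
   x.a * y.b + x.b * y.a - x.b * y.c + x.c * y.b + x.c * y.d + x.d * y.b - x.d * y.c,
   x.a * y.c + x.c * y.a - x.b * y.c - x.b * y.d + x.c * y.b + x.c * y.d + x.d * y.b,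
   x.a * y.d + x.d * y.a + 2 * x.b * y.c + x.b * y.d - 2 * x.c * y.b - x.c * y.d - x.d * y.b
     + x.d * y.c + x.d * y.d⟩⟩

@[simp] theorem zero_a : (0 : Hz R).a = 0 := rfl
@[simp] theorem zero_b : (0 : Hz R).b = 0 := rfl
@[simp] theorem zero_c : (0 : Hz R).c = 0 := rfl
@[simp] theorem zero_d : (0 : Hz R).d = 0 := rfl
@[simp] theorem one_a : (1 : Hz R).a = 1 := rfl
@[simp] theorem one_b : (1 : Hz R).b = 0 := rfl
@[simp] theorem one_c : (1 : Hz R).c = 0 := rfl
@[simp] theorem one_d : (1 : Hz R).d = 0 := rfl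
@[simp] theorem add_a (x y : Hz R) : (x + y).a = x.a + y.a := rfl
@[simp] theorem add_b (x y : Hz R) : (x + y).b = x.b + y.b := rfl
@[simp] theorem add_c (x y : Hz R) : (x + y).c = x.c + y.c := rfl
@[simp] theorem add_d (x y : Hz R) : (x + y).d = x.d + y.d := rfl
@[simp] theorem neg_a (x : Hz R) : (-x).a = -x.a := rfl
@[simp] theorem neg_b (x : Hz R) : (-x).b = -x.b := rfl
@[simp] theorem neg_c (x : Hz R) : (-x).c = -x.c := rfl
@[simp] theorem neg_d (x : Hz R) : (-x).d = -x.d := rfl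
@[simp] theorem sub_a (x y : Hz R) : (x - y).a = x.a - y.a := rfl
@[simp] theorem sub_b (x y : Hz R) : (x - y).b = x.b - y.b := rfl
@[simp] theorem sub_c (x y : Hz R) : (x - y).c = x.c - y.c := rfl
@[simp] theorem sub_d (x y : Hz R) : (x - y).d = x.d - y.d := rfl
@[simp] theorem mul_a (x y : Hz R) : (x * y).a =
  x.a * y.a - x.b * y.b - x.b * y.c - x.b * y.d + x.c * y.b - x.c * y.c - x.d * y.c
    - x.d * y.d := rfl
@[simp] theorem mul_b (x y : Hz R) : (x * y).b =
  x.a * y.b + x.b * y.a - x.b * y.c + x.c * y.b + x.c * y.d + x.d * y.b - x.d * y.c := rfl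
@[simp] theorem mul_c (x y : Hz R) : (x * y).c =
  x.a * y.c + x.c * y.a - x.b * y.c - x.b * y.d + x.c * y.b + x.c * y.d + x.d * y.b := rfl
@[simp] theorem mul_d (x y : Hz R) : (x * y).d =
  x.a * y.d + x.d * y.a + 2 * x.b * y.c + x.b * y.d - 2 * x.c * y.b - x.c * y.d - x.d * y.b
     + x.d * y.c + x.d * y.d := rfl

instance : NatCast (Hz R) := ⟨fun n => ⟨n, 0, 0, 0⟩⟩
instance : IntCast (Hz R) := ⟨fun n => ⟨n, 0, 0, 0⟩⟩
@[simp] theorem natCast_a (n : ℕ) : (n : Hz R).a = n := rfl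
@[simp] theorem natCast_b (n : ℕ) : (n : Hz R).b = 0 := rfl
@[simp] theorem natCast_c (n : ℕ) : (n : Hz R).c = 0 := rfl
@[simp] theorem natCast_d (n : ℕ) : (n : Hz R).d = 0 := rfl
@[simp] theorem intCast_a (n : ℤ) : (n : Hz R).a = n := rfl
@[simp] theorem intCast_b (n : ℤ) : (n : Hz R).b = 0 := rfl
@[simp] theorem intCast_c (n : ℤ) : (n : Hz R).c = 0 := rfl
@[simp] theorem intCast_d (n : ℤ) : (n : Hz R).d = 0 := rfl

instance : Ring (Hz R) where
  add_assoc x y z := by ext <;> simp <;> ring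
  zero_add x := by ext <;> simp
  add_zero x := by ext <;> simp
  add_comm x y := by ext <;> simp <;> ring
  left_distrib x y z := by ext <;> simp <;> ring
  right_distrib x y z := by ext <;> simp <;> ring
  zero_mul x := by ext <;> simp
  mul_zero x := by ext <;> simp
  mul_assoc x y z := by ext <;> simp <;> ring
  one_mul x := by ext <;> simp
  mul_one x := by ext <;> simp
  neg_add_cancel x := by ext <;> simp
  sub_eq_add_neg x y := by ext <;> simp <;> ring
  nsmul := nsmulRec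
  zsmul := zsmulRec
  natCast_zero := by ext <;> simp
  natCast_succ n := by ext <;> simp
  intCast_ofNat n := by ext <;> simp
  intCast_negSucc n := by ext <;> simp

/-- scalars -/
def sc : R →+* Hz R where
  toFun r := ⟨r, 0, 0, 0⟩
  map_one' := rfl
  map_zero' := rfl
  map_add' x y := by ext <;> simp
  map_mul' x y := by ext <;> simp

@[simp] theorem sc_a (r : R) : (sc r).a = r := rfl
@[simp] theorem sc_b (r : R) : (sc r).b = 0 := rfl
@[simp] theorem sc_c (r : R) : (sc r).c = 0 := rfl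
@[simp] theorem sc_d (r : R) : (sc r).d = 0 := rfl

/-- conjugation -/
def conj (x : Hz R) : Hz R := ⟨x.a + x.d, -x.b, -x.c, -x.d⟩
@[simp] theorem conj_a (x : Hz R) : (conj x).a = x.a + x.d := rfl
@[simp] theorem conj_b (x : Hz R) : (conj x).b = -x.b := rfl
@[simp] theorem conj_c (x : Hz R) : (conj x).c = -x.c := rfl
@[simp] theorem conj_d (x : Hz R) : (conj x).d = -x.d := rfl

/-- reduced norm -/
def nrm (x : Hz R) : R := x.a ^ 2 + x.b ^ 2 + x.c ^ 2 + x.d ^ 2 + x.d * (x.a + x.b + x.c)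
/-- reduced trace -/
def tr (x : Hz R) : R := 2 * x.a + x.d

theorem sc_comm (r : R) (x : Hz R) : sc r * x = x * sc r := by
  ext <;> simp <;> ring

theorem conj_conj (x : Hz R) : conj (conj x) = x := by ext <;> simp
theorem conj_mul (x y : Hz R) : conj (x * y) = conj y * conj x := by
  ext <;> simp <;> ring
theorem conj_add (x y : Hz R) : conj (x + y) = conj x + conj y := by
  ext <;> simp <;> ring
theorem conj_neg (x : Hz R) : conj (-x) = -conj x := by
  ext <;> simp; ring
theorem conj_sc (r : R) : conj (sc r) = sc r := by ext <;> simp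
theorem mul_conj (x : Hz R) : x * conj x = sc (nrm x) := by
  ext <;> simp only [nrm, mul_a, mul_b, mul_c, mul_d, conj_a, conj_b, conj_c, conj_d, sc_a, sc_b,
    sc_c, sc_d] <;> ring
theorem conj_mul_self (x : Hz R) : conj x * x = sc (nrm x) := by
  ext <;> simp only [nrm, mul_a, mul_b, mul_c, mul_d, conj_a, conj_b, conj_c, conj_d, sc_a, sc_b,
    sc_c, sc_d] <;> ring
theorem nrm_conj (x : Hz R) : nrm (conj x) = nrm x := by
  simp [nrm]; ring
theorem nrm_mul (x y : Hz R) : nrm (x * y) = nrm x * nrm y := by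
  simp only [nrm, mul_a, mul_b, mul_c, mul_d]; ring
theorem nrm_sc (r : R) : nrm (sc r) = r ^ 2 := by simp [nrm]
theorem nrm_one : nrm (1 : Hz R) = 1 := by simp [nrm]
theorem nrm_zero : nrm (0 : Hz R) = 0 := by simp [nrm]
theorem nrm_neg (x : Hz R) : nrm (-x) = nrm x := by simp [nrm]; ring
theorem tr_conj (x : Hz R) : tr (conj x) = tr x := by simp [tr]; ring
theorem tr_neg (x : Hz R) : tr (-x) = -tr x := by simp [tr]; ring
theorem tr_add (x y : Hz R) : tr (x + y) = tr x + tr y := by simp [tr]; ring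
theorem tr_sc (r : R) : tr (sc r) = 2 * r := by simp [tr]
theorem tr_sc_mul (r : R) (x : Hz R) : tr (sc r * x) = r * tr x := by simp [tr]; ring
theorem tr_mul_comm (x y : Hz R) : tr (x * y) = tr (y * x) := by
  simp [tr]; ring
theorem add_conj (x : Hz R) : x + conj x = sc (tr x) := by
  ext <;> simp [tr]; ring
theorem conj_eq (x : Hz R) : conj x = sc (tr x) - x := by
  rw [← add_conj]; abel
theorem mul_self_eq (x : Hz R) : x * x = sc (tr x) * x - sc (nrm x) := by
  rw [← add_conj, ← conj_mul_self]; noncomm_ring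

/-- base change -/
def map {S : Type*} [CommRing S] (f : R →+* S) : Hz R →+* Hz S where
  toFun x := ⟨f x.a, f x.b, f x.c, f x.d⟩
  map_one' := by ext <;> simp
  map_zero' := by ext <;> simp
  map_add' x y := by ext <;> simp
  map_mul' x y := by ext <;> simp [map_ofNat]

section map
variable {S : Type*} [CommRing S] (f : R →+* S)
@[simp] theorem map_a (x : Hz R) : (map f x).a = f x.a := rfl
@[simp] theorem map_b (x : Hz R) : (map f x).b = f x.b := rfl
@[simp] theorem map_c (x : Hz R) : (map f x).c = f x.c := rfl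
@[simp] theorem map_d (x : Hz R) : (map f x).d = f x.d := rfl
theorem nrm_map (x : Hz R) : nrm (map f x) = f (nrm x) := by simp [nrm]
theorem tr_map (x : Hz R) : tr (map f x) = f (tr x) := by simp [tr, map_ofNat]
theorem conj_map (x : Hz R) : conj (map f x) = map f (conj x) := by ext <;> simp
theorem map_sc (r : R) : map f (sc r) = sc (f r) := by ext <;> simp
end map

/-! ### The integral order -/

theorem four_nrm (x : Hz ℤ) : 4 * nrm x = (2 * x.a + x.d) ^ 2 + (2 * x.b + x.d) ^ 2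
    + (2 * x.c + x.d) ^ 2 + x.d ^ 2 := by
  simp only [nrm]; ring

theorem nrm_nonneg (x : Hz ℤ) : 0 ≤ nrm x := by
  have := four_nrm x
  nlinarith [sq_nonneg (2 * x.a + x.d), sq_nonneg (2 * x.b + x.d), sq_nonneg (2 * x.c + x.d),
    sq_nonneg x.d]

theorem nrm_eq_zero {x : Hz ℤ} : nrm x = 0 ↔ x = 0 := by
  constructor
  · intro h
    have h4 := four_nrm x
    have hd : x.d = 0 := by
      have : x.d ^ 2 = 0 := by
        nlinarith [sq_nonneg (2 * x.a + x.d), sq_nonneg (2 * x.b + x.d),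
          sq_nonneg (2 * x.c + x.d), sq_nonneg x.d]
      exact pow_eq_zero_iff (two_ne_zero) |>.1 this
    rw [hd] at h4
    have ha : x.a = 0 := by
      have : x.a ^ 2 = 0 := by nlinarith [sq_nonneg x.a, sq_nonneg x.b, sq_nonneg x.c]
      exact pow_eq_zero_iff (two_ne_zero) |>.1 this
    have hb : x.b = 0 := by
      have : x.b ^ 2 = 0 := by nlinarith [sq_nonneg x.a, sq_nonneg x.b, sq_nonneg x.c]
      exact pow_eq_zero_iff (two_ne_zero) |>.1 this
    have hc : x.c = 0 := by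
      have : x.c ^ 2 = 0 := by nlinarith [sq_nonneg x.a, sq_nonneg x.b, sq_nonneg x.c]
      exact pow_eq_zero_iff (two_ne_zero) |>.1 this
    ext <;> simp [*]
  · rintro rfl; exact nrm_zero

theorem nrm_pos {x : Hz ℤ} (hx : x ≠ 0) : 0 < nrm x :=
  lt_of_le_of_ne (nrm_nonneg x) (fun h => hx (nrm_eq_zero.1 h.symm))

instance : NoZeroDivisors (Hz ℤ) where
  eq_zero_or_eq_zero_of_mul_eq_zero := by
    intro x y h
    have : nrm x * nrm y = 0 := by rw [← nrm_mul, h, nrm_zero]
    rcases mul_eq_zero.1 this with h | h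
    · exact Or.inl (nrm_eq_zero.1 h)
    · exact Or.inr (nrm_eq_zero.1 h)

instance : Nontrivial (Hz ℤ) := ⟨0, 1, by intro h; have := congrArg Hz.a h; simp at this⟩

theorem sc_eq_intCast (n : ℤ) : (sc n : Hz ℤ) = (n : Hz ℤ) := by ext <;> simp

theorem exists_round (u n : ℤ) (hn : 0 < n) : ∃ q : ℤ, |u - n * q| * 2 ≤ n := by
  have h1 := Int.emod_add_mul_ediv u n
  have h2 := Int.emod_nonneg u hn.ne'
  have h3 := Int.emod_lt_of_pos u hn
  by_cases h : u % n * 2 ≤ n
  · refine ⟨u / n, ?_⟩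
    have : u - n * (u / n) = u % n := by linarith
    rw [this, abs_of_nonneg h2]; exact h
  · refine ⟨u / n + 1, ?_⟩
    have : u - n * (u / n + 1) = u % n - n := by linarith
    rw [this, abs_of_neg (by linarith)]; linarith

/-- rounding a Hurwitz integer divided by a positive integer -/
theorem exists_round_Hz (c : Hz ℤ) (n : ℤ) (hn : 0 < n) : ∃ q : Hz ℤ, nrm (c - sc n * q) < n ^ 2 := by
  obtain ⟨q3, h3⟩ := exists_round c.d n hn
  set z3 := c.d - n * q3 with hz3
  obtain ⟨q0, h0⟩ := exists_round (2 * c.a + z3) (2 * n) (by linarith)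
  obtain ⟨q1, h1⟩ := exists_round (2 * c.b + z3) (2 * n) (by linarith)
  obtain ⟨q2, h2⟩ := exists_round (2 * c.c + z3) (2 * n) (by linarith)
  refine ⟨⟨q0, q1, q2, q3⟩, ?_⟩
  have e := four_nrm (c - sc n * ⟨q0, q1, q2, q3⟩)
  simp only [sub_a, sub_b, sub_c, sub_d, mul_a, mul_b, mul_c, mul_d, sc_a, sc_b, sc_c, sc_d,
    zero_mul, mul_zero, sub_zero, add_zero] at e
  have k0 : (2 * (c.a - n * q0) + (c.d - n * q3)) ^ 2 ≤ n ^ 2 := by
    have : 2 * (c.a - n * q0) + (c.d - n * q3) = 2 * c.a + z3 - 2 * n * q0 := by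
      rw [hz3]; ring
    rw [this]
    exact sq_le_sq' (by have := neg_abs_le (2 * c.a + z3 - 2 * n * q0); linarith)
      (by have := le_abs_self (2 * c.a + z3 - 2 * n * q0); linarith)
  have k1 : (2 * (c.b - n * q1) + (c.d - n * q3)) ^ 2 ≤ n ^ 2 := by
    have : 2 * (c.b - n * q1) + (c.d - n * q3) = 2 * c.b + z3 - 2 * n * q1 := by
      rw [hz3]; ring
    rw [this]
    exact sq_le_sq' (by have := neg_abs_le (2 * c.b + z3 - 2 * n * q1); linarith)
      (by have := le_abs_self (2 * c.b + z3 - 2 * n * q1); linarith)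
  have k2 : (2 * (c.c - n * q2) + (c.d - n * q3)) ^ 2 ≤ n ^ 2 := by
    have : 2 * (c.c - n * q2) + (c.d - n * q3) = 2 * c.c + z3 - 2 * n * q2 := by
      rw [hz3]; ring
    rw [this]
    exact sq_le_sq' (by have := neg_abs_le (2 * c.c + z3 - 2 * n * q2); linarith)
      (by have := le_abs_self (2 * c.c + z3 - 2 * n * q2); linarith)
  have k3 : 4 * (c.d - n * q3) ^ 2 ≤ n ^ 2 := by
    have h : (2 * (c.d - n * q3)) ^ 2 ≤ n ^ 2 := by
      rw [← hz3]
      exact sq_le_sq' (by have := neg_abs_le z3; linarith) (by have := le_abs_self z3; linarith)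
    linarith
  have hn2 : 0 < n ^ 2 := by positivity
  nlinarith [e, k0, k1, k2, k3, hn2]

/-- left Euclidean division: `x = q * y + r`. -/
theorem exists_div (x y : Hz ℤ) (hy : y ≠ 0) : ∃ q : Hz ℤ, nrm (x - q * y) < nrm y := by
  have hn := nrm_pos hy
  obtain ⟨q, hq⟩ := exists_round_Hz (x * conj y) (nrm y) hn
  refine ⟨q, ?_⟩
  have e : (x - q * y) * conj y = x * conj y - sc (nrm y) * q := by
    rw [sub_mul, mul_assoc q, mul_conj, sc_comm]
  have e2 : nrm (x - q * y) * nrm y < nrm y ^ 2 := by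
    rw [← nrm_conj y, ← nrm_mul, nrm_conj y, e]; exact hq
  nlinarith

/-- every left ideal is principal -/
theorem exists_gen (I : Ideal (Hz ℤ)) : ∃ d, I = Ideal.span {d} := by
  by_cases hI : I = ⊥
  · exact ⟨0, by rw [hI]; simp⟩
  · obtain ⟨x0, hx0, hx0'⟩ := Submodule.exists_mem_ne_zero_of_ne_bot hI
    have hex : ∃ n : ℕ, ∃ x ∈ I, x ≠ 0 ∧ (nrm x).toNat = n := ⟨_, x0, hx0, hx0', rfl⟩
    classical
    obtain ⟨d, hd, hd0, hdn⟩ := Nat.find_spec hex
    have hmin : ∀ x ∈ I, x ≠ 0 → nrm d ≤ nrm x := by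
      intro x hx hx0
      have := Nat.find_min' hex ⟨x, hx, hx0, rfl⟩
      rw [← hdn] at this
      have h1 := nrm_nonneg x
      have h2 := nrm_nonneg d
      omega
    refine ⟨d, le_antisymm ?_ ?_⟩
    · intro x hx
      obtain ⟨q, hq⟩ := exists_div x d hd0
      have hr : x - q * d ∈ I := I.sub_mem hx (I.mul_mem_left q hd)
      by_cases h0 : x - q * d = 0
      · rw [Ideal.mem_span_singleton']
        exact ⟨q, (sub_eq_zero.1 h0).symm⟩
      · exact absurd (hmin _ hr h0) (not_le.2 hq)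
    · rw [Ideal.span_singleton_le_iff_mem]; exact hd

end Hz

end Pool.Agent.CycSyl
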