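import Pool.Agent.CycSyl.Hz

/-!
The level 11 order inside the Hurwitz order, its sign normalisation, and unique divisors of
prime norm.
-/

set_option autoImplicit false

namespace Pool.Agent.CycSyl

open Hz

/-- the linear form cutting out the level 11 order -/
def lf (x : Hz ℤ) : ZMod 11 := 2 * (x.b : ZMod 11) + 3 * x.c + 4 * x.d
/-- the level 11 order -/
def InO (x : Hz ℤ) : Prop := lf x = 0
instance : DecidablePred InO := fun _ => by unfold InO; infer_instance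
/-- the character of the level 11 order -/
def lam (x : Hz ℤ) : ZMod 11 := (x.a : ZMod 11) + 2 * x.b - 4 * x.c - x.d
/-- nonzero squares modulo 11 -/
def Sq (a : ZMod 11) : Prop := a = 1 ∨ a = 3 ∨ a = 4 ∨ a = 5 ∨ a = 9
instance : DecidablePred Sq := fun _ => by unfold Sq; infer_instance
/-- sign-normalised elements of the level 11 order -/
def OP (x : Hz ℤ) : Prop := InO x ∧ Sq (lam x)
instance : DecidablePred OP := fun _ => by unfold OP; infer_instance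

instance fact11 : Fact (Nat.Prime 11) := ⟨by norm_num⟩

theorem Sq_mul {a b : ZMod 11} (ha : Sq a) (hb : Sq b) : Sq (a * b) := by
  revert a b; decide
theorem Sq_div {a b : ZMod 11} (ha : Sq a) (hb : Sq (a * b)) : Sq b := by
  revert a b; decide
theorem Sq_div' {a b : ZMod 11} (ha : Sq b) (hb : Sq (a * b)) : Sq a := by
  revert a b; decide
theorem Sq_or {a : ZMod 11} (ha : a ≠ 0) : Sq a ∨ Sq (-a) := by
  revert a; decide
theorem Sq_not_neg {a : ZMod 11} (ha : Sq a) : ¬ Sq (-a) := by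
  revert a; decide
theorem Sq_ne_zero {a : ZMod 11} (ha : Sq a) : a ≠ 0 := by
  revert a; decide
theorem Sq_one : Sq 1 := by decide

theorem eleven : (11 : ZMod 11) = 0 := by decide

theorem InO_b {x : Hz ℤ} (hx : InO x) : (x.b : ZMod 11) = 4 * x.c + 9 * x.d := by
  unfold InO lf at hx
  linear_combination 6 * hx - (x.b : ZMod 11) * eleven - 2 * x.c * eleven - 3 * x.d * eleven

theorem InO_mul {x y : Hz ℤ} (hx : InO x) (hy : InO y) : InO (x * y) := by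
  have h1 := InO_b hx
  have h2 := InO_b hy
  unfold InO lf
  simp only [mul_a, mul_b, mul_c, mul_d]
  push_cast
  rw [h1, h2]
  ring_nf
  reduce_mod_char

theorem lam_mul {x y : Hz ℤ} (hx : InO x) (hy : InO y) : lam (x * y) = lam x * lam y := by
  have h1 := InO_b hx
  have h2 := InO_b hy
  rw [← sub_eq_zero]
  unfold lam
  simp only [mul_a, mul_b, mul_c, mul_d]
  push_cast
  rw [h1, h2]
  ring_nf
  reduce_mod_char

theorem InO_conj {x : Hz ℤ} (hx : InO x) : InO (conj x) := by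
  unfold InO lf at *
  simp only [conj_b, conj_c, conj_d]
  push_cast
  linear_combination -hx
theorem InO_neg {x : Hz ℤ} (hx : InO x) : InO (-x) := by
  unfold InO lf at *
  simp only [neg_b, neg_c, neg_d]
  push_cast
  linear_combination -hx
theorem InO_add {x y : Hz ℤ} (hx : InO x) (hy : InO y) : InO (x + y) := by
  unfold InO lf at *
  simp only [add_b, add_c, add_d]
  push_cast
  linear_combination hx + hy
theorem InO_sc (n : ℤ) : InO (sc n) := by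
  unfold InO lf; simp
theorem lam_sc (n : ℤ) : lam (sc n) = n := by
  unfold lam; simp
theorem lam_neg (x : Hz ℤ) : lam (-x) = -lam x := by
  unfold lam; simp only [neg_a, neg_b, neg_c, neg_d]; push_cast; ring
theorem lam_add (x y : Hz ℤ) : lam (x + y) = lam x + lam y := by
  unfold lam; simp only [add_a, add_b, add_c, add_d]; push_cast; ring
theorem lam_conj {x : Hz ℤ} (hx : InO x) : lam (conj x) = (tr x : ℤ) - lam x := by
  have h1 := InO_b hx
  unfold lam tr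
  simp only [conj_a, conj_b, conj_c, conj_d]
  push_cast
  ring
theorem lam_mul_lam_conj {x : Hz ℤ} (hx : InO x) : lam x * lam (conj x) = (nrm x : ℤ) := by
  rw [← lam_mul hx (InO_conj hx), mul_conj, lam_sc]

theorem InO_of_sc_mul {n : ℤ} {x : Hz ℤ} (hn : (n : ZMod 11) ≠ 0) (hx : InO (sc n * x)) :
    InO x := by
  have : (n : ZMod 11) * lf x = 0 := by
    unfold InO lf at hx
    unfold lf
    simp only [mul_b, mul_c, mul_d, sc_a, sc_b, sc_c, sc_d] at hx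
    push_cast at hx
    linear_combination hx
  rcases mul_eq_zero.1 this with h | h
  · exact absurd h hn
  · exact h

theorem InO_left {x y : Hz ℤ} (hy : InO y) (hn : ((nrm y : ℤ) : ZMod 11) ≠ 0)
    (h : InO (x * y)) : InO x := by
  apply InO_of_sc_mul hn
  have : sc (nrm y) * x = x * y * conj y := by rw [mul_assoc, mul_conj, sc_comm]
  rw [this]; exact InO_mul h (InO_conj hy)

theorem InO_right {x y : Hz ℤ} (hx : InO x) (hn : ((nrm x : ℤ) : ZMod 11) ≠ 0)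
    (h : InO (x * y)) : InO y := by
  apply InO_of_sc_mul hn
  have : sc (nrm x) * y = conj x * (x * y) := by rw [← mul_assoc, conj_mul_self]
  rw [this]; exact InO_mul (InO_conj hx) h

theorem OP_mul {x y : Hz ℤ} (hx : OP x) (hy : OP y) : OP (x * y) :=
  ⟨InO_mul hx.1 hy.1, by rw [lam_mul hx.1 hy.1]; exact Sq_mul hx.2 hy.2⟩
theorem OP_one : OP 1 := by decide
theorem OP_not_neg {x : Hz ℤ} (hx : OP x) : ¬ OP (-x) := by
  rintro ⟨_, h⟩
  rw [lam_neg] at h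
  exact Sq_not_neg hx.2 h
theorem lam_ne_zero {x : Hz ℤ} (hx : InO x) (hn : ((nrm x : ℤ) : ZMod 11) ≠ 0) :
    lam x ≠ 0 := by
  intro h
  apply hn
  rw [← lam_mul_lam_conj hx, h, zero_mul]
theorem OP_or {x : Hz ℤ} (hx : InO x) (hn : ((nrm x : ℤ) : ZMod 11) ≠ 0) : OP x ∨ OP (-x) := by
  rcases Sq_or (lam_ne_zero hx hn) with h | h
  · exact Or.inl ⟨hx, h⟩
  · exact Or.inr ⟨InO_neg hx, by rw [lam_neg]; exact h⟩

/-! ### units -/

theorem abs_le_of_sq {z n : ℤ} (hn : 0 ≤ n) (h : z ^ 2 ≤ n ^ 2) : -n ≤ z ∧ z ≤ n :=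
  abs_le.1 (abs_le_of_sq_le_sq h hn)

theorem unit_bound {u : Hz ℤ} (hu : nrm u = 1) :
    (u.a ∈ Finset.Icc (-2 : ℤ) 2) ∧ (u.b ∈ Finset.Icc (-2 : ℤ) 2) ∧
    (u.c ∈ Finset.Icc (-2 : ℤ) 2) ∧ (u.d ∈ Finset.Icc (-2 : ℤ) 2) := by
  have h4 := four_nrm u
  rw [hu] at h4
  have h0 := sq_nonneg (2 * u.a + u.d)
  have h1 := sq_nonneg (2 * u.b + u.d)
  have h2 := sq_nonneg (2 * u.c + u.d)
  have h3 := sq_nonneg u.d
  have e0 := abs_le_of_sq (z := 2 * u.a + u.d) (n := 2) (by norm_num) (by linarith)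
  have e1 := abs_le_of_sq (z := 2 * u.b + u.d) (n := 2) (by norm_num) (by linarith)
  have e2 := abs_le_of_sq (z := 2 * u.c + u.d) (n := 2) (by norm_num) (by linarith)
  have e3 := abs_le_of_sq (z := u.d) (n := 2) (by norm_num) (by linarith)
  simp only [Finset.mem_Icc]
  omega

theorem unit_InO {u : Hz ℤ} (hu : nrm u = 1) (hO : InO u) : u = 1 ∨ u = -1 := by
  obtain ⟨ha, hb, hc, hd⟩ := unit_bound hu
  obtain ⟨a, b, c, d⟩ := u
  simp only at ha hb hc hd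
  have key : ∀ a ∈ Finset.Icc (-2 : ℤ) 2, ∀ b ∈ Finset.Icc (-2 : ℤ) 2,
      ∀ c ∈ Finset.Icc (-2 : ℤ) 2, ∀ d ∈ Finset.Icc (-2 : ℤ) 2,
      a ^ 2 + b ^ 2 + c ^ 2 + d ^ 2 + d * (a + b + c) = 1 → lf ⟨a, b, c, d⟩ = 0 →
      (a = 1 ∧ b = 0 ∧ c = 0 ∧ d = 0) ∨ (a = -1 ∧ b = 0 ∧ c = 0 ∧ d = 0) := by
    decide +kernel
  rcases key a ha b hb c hc d hd hu hO with ⟨rfl, rfl, rfl, rfl⟩ | ⟨rfl, rfl, rfl, rfl⟩
  · left; rfl
  · right; rfl

theorem exists_unit_InO (y : Hz ℤ) : ∃ u : Hz ℤ, nrm u = 1 ∧ InO (u * y) := by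
  have key : ∀ s t : ZMod 11, s = 0 ∨ t = 0 ∨ 4 * s + 4 * t = 0 ∨ 5 * s + 10 * t = 0 ∨
      9 * s + 5 * t = 0 ∨ 6 * s + 2 * t = 0 ∨ 10 * s + 6 * t = 0 ∨ 10 * s + 5 * t = 0 ∨
      6 * s + 9 * t = 0 ∨ 9 * s + 6 * t = 0 ∨ 6 * s + 10 * t = 0 ∨ 4 * s + 7 * t = 0 := by
    decide
  rcases key (lf y) (2 * (y.a : ZMod 11) + 3 * y.c + y.d) with h | h | h | h | h | h | h | h | h |
    h | h | h
  · exact ⟨⟨1, 0, 0, 0⟩, by decide, by
      simp only [InO, lf, mul_b, mul_c, mul_d] at h ⊢; rw [← h]; push_cast; ring⟩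
  · exact ⟨⟨0, 1, 0, 0⟩, by decide, by
      simp only [InO, lf, mul_b, mul_c, mul_d] at h ⊢; rw [← h]; push_cast; ring_nf⟩
  · exact ⟨⟨1, 1, 1, -2⟩, by decide, by
      simp only [InO, lf, mul_b, mul_c, mul_d] at h ⊢
      rw [← h, ← sub_eq_zero]; push_cast; ring_nf; reduce_mod_char⟩
  · exact ⟨⟨0, 1, 0, -1⟩, by decide, by
      simp only [InO, lf, mul_b, mul_c, mul_d] at h ⊢
      rw [← h, ← sub_eq_zero]; push_cast; ring_nf; reduce_mod_char⟩
  · exact ⟨⟨0, 0, 1, -1⟩, by decide, by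
      simp only [InO, lf, mul_b, mul_c, mul_d] at h ⊢
      rw [← h, ← sub_eq_zero]; push_cast; ring_nf; reduce_mod_char⟩
  · exact ⟨⟨0, 0, 0, 1⟩, by decide, by
      simp only [InO, lf, mul_b, mul_c, mul_d] at h ⊢
      rw [← h, ← sub_eq_zero]; push_cast; ring_nf; reduce_mod_char⟩
  · exact ⟨⟨1, 1, 1, -1⟩, by decide, by
      simp only [InO, lf, mul_b, mul_c, mul_d] at h ⊢
      rw [← h, ← sub_eq_zero]; push_cast; ring_nf; reduce_mod_char⟩
  · exact ⟨⟨1, 0, 1, -1⟩, by decide, by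
      simp only [InO, lf, mul_b, mul_c, mul_d] at h ⊢
      rw [← h, ← sub_eq_zero]; push_cast; ring_nf; reduce_mod_char⟩
  · exact ⟨⟨1, 0, 0, -1⟩, by decide, by
      simp only [InO, lf, mul_b, mul_c, mul_d] at h ⊢
      rw [← h, ← sub_eq_zero]; push_cast; ring_nf; reduce_mod_char⟩
  · exact ⟨⟨0, 1, 1, -1⟩, by decide, by
      simp only [InO, lf, mul_b, mul_c, mul_d] at h ⊢
      rw [← h, ← sub_eq_zero]; push_cast; ring_nf; reduce_mod_char⟩
  · exact ⟨⟨1, 1, 0, -1⟩, by decide, by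
      simp only [InO, lf, mul_b, mul_c, mul_d] at h ⊢
      rw [← h, ← sub_eq_zero]; push_cast; ring_nf; reduce_mod_char⟩
  · exact ⟨⟨0, 0, 1, 0⟩, by decide, by
      simp only [InO, lf, mul_b, mul_c, mul_d] at h ⊢
      rw [← h, ← sub_eq_zero]; push_cast; ring_nf; reduce_mod_char⟩

/-- normalisation of an element by a left unit -/
theorem exists_unit_OP (y : Hz ℤ) (hn : ((nrm y : ℤ) : ZMod 11) ≠ 0) :
    ∃ u : Hz ℤ, nrm u = 1 ∧ OP (u * y) := by
  obtain ⟨u, hu, hO⟩ := exists_unit_InO y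
  have hn' : ((nrm (u * y) : ℤ) : ZMod 11) ≠ 0 := by rw [nrm_mul, hu, one_mul]; exact hn
  rcases OP_or hO hn' with h | h
  · exact ⟨u, hu, h⟩
  · exact ⟨-u, by rw [nrm_neg, hu], by rw [neg_mul]; exact h⟩

theorem unit_OP {y u : Hz ℤ} (hn : ((nrm y : ℤ) : ZMod 11) ≠ 0) (hy : OP y)
    (hu : nrm u = 1) (h : OP (u * y)) : u = 1 := by
  rcases unit_InO hu (InO_left hy.1 hn h.1) with rfl | rfl
  · rfl
  · exfalso
    rw [neg_mul, one_mul] at h
    exact OP_not_neg hy h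

/-! ### divisibility by integers -/

theorem sc_dvd_iff {n : ℤ} {x : Hz ℤ} :
    sc n ∣ x ↔ n ∣ x.a ∧ n ∣ x.b ∧ n ∣ x.c ∧ n ∣ x.d := by
  constructor
  · rintro ⟨z, rfl⟩
    simp
  · rintro ⟨⟨a, ha⟩, ⟨b, hb⟩, ⟨c, hc⟩, ⟨d, hd⟩⟩
    exact ⟨⟨a, b, c, d⟩, by ext <;> simp [*]⟩

theorem sc_dvd_mul_left {n : ℤ} {x : Hz ℤ} (y : Hz ℤ) (h : sc n ∣ x) : sc n ∣ y * x := by
  obtain ⟨z, rfl⟩ := h
  exact ⟨y * z, by rw [← mul_assoc, ← sc_comm, mul_assoc]⟩
theorem sc_dvd_mul_right {n : ℤ} {x : Hz ℤ} (y : Hz ℤ) (h : sc n ∣ x) : sc n ∣ x * y := by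
  obtain ⟨z, rfl⟩ := h
  exact ⟨z * y, by rw [mul_assoc]⟩
theorem sc_dvd_neg {n : ℤ} {x : Hz ℤ} : sc n ∣ -x ↔ sc n ∣ x := by
  simp [sc_dvd_iff]
theorem sc_dvd_add {n : ℤ} {x y : Hz ℤ} (hx : sc n ∣ x) (hy : sc n ∣ y) : sc n ∣ x + y := by
  obtain ⟨z, rfl⟩ := hx
  obtain ⟨w, rfl⟩ := hy
  exact ⟨z + w, by rw [mul_add]⟩
theorem sc_dvd_sub {n : ℤ} {x y : Hz ℤ} (hx : sc n ∣ x) (hy : sc n ∣ y) : sc n ∣ x - y := by
  obtain ⟨z, rfl⟩ := hx
  obtain ⟨w, rfl⟩ := hy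
  exact ⟨z - w, by rw [mul_sub]⟩
theorem sc_dvd_conj {n : ℤ} {x : Hz ℤ} (hx : sc n ∣ x) : sc n ∣ conj x := by
  obtain ⟨z, rfl⟩ := hx
  exact ⟨conj z, by rw [Hz.conj_mul, conj_sc, sc_comm]⟩
theorem sc_dvd_conj_iff {n : ℤ} {x : Hz ℤ} : sc n ∣ conj x ↔ sc n ∣ x :=
  ⟨fun h => by have := sc_dvd_conj h; rwa [conj_conj] at this, sc_dvd_conj⟩
theorem sc_ne_zero {n : ℤ} (hn : n ≠ 0) : (sc n : Hz ℤ) ≠ 0 := by
  intro h; apply hn; have := congrArg Hz.a h; simpa using this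
theorem sc_inj_mul {n : ℤ} (hn : n ≠ 0) {x y : Hz ℤ} (h : sc n * x = sc n * y) : x = y :=
  mul_left_cancel₀ (sc_ne_zero hn) h
theorem sc_dvd_tr {n : ℤ} {x : Hz ℤ} (h : sc n ∣ x) : n ∣ tr x := by
  obtain ⟨z, rfl⟩ := h
  rw [tr_sc_mul]; exact dvd_mul_right _ _
theorem sc_dvd_nrm {n : ℤ} {x : Hz ℤ} (h : sc n ∣ x) : n ^ 2 ∣ nrm x := by
  obtain ⟨z, rfl⟩ := h
  rw [nrm_mul, nrm_sc]; exact dvd_mul_right _ _

/-! ### divisors of prime norm -/

theorem nrm_one_add (s : ℤ) (b : Hz ℤ) : nrm (1 - sc s * b) = 1 - s * tr b + s ^ 2 * nrm b := by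
  simp only [nrm, tr, sub_a, sub_b, sub_c, sub_d, one_a, one_b, one_c, one_d, mul_a, mul_b, mul_c,
    mul_d, sc_a, sc_b, sc_c, sc_d]
  ring

/-- a left divisor relation: `u` lies in the left ideal generated by `y` -/
def LM (u y : Hz ℤ) : Prop := ∃ z, u = z * y

theorem exists_right {s : ℕ} (hs : s.Prime) {u : Hz ℤ} (h1 : (s : ℤ) ∣ nrm u)
    (h2 : ¬ sc (s : ℤ) ∣ u) : ∃ y : Hz ℤ, nrm y = s ∧
      Ideal.span {y} = Ideal.span {u} ⊔ Ideal.span {sc (s : ℤ)} := by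
  obtain ⟨y, hy⟩ := exists_gen (Ideal.span {u} ⊔ Ideal.span {sc (s : ℤ)})
  have hu : u ∈ Ideal.span {y} := by
    rw [← hy]; exact Ideal.mem_sup_left (Ideal.mem_span_singleton_self u)
  have hs' : sc (s : ℤ) ∈ Ideal.span {y} := by
    rw [← hy]; exact Ideal.mem_sup_right (Ideal.mem_span_singleton_self _)
  have hy' : y ∈ Ideal.span {u} ⊔ Ideal.span {sc (s : ℤ)} := by
    rw [hy]; exact Ideal.mem_span_singleton_self y
  rw [Ideal.mem_span_singleton'] at hu hs'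
  obtain ⟨z, hz⟩ := hu
  obtain ⟨w, hw⟩ := hs'
  refine ⟨y, ?_, hy.symm⟩
  have hs0 : (s : ℤ) ≠ 0 := by exact_mod_cast hs.ne_zero
  have e1 : nrm w * nrm y = (s : ℤ) ^ 2 := by rw [← nrm_mul, hw, nrm_sc]
  have hyn := nrm_nonneg y
  have hwn := nrm_nonneg w
  have hdvd : (nrm y).natAbs ∣ s ^ 2 := by
    have : nrm y ∣ (s : ℤ) ^ 2 := ⟨nrm w, by rw [← e1]; ring⟩
    have := Int.natAbs_dvd_natAbs.2 this
    rwa [Int.natAbs_pow, Int.natAbs_natCast] at this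
  obtain ⟨k, hk, hk'⟩ := (Nat.dvd_prime_pow hs).1 hdvd
  have hyk : nrm y = (s : ℤ) ^ k := by
    have : ((nrm y).natAbs : ℤ) = nrm y := Int.natAbs_of_nonneg hyn
    rw [← this, hk']; push_cast; rfl
  interval_cases k
  · exfalso
    rw [pow_zero] at hyk
    -- `y` is a unit
    have h1y : (1 : Hz ℤ) ∈ Ideal.span {u} ⊔ Ideal.span {sc (s : ℤ)} := by
      rw [hy, Ideal.mem_span_singleton']
      exact ⟨conj y, by rw [conj_mul_self, hyk, map_one]⟩
    rw [Submodule.mem_sup] at h1y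
    obtain ⟨p, hp, q, hq, hpq⟩ := h1y
    rw [Ideal.mem_span_singleton'] at hp hq
    obtain ⟨a, rfl⟩ := hp
    obtain ⟨b, rfl⟩ := hq
    have h3 : a * u = 1 - sc (s : ℤ) * b := by rw [← hpq, sc_comm]; abel
    have h4 : nrm a * nrm u = 1 - s * tr b + s ^ 2 * nrm b := by
      rw [← nrm_mul, h3, nrm_one_add]
    have h5 : (s : ℤ) ∣ 1 := by
      have h6 : (1 : ℤ) = nrm a * nrm u + s * (tr b - s * nrm b) := by rw [h4]; ring
      rw [h6]
      exact dvd_add (h1.mul_left _) (dvd_mul_right _ _)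
    have := Int.eq_one_of_dvd_one (by positivity) h5
    have hs1 : s = 1 := by exact_mod_cast this
    exact hs.one_lt.ne' hs1
  · simpa using hyk
  · exfalso
    apply h2
    have hw1 : nrm w = 1 := by
      rw [hyk] at e1
      have : (s : ℤ) ^ 2 ≠ 0 := pow_ne_zero _ hs0
      exact mul_right_cancel₀ this (by rw [one_mul]; exact e1)
    have : y = sc (s : ℤ) * conj w := by
      have : conj w * (w * y) = conj w * sc (s : ℤ) := by rw [hw]
      rw [← mul_assoc, conj_mul_self, hw1, map_one, one_mul] at this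
      rw [this, sc_comm]
    rw [← hz, this]
    exact sc_dvd_mul_left _ ⟨_, rfl⟩

theorem span_eq_of_nrm {s : ℤ} (hs : s ≠ 0) {y y' : Hz ℤ} (hy : nrm y = s) (hy' : nrm y' = s)
    (h : y ∈ Ideal.span {y'}) : ∃ u, nrm u = 1 ∧ y = u * y' := by
  rw [Ideal.mem_span_singleton'] at h
  obtain ⟨u, hu⟩ := h
  refine ⟨u, ?_, hu.symm⟩
  have : nrm u * nrm y' = nrm y := by rw [← nrm_mul, hu]
  rw [hy, hy'] at this
  exact mul_right_cancel₀ hs (by rw [one_mul]; exact this)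

theorem zmod_ne_zero_of_prime {s : ℕ} (hs : s.Prime) (h11 : s ≠ 11) :
    ((s : ℤ) : ZMod 11) ≠ 0 := by
  intro h
  rw [Int.cast_natCast, ZMod.natCast_eq_zero_iff] at h
  exact h11 ((Nat.prime_dvd_prime_iff_eq (by norm_num) hs).1 h).symm

/-- The unique normalised right divisor of norm `s`. -/
theorem existsUnique_right {s : ℕ} (hs : s.Prime) (h11 : s ≠ 11) {u : Hz ℤ}
    (h1 : (s : ℤ) ∣ nrm u) (h2 : ¬ sc (s : ℤ) ∣ u) :
    ∃! y : Hz ℤ, (OP y ∧ nrm y = s) ∧ LM u y := by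
  have hs0 : (s : ℤ) ≠ 0 := by exact_mod_cast hs.ne_zero
  have hs11 := zmod_ne_zero_of_prime hs h11
  obtain ⟨y0, hy0, hspan⟩ := exists_right hs h1 h2
  obtain ⟨v, hv, hvy⟩ := exists_unit_OP y0 (by rw [hy0]; exact hs11)
  have hvn : nrm (v * y0) = s := by rw [nrm_mul, hv, one_mul, hy0]
  have hyv : y0 = conj v * (v * y0) := by rw [← mul_assoc, conj_mul_self, hv, map_one, one_mul]
  refine ⟨v * y0, ⟨⟨hvy, hvn⟩, ?_⟩, ?_⟩
  · have : u ∈ Ideal.span {y0} := by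
      rw [hspan]; exact Ideal.mem_sup_left (Ideal.mem_span_singleton_self u)
    rw [Ideal.mem_span_singleton'] at this
    obtain ⟨z, hz⟩ := this
    exact ⟨z * conj v, by rw [mul_assoc, ← hyv, hz]⟩
  · rintro y ⟨⟨hyO, hyn⟩, z, hz⟩
    -- `y0 ∈ M y`
    have h3 : y0 ∈ Ideal.span {y} := by
      have h4 : Ideal.span {u} ⊔ Ideal.span {sc (s : ℤ)} ≤ Ideal.span {y} := by
        rw [sup_le_iff, Ideal.span_singleton_le_iff_mem, Ideal.span_singleton_le_iff_mem,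
          Ideal.mem_span_singleton', Ideal.mem_span_singleton']
        exact ⟨⟨z, hz.symm⟩, ⟨conj y, by rw [conj_mul_self, hyn]⟩⟩
      apply h4
      rw [← hspan]; exact Ideal.mem_span_singleton_self y0
    obtain ⟨w, hw, hw'⟩ := span_eq_of_nrm hs0 hy0 hyn h3
    have h5 : v * y0 = (v * w) * y := by rw [hw', mul_assoc]
    have h6 : v * w = 1 := by
      apply unit_OP (y := y) (by rw [hyn]; exact hs11) hyO
      · rw [nrm_mul, hv, hw, one_mul]
      · rw [← h5]; exact hvy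
    rw [h5, h6, one_mul]

/-- The unique normalised left divisor of norm `s`, in conjugated form. -/
theorem existsUnique_left {s : ℕ} (hs : s.Prime) (h11 : s ≠ 11) {u : Hz ℤ}
    (h1 : (s : ℤ) ∣ nrm u) (h2 : ¬ sc (s : ℤ) ∣ u) :
    ∃! y : Hz ℤ, (OP y ∧ nrm y = s) ∧ ∃ z, u = conj y * z := by
  have h := existsUnique_right hs h11 (u := conj u) (by rw [nrm_conj]; exact h1)
    (by rw [sc_dvd_conj_iff]; exact h2)
  obtain ⟨y, ⟨hy, z, hz⟩, huniq⟩ := h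
  refine ⟨y, ⟨hy, conj z, ?_⟩, ?_⟩
  · rw [← Hz.conj_mul, ← hz, conj_conj]
  · rintro y' ⟨hy', z', hz'⟩
    apply huniq
    exact ⟨hy', conj z', by rw [hz', Hz.conj_mul, conj_conj]⟩

end Pool.Agent.CycSyl
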