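import Pool.Agent.CycSyl.QD

/-!
Elements of prime power order in the class group.
-/

set_option autoImplicit false

namespace Pool.Agent.CycSyl

open Hz

/-- labels on a commutative ring -/
structure OLab (O : Type*) [CommRing O] (p : ℕ) where
  good : O → Prop
  f : O → ZMod p
  good_mul : ∀ a b, good (a * b) ↔ good a ∧ good b
  good_one : good 1
  f_mul : ∀ a b, good a → good b → f (a * b) = f a + f b

namespace OLab

variable {O : Type*} [CommRing O] {p : ℕ} (Lb : OLab O p)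

theorem good_unit {u : O} (hu : IsUnit u) : Lb.good u := by
  obtain ⟨v, hv⟩ := hu.exists_right_inv
  have := Lb.good_one
  rw [← hv, Lb.good_mul] at this
  exact this.1

theorem good_pow {a : O} (n : ℕ) (h : Lb.good a) : Lb.good (a ^ n) := by
  induction n with
  | zero => rw [pow_zero]; exact Lb.good_one
  | succ n ih => rw [pow_succ, Lb.good_mul]; exact ⟨ih, h⟩

theorem good_of_pow {a : O} {n : ℕ} (hn : n ≠ 0) (h : Lb.good (a ^ n)) : Lb.good a := by
  obtain ⟨k, rfl⟩ := Nat.exists_eq_succ_of_ne_zero hn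
  rw [Nat.succ_eq_add_one, pow_succ, Lb.good_mul] at h
  exact h.2

theorem f_one : Lb.f 1 = 0 := by
  have := Lb.f_mul 1 1 Lb.good_one Lb.good_one
  rw [mul_one] at this
  simpa using this

theorem f_pow {a : O} (n : ℕ) (h : Lb.good a) : Lb.f (a ^ n) = n * Lb.f a := by
  induction n with
  | zero => rw [pow_zero, f_one]; simp
  | succ n ih => rw [pow_succ, Lb.f_mul _ _ (Lb.good_pow n h) h, ih]; push_cast; ring

theorem f_unit_zero {u : O} (N : ℕ) (hN0 : N ≠ 0) (hN : IsUnit (N : ZMod p)) (hu : u ^ N = 1) :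
    Lb.f u = 0 := by
  have hg : Lb.good u := by
    apply Lb.good_of_pow hN0; rw [hu]; exact Lb.good_one
  have h1 := Lb.f_pow N hg
  rw [hu, f_one] at h1
  exact (hN.mul_right_eq_zero.1 h1.symm)

end OLab

namespace QData

variable {O : Type*} [CommRing O] [IsDedekindDomain O] {t m : ℤ} (D : QData O t m)

include D in
/-- the power theorem -/
theorem exists_order {p : ℕ} (hp : p.Prime) (Lb : OLab O p) (v : ℕ) {ρ g t1 : ℤ} (hρ : ρ ≠ 0)
    (hm : m = ρ * g ^ (p ^ (v + 1))) (ht : t = ρ * t1) (hcop : IsCoprime t g)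
    (hgρ : Lb.good (ρ : O)) (hfρ : Lb.f (ρ : O) = 0) (hgθ : Lb.good D.θ)
    (hfθ : Lb.f D.θ + Lb.f D.θ ≠ 0) (hunit : ∀ u : O, IsUnit u → Lb.f u = 0) :
    ∃ C : ClassGroup O, orderOf C = p ^ (v + 1) := by
  obtain ⟨n, hn⟩ : ∃ n, n = p ^ (v + 1) := ⟨_, rfl⟩
  have hn0 : n ≠ 0 := by rw [hn]; exact pow_ne_zero _ hp.ne_zero
  rw [← hn] at hm
  have hρO : (ρ : O) ≠ 0 := D.int_ne hρ
  obtain ⟨η, hη⟩ : ∃ η : O, η = (t1 : O) * D.θ - (g : O) ^ n := ⟨_, rfl⟩
  have htO : (t : O) = (ρ : O) * t1 := by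
    have := congrArg (Int.cast : ℤ → O) ht
    push_cast at this; exact this
  have hmO : (m : O) = (ρ : O) * (g : O) ^ n := by
    have := congrArg (Int.cast : ℤ → O) hm
    push_cast at this; exact this
  have h1 : (ρ : O) * η = D.θ * D.θ := by
    rw [hη, D.hθ]
    linear_combination hmO - D.θ * htO
  have hσθ : D.θ * D.σ D.θ = (m : O) := by
    rw [D.hσ]; linear_combination -D.hθ
  have h1' : (ρ : O) * D.σ η = D.σ D.θ * D.σ D.θ := by
    have := congrArg D.σ h1
    rwa [map_mul, map_mul, map_intCast] at this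
  have h2 : η * D.σ η = ((g : O) ^ 2) ^ n := by
    apply mul_left_cancel₀ (mul_ne_zero hρO hρO)
    have e1 : (ρ : O) * ρ * (η * D.σ η) = (D.θ * D.σ D.θ) * (D.θ * D.σ D.θ) := by
      linear_combination (D.σ η * ρ) * h1 + (D.θ * D.θ) * h1'
    rw [e1, hσθ, hmO]; ring
  have h3 : η + D.σ η = ((t1 * t - 2 * g ^ n : ℤ) : O) := by
    rw [hη, map_sub, map_mul, map_pow, map_intCast, map_intCast, D.hσ]
    push_cast; ring
  have hcop1 : IsCoprime (t1 * t - 2 * g ^ n) ((g ^ 2) ^ n) := by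
    apply IsCoprime.pow_right
    apply IsCoprime.pow_right
    have ha : IsCoprime (t1 * t) g := by
      apply IsCoprime.mul_left _ hcop
      apply hcop.of_isCoprime_of_dvd_left
      exact ⟨ρ, by rw [ht]; ring⟩
    have hb : t1 * t - 2 * g ^ n = t1 * t + g * (-2 * g ^ (n - 1)) := by
      obtain ⟨k, rfl⟩ := Nat.exists_eq_succ_of_ne_zero hn0
      simp only [Nat.succ_eq_add_one, Nat.add_sub_cancel]
      ring
    rw [hb]
    exact ha.add_mul_left_left _
  have hcopO : IsCoprime (Ideal.span {η}) (Ideal.span {D.σ η}) := by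
    rw [Ideal.isCoprime_span_singleton_iff]
    obtain ⟨A, B, hAB⟩ := hcop1
    have h4 := congrArg (Int.cast : ℤ → O) hAB
    rw [Int.cast_add, Int.cast_mul, ← h3, Int.cast_mul] at h4
    have h5 : (((g ^ 2) ^ n : ℤ) : O) = η * D.σ η := by rw [h2]; push_cast; ring
    rw [h5, Int.cast_one] at h4
    exact ⟨(A : O) + (B : O) * D.σ η, (A : O), by linear_combination h4⟩
  have h6 : Ideal.span {η} * Ideal.span {D.σ η} = (Ideal.span {(g : O) ^ 2}) ^ n := by
    rw [Ideal.span_singleton_mul_span_singleton, h2, Ideal.span_singleton_pow]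
  obtain ⟨A, hA⟩ := exists_eq_pow_of_mul_eq_pow_of_coprime hcopO h6
  have hθ0 : D.θ ≠ 0 := by
    intro h0
    have := D.indep 0 1 (by rw [h0]; simp)
    exact one_ne_zero this.2
  have hη0 : η ≠ 0 := by
    intro h0
    rw [h0, mul_zero] at h1
    exact hθ0 (mul_self_eq_zero.1 h1.symm)
  have hA0 : A ≠ 0 := by
    rintro rfl
    rw [zero_pow hn0] at hA
    exact hη0 (Ideal.span_singleton_eq_bot.1 hA)
  have hAm : A ∈ nonZeroDivisors (Ideal O) := mem_nonZeroDivisors_iff_ne_zero.2 hA0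
  refine ⟨ClassGroup.mk0 ⟨A, hAm⟩, ?_⟩
  have : Fact p.Prime := ⟨hp⟩
  apply orderOf_eq_prime_pow
  · intro h7
    rw [← map_pow] at h7
    have e2 : (⟨A, hAm⟩ : nonZeroDivisors (Ideal O)) ^ (p ^ v) =
        ⟨A ^ (p ^ v), pow_mem hAm _⟩ := rfl
    rw [e2, ClassGroup.mk0_eq_one_iff] at h7
    obtain ⟨γ, hγ⟩ := h7
    have h8 : Ideal.span {η} = Ideal.span {γ ^ p} := by
      rw [hA, hn, pow_succ, pow_mul, hγ, ← Ideal.span_singleton_pow]
    rw [Ideal.span_singleton_eq_span_singleton] at h8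
    obtain ⟨u, hu⟩ := h8
    -- labels
    have hgη : Lb.good η := by
      have : Lb.good ((ρ : O) * η) := by rw [h1, Lb.good_mul]; exact ⟨hgθ, hgθ⟩
      exact ((Lb.good_mul _ _).1 this).2
    have hfη : Lb.f η = Lb.f D.θ + Lb.f D.θ := by
      have := Lb.f_mul _ _ hgρ hgη
      rw [h1, Lb.f_mul _ _ hgθ hgθ, hfρ, zero_add] at this
      exact this.symm
    have hgu : Lb.good (u : O) := Lb.good_unit u.isUnit
    have h9 := Lb.f_mul _ _ hgη hgu
    rw [hu, hunit _ u.isUnit, add_zero] at h9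
    have hgγ : Lb.good γ := by
      apply Lb.good_of_pow hp.ne_zero
      rw [← hu, Lb.good_mul]; exact ⟨hgη, hgu⟩
    rw [Lb.f_pow p hgγ, ZMod.natCast_self, zero_mul] at h9
    exact hfθ (by rw [← hfη, ← h9])
  · rw [← map_pow]
    have e2 : (⟨A, hAm⟩ : nonZeroDivisors (Ideal O)) ^ (p ^ (v + 1)) =
        ⟨A ^ (p ^ (v + 1)), pow_mem hAm _⟩ := rfl
    rw [e2, ClassGroup.mk0_eq_one_iff, ← hn, ← hA]
    exact ⟨η, rfl⟩

include D in
/-- units -/
theorem unit_pow (hneg : t ^ 2 < 4 * m) {u : O} (hu : IsUnit u) :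
    u ^ 12 = 1 ∧ (¬ (3 : ℤ) ∣ t ^ 2 - 4 * m → u ^ 4 = 1) := by
  obtain ⟨w, hw⟩ := hu.exists_right_inv
  obtain ⟨N, hN⟩ := D.nrmInt u
  obtain ⟨N', hN'⟩ := D.nrmInt w
  obtain ⟨τ, hτ⟩ := D.trInt u
  obtain ⟨a, b, hab⟩ := D.span u
  have hNN : N * N' = 1 := by
    apply D.int_inj
    rw [Int.cast_mul, ← hN, ← hN', Int.cast_one]
    have h1 : D.σ u * D.σ w = 1 := by rw [← map_mul, hw, map_one]
    linear_combination (D.σ u * D.σ w) * hw + h1
  obtain ⟨F0, hF0⟩ : ∃ F0 : ℤ, F0 = t ^ 2 - 4 * m := ⟨_, rfl⟩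
  rw [← hF0] at hab
  have hab' : (F0 : O) * D.σ u = (a : O) + (b : O) * ((t : O) - D.θ) := by
    have := congrArg D.σ hab
    rw [map_mul, map_add, map_mul, D.hσ, map_intCast, map_intCast, map_intCast] at this
    exact this
  have hF0O : (F0 : O) = (t : O) ^ 2 - 4 * m := by rw [hF0]; push_cast; ring
  -- `F0² (τ² - 4N) = b² F0`
  have h2 : F0 ^ 2 * (τ ^ 2 - 4 * N) = b ^ 2 * F0 := by
    apply D.int_inj
    push_cast
    rw [← hτ, ← hN]
    have e1 : (F0 : O) * (u - D.σ u) = b * (2 * D.θ - t) := by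
      linear_combination hab - hab'
    have e2 : (2 * D.θ - (t : O)) * (2 * D.θ - t) = F0 := by
      rw [hF0O]; linear_combination 4 * D.hθ
    have e3 : ((F0 : O) * (u - D.σ u)) * ((F0 : O) * (u - D.σ u)) =
        b ^ 2 * F0 := by
      rw [e1, ← e2]; ring
    linear_combination e3
  have hF0neg : F0 < 0 := by rw [hF0]; linarith
  have h3 : F0 * (τ ^ 2 - 4 * N) = b ^ 2 := by
    have : F0 * (F0 * (τ ^ 2 - 4 * N)) = F0 * b ^ 2 := by linear_combination h2
    exact mul_left_cancel₀ hF0neg.ne this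
  have hN1 : N = 1 := by
    rcases Int.eq_one_or_neg_one_of_mul_eq_one hNN with h | h
    · exact h
    · exfalso
      rw [h] at h3
      nlinarith [sq_nonneg b, sq_nonneg τ]
  rw [hN1] at h3 hN
  have h4 : τ ^ 2 ≤ 4 := by nlinarith [sq_nonneg b]
  have hτ2 : -2 ≤ τ ∧ τ ≤ 2 := by constructor <;> nlinarith
  have h5 : u * u = (τ : O) * u - 1 := by
    rw [← hτ]
    have : u * D.σ u = 1 := by rw [hN]; simp
    linear_combination this * (-1)
  have hcases : τ = -2 ∨ τ = -1 ∨ τ = 0 ∨ τ = 1 ∨ τ = 2 := by omega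
  have key : (τ = -1 ∨ τ = 1) → (3 : ℤ) ∣ F0 := by
    intro h
    have h6 : F0 * (-3) = b ^ 2 := by
      rcases h with h | h <;> rw [h] at h3 <;> linarith
    have h7 : (3 : ℤ) ∣ b ^ 2 := ⟨-F0, by linarith⟩
    have h8 : (3 : ℤ) ∣ b := Int.prime_three.dvd_of_dvd_pow h7
    obtain ⟨k, hk⟩ := h8
    rw [hk] at h6
    exact ⟨-(k ^ 2), by linarith⟩
  rcases hcases with h | h | h | h | h
  · have e : (u + 1) * (u + 1) = 0 := by rw [h] at h5; push_cast at h5; linear_combination h5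
    have e2 : u = -1 := eq_neg_of_add_eq_zero_left (mul_self_eq_zero.1 e)
    rw [e2]
    exact ⟨by norm_num, fun _ => by norm_num⟩
  · have e : u * u * u = 1 := by
      rw [h] at h5; push_cast at h5; linear_combination (u - 1) * h5
    refine ⟨?_, fun h9 => absurd (by rw [← hF0]; exact key (Or.inl h)) h9⟩
    have : u ^ 12 = (u * u * u) ^ 4 := by ring
    rw [this, e, one_pow]
  · have e : u * u = -1 := by
      rw [h] at h5; push_cast at h5; linear_combination h5
    have e4 : u ^ 4 = 1 := by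
      have : u ^ 4 = (u * u) ^ 2 := by ring
      rw [this, e]; norm_num
    refine ⟨?_, fun _ => e4⟩
    have : u ^ 12 = (u ^ 4) ^ 3 := by ring
    rw [this, e4, one_pow]
  · have e : u * u * u = -1 := by
      rw [h] at h5; push_cast at h5; linear_combination (u + 1) * h5
    refine ⟨?_, fun h9 => absurd (by rw [← hF0]; exact key (Or.inr h)) h9⟩
    have : u ^ 12 = (u * u * u) ^ 4 := by ring
    rw [this, e]; norm_num
  · have e : (u - 1) * (u - 1) = 0 := by rw [h] at h5; push_cast at h5; linear_combination h5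
    have e2 : u = 1 := sub_eq_zero.1 (mul_self_eq_zero.1 e)
    rw [e2]
    exact ⟨one_pow _, fun _ => one_pow _⟩

end QData

end Pool.Agent.CycSyl
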