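import Pool.Agent.CycSyl.Count

/-!
Abstract quadratic data: a commutative ring containing `ℤ[θ]`, `θ² = tθ - m`, with controlled
index, and the transfer between this ring and the Hurwitz order.
-/

set_option autoImplicit false

namespace Pool.Agent.CycSyl

open Hz

/-- the ring `O` looks like the maximal order of the quadratic field generated by a root `θ` of
`X² - tX + m` -/
structure QData (O : Type*) [CommRing O] (t m : ℤ) where
  θ : O
  σ : O →+* O
  hθ : θ * θ = (t : O) * θ - (m : O)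
  hσ : σ θ = (t : O) - θ
  span : ∀ w : O, ∃ a b : ℤ, ((t ^ 2 - 4 * m : ℤ) : O) * w = (a : O) + (b : O) * θ
  indep : ∀ a b : ℤ, (a : O) + (b : O) * θ = 0 → a = 0 ∧ b = 0
  trans : ∀ c a b : ℤ, c ≠ 0 → c ∣ 2 * a + b * t → c ^ 2 ∣ a ^ 2 + a * b * t + b ^ 2 * m →
    ∃ w : O, (c : O) * w = (a : O) + (b : O) * θ
  trInt : ∀ w : O, ∃ n : ℤ, w + σ w = (n : O)
  nrmInt : ∀ w : O, ∃ n : ℤ, w * σ w = (n : O)

/-- the ring `ℤ[θ]` -/
abbrev Lm (t m : ℤ) := QuadraticAlgebra ℤ (-m) t

/-- the map from `ℤ[θ]` to the Hurwitz order given by `x` -/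
def ph {t m : ℤ} (x : Hz ℤ) (z : Lm t m) : Hz ℤ := sc z.re + sc z.im * x

section ph

variable {t m : ℤ} {x : Hz ℤ}

theorem ph_add (z w : Lm t m) : ph x (z + w) = ph x z + ph x w := by
  unfold ph
  rw [QuadraticAlgebra.re_add, QuadraticAlgebra.im_add, map_add, map_add]
  noncomm_ring

theorem ph_mul (ht : tr x = t) (hm : nrm x = m) (z w : Lm t m) :
    ph x (z * w) = ph x z * ph x w := by
  unfold ph
  have h := mul_self_eq x
  rw [ht, hm] at h
  rw [QuadraticAlgebra.re_mul, QuadraticAlgebra.im_mul]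
  have e : (sc z.re + sc z.im * x) * (sc w.re + sc w.im * x) =
      sc z.re * sc w.re + (sc z.re * sc w.im + sc z.im * sc w.re) * x +
        sc z.im * sc w.im * (x * x) := by
    rw [add_mul, mul_add, mul_add, mul_assoc (sc z.im) x, ← sc_comm w.re x, mul_assoc (sc z.im) x,
      ← mul_assoc x (sc w.im) x, ← sc_comm w.im x]
    simp only [mul_assoc, add_mul]
    abel
  rw [e, h]
  simp only [map_add, map_mul, map_neg]
  rw [mul_sub, ← mul_assoc (sc z.im * sc w.im) (sc t) x, mul_assoc (sc z.im) (sc w.im) (sc t),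
    sc_comm w.im (sc t), ← mul_assoc (sc z.im), sc_comm z.im (sc t),
    mul_assoc (sc z.im) (sc w.im) (sc m), sc_comm w.im (sc m), ← mul_assoc (sc z.im),
    sc_comm z.im (sc m)]
  simp only [add_mul, neg_mul]
  abel

theorem ph_int (n : ℤ) : ph (t := t) (m := m) x (n : Lm t m) = sc n := by
  unfold ph
  rw [QuadraticAlgebra.re_intCast, QuadraticAlgebra.im_intCast, map_zero, zero_mul, add_zero]
  rfl

theorem ph_omega : ph (t := t) (m := m) x ⟨0, 1⟩ = x := by
  unfold ph; simp

theorem ph_comm (z : Lm t m) : ph x z * x = x * ph x z := by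
  unfold ph
  rw [add_mul, mul_add, sc_comm, mul_assoc, ← mul_assoc x, ← sc_comm z.im x, mul_assoc]

/-- conjugation relation -/
theorem ph_conj_rel {x' β : Hz ℤ} (h : β * x = x' * β) (z : Lm t m) :
    β * ph x z = ph x' z * β := by
  unfold ph
  rw [mul_add, add_mul, ← mul_assoc β, ← sc_comm z.im β, mul_assoc (sc z.im), h, ← sc_comm z.re β,
    mul_assoc]

theorem conj_ph (ht : tr x = t) (z : Lm t m) : conj (ph x z) = ph x (star z) := by
  unfold ph
  rw [conj_add, conj_sc, Hz.conj_mul, conj_sc, conj_eq x, ht, QuadraticAlgebra.re_star,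
    QuadraticAlgebra.im_star, ← sc_comm, mul_sub, map_add, map_neg, map_mul]
  rw [sc_comm t (sc z.im)]
  noncomm_ring

end ph

namespace QData

variable {O : Type*} [CommRing O] {t m : ℤ} (D : QData O t m)

/-- the map from `ℤ[θ]` to `O` -/
def e : Lm t m →+* O where
  toFun z := (z.re : O) + (z.im : O) * D.θ
  map_one' := by
    show ((1 : ℤ) : O) + ((0 : ℤ) : O) * D.θ = 1
    simp
  map_zero' := by
    show ((0 : ℤ) : O) + ((0 : ℤ) : O) * D.θ = 0
    simp
  map_add' z w := by
    rw [QuadraticAlgebra.re_add, QuadraticAlgebra.im_add]; push_cast; ring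
  map_mul' z w := by
    rw [QuadraticAlgebra.re_mul, QuadraticAlgebra.im_mul]; push_cast
    linear_combination (-(z.im : O) * w.im) * D.hθ

theorem e_apply (z : Lm t m) : D.e z = (z.re : O) + (z.im : O) * D.θ := rfl

theorem e_inj : Function.Injective D.e := by
  rw [injective_iff_map_eq_zero]
  intro z hz
  have := D.indep z.re z.im hz
  ext
  · exact this.1
  · exact this.2

include D in
theorem int_inj {a b : ℤ} (h : (a : O) = (b : O)) : a = b := by
  have := D.indep (a - b) 0 (by push_cast; rw [h]; ring)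
  linarith [this.1]

theorem e_star (z : Lm t m) : D.e (star z) = D.σ (D.e z) := by
  rw [e_apply, e_apply, QuadraticAlgebra.re_star, QuadraticAlgebra.im_star, map_add, map_mul,
    D.hσ, map_intCast, map_intCast]
  push_cast; ring

theorem e_mul_star (z : Lm t m) : D.e z * D.σ (D.e z) = ((QuadraticAlgebra.norm z : ℤ) : O) := by
  rw [← D.e_star, ← map_mul, ← QuadraticAlgebra.algebraMap_norm_eq_mul_star, eq_intCast,
    map_intCast]

/-- the modulus -/
def F (_ : QData O t m) : ℤ := 22 * (t ^ 2 - 4 * m)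

theorem exists_e (w : O) : ∃ z : Lm t m, D.e z = (D.F : O) * w := by
  obtain ⟨a, b, h⟩ := D.span w
  refine ⟨⟨22 * a, 22 * b⟩, ?_⟩
  rw [e_apply]
  unfold F
  push_cast at h ⊢
  linear_combination -22 * h

include D in
theorem F0_ne [IsDomain O] : t ^ 2 - 4 * m ≠ 0 := by
  intro h
  have h1 : (2 * D.θ - (t : O)) * (2 * D.θ - (t : O)) = 0 := by
    have : ((t ^ 2 - 4 * m : ℤ) : O) = 0 := by rw [h]; simp
    push_cast at this
    linear_combination 4 * D.hθ + this
  rcases mul_self_eq_zero.1 h1 with h2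
  have := D.indep (-t) 2 (by push_cast; linear_combination h2)
  omega

theorem F_ne [IsDomain O] : D.F ≠ 0 := by
  unfold F
  exact mul_ne_zero (by norm_num) D.F0_ne

include D in
theorem int_ne [IsDomain O] {n : ℤ} (hn : n ≠ 0) : (n : O) ≠ 0 := by
  intro h
  apply hn
  exact D.int_inj (by rw [h]; simp)

/-- integrality transfer -/
theorem transfer {x : Hz ℤ} (ht : tr x = t) (hm : nrm x = m) {c : ℤ} (hc : c ≠ 0) {μ : Hz ℤ}
    {z : Lm t m} (h : sc c * μ = ph x z) : ∃ w : O, (c : O) * w = D.e z := by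
  apply D.trans c z.re z.im hc
  · refine ⟨tr μ, ?_⟩
    have := congrArg tr h
    unfold ph at this
    rw [tr_sc_mul, tr_add, tr_sc, tr_sc_mul, ht] at this
    linarith
  · refine ⟨nrm μ, ?_⟩
    have := congrArg nrm h
    rw [nrm_mul, nrm_sc] at this
    rw [this]
    have hn : nrm (ph x z) = z.re ^ 2 + z.re * z.im * tr x + z.im ^ 2 * nrm x := by
      unfold ph
      simp only [nrm, tr, add_a, add_b, add_c, add_d, mul_a, mul_b, mul_c, mul_d, sc_a, sc_b, sc_c,
        sc_d]
      ring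
    rw [hn, ht, hm]

/-- elements commuting with `x` -/
theorem commuting {t m : ℤ} {x β : Hz ℤ} (ht : tr x = t) (hm : nrm x = m)
    (h : β * x = x * β) : ∃ z : Lm t m, sc (4 * (t ^ 2 - 4 * m)) * β = ph x z := by
  set x0 : Hz ℤ := x + x - sc t with hx0
  set β0 : Hz ℤ := β + β - sc (tr β) with hβ0
  have h1 : β0 * x0 = x0 * β0 := by
    rw [hx0, hβ0]
    simp only [mul_sub, sub_mul, mul_add, add_mul, h]
    rw [sc_comm (tr β) x, sc_comm t β, sc_comm (tr β) (sc t)]
    abel
  have hcx : conj x0 = -x0 := by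
    rw [hx0]
    have := conj_eq x
    rw [ht] at this
    have e1 : conj (x + x - sc t) = conj x + conj x - sc t := by
      ext <;> simp; ring
    rw [e1, this]; abel
  have hcβ : conj β0 = -β0 := by
    rw [hβ0]
    have := conj_eq β
    have e1 : conj (β + β - sc (tr β)) = conj β + conj β - sc (tr β) := by
      ext <;> simp; ring
    rw [e1, this]; abel
  have h2 : x0 * β0 + x0 * β0 = sc (tr (x0 * β0)) := by
    rw [← add_conj, Hz.conj_mul, hcx, hcβ, neg_mul_neg, h1]
  have h3 : x0 * x0 = sc (t ^ 2 - 4 * m) := by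
    have e1 : x0 * x0 = -(x0 * conj x0) := by rw [hcx, mul_neg, neg_neg]
    rw [e1, mul_conj, ← map_neg]
    congr 1
    rw [hx0]
    have : nrm (x + x - sc t) = 4 * nrm x - 2 * t * tr x + t ^ 2 := by
      simp only [nrm, tr, sub_a, sub_b, sub_c, sub_d, add_a, add_b, add_c, add_d, sc_a, sc_b, sc_c,
        sc_d]
      ring
    rw [this, ht, hm]; ring
  -- multiply by `x0`
  have h4 : sc (t ^ 2 - 4 * m) * (β0 + β0) = sc (tr (x0 * β0)) * x0 := by
    rw [← h3, mul_assoc, mul_add, h2, ← sc_comm]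
  refine ⟨⟨2 * (t ^ 2 - 4 * m) * tr β - tr (x0 * β0) * t, 2 * tr (x0 * β0)⟩, ?_⟩
  unfold ph
  have ha := congrArg Hz.a h4
  have hb := congrArg Hz.b h4
  have hc := congrArg Hz.c h4
  have hd := congrArg Hz.d h4
  generalize tr (x0 * β0) = s at ha hb hc hd ⊢
  simp only [hx0, hβ0, add_a, add_b, add_c, add_d, sub_a, sub_b, sub_c, sub_d, mul_a, mul_b, mul_c,
    mul_d, sc_a, sc_b, sc_c, sc_d] at ha hb hc hd
  ext
  · simp only [add_a, mul_a, sc_a, sc_b, sc_c, sc_d]
    linear_combination ha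
  · simp only [add_b, mul_b, sc_a, sc_b, sc_c, sc_d]
    linear_combination hb
  · simp only [add_c, mul_c, sc_a, sc_b, sc_c, sc_d]
    linear_combination hc
  · simp only [add_d, mul_d, sc_a, sc_b, sc_c, sc_d]
    linear_combination hd

end QData

end Pool.Agent.CycSyl
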